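import Pool.Agent.UCR.Rank
import Pool.Agent.UCT.Defs

/-!
# UCV Transfer: ranks of the edges of a copy

PROOF. Adapt `Pool/Agent/UCS/Transfer.lean` (helper10) and `Pool/Agent/UCR/Transfer.lean`
(helper72); see also `Pool/Agent/UCT/Transfer.lean` (helper7 works on it). `R i` is the rank in
`G` of the image of the edge number `i` of `H` (the edge `e` with `g e = i`), `R i = 0` for
`K ≤ i`; `dist` of two image edges is the difference of their ranks (`dist_eq`), and `e ↦ g e` is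
a bijection from `H.edgeSet` onto `range K`.
-/

set_option autoImplicit false

namespace Pool.Agent.UCV

open Pool.Agent.UCR

private theorem mem_edges0 {N : ℕ} (G : SimpleGraph (Fin N)) (e : Sym2 (Fin N)) :
    e ∈ edges G ↔ e ∈ G.edgeSet := by
  simp [edges]

open Classical in
private theorem count0 {n K : ℕ} (H : SimpleGraph (Fin n)) (g : Sym2 (Fin n) → ℕ)
    (ginj : Set.InjOn g H.edgeSet) (glt : ∀ e ∈ H.edgeSet, g e < K)
    (gsurj : ∀ i < K, ∃ e ∈ H.edgeSet, g e = i) (Q : Sym2 (Fin n) → Prop) (Q' : ℕ → Prop)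
    (hQ : ∀ e ∈ H.edgeSet, (Q e ↔ Q' (g e))) :
    {e ∈ H.edgeSet | Q e}.ncard = ((Finset.range K).filter Q').card := by
  have h1 : g '' {e ∈ H.edgeSet | Q e} = (((Finset.range K).filter Q' : Finset ℕ) : Set ℕ) := by
    ext i
    simp only [Set.mem_image, Set.mem_ofPred_eq, Finset.coe_filter, Finset.mem_range]
    constructor
    · rintro ⟨e, ⟨he, hq⟩, rfl⟩
      exact ⟨glt e he, (hQ e he).1 hq⟩
    · rintro ⟨hi, hq⟩
      obtain ⟨e, he, rfl⟩ := gsurj i hi
      exact ⟨e, ⟨he, (hQ e he).2 hq⟩, rfl⟩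
  have h2 : (g '' {e ∈ H.edgeSet | Q e}).ncard = {e ∈ H.edgeSet | Q e}.ncard :=
    Set.ncard_image_of_injOn (ginj.mono (fun e he => he.1))
  rw [← h2, h1, Set.ncard_coe_finset]

open Classical in
theorem transfer0 {n N K : ℕ} (H : SimpleGraph (Fin n)) (g : Sym2 (Fin n) → ℕ)
    (ginj : Set.InjOn g H.edgeSet) (glt : ∀ e ∈ H.edgeSet, g e < K)
    (gsurj : ∀ i < K, ∃ e ∈ H.edgeSet, g e = i)
    (G : SimpleGraph (Fin N)) (f : Sym2 (Fin N) → ℕ) (hf : Function.Injective f)
    (φ : Fin n → Fin N) (hφ : Function.Injective φ)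
    (hG : ∀ e ∈ H.edgeSet, Sym2.map φ e ∈ G.edgeSet)
    (hord : ∀ e ∈ H.edgeSet, ∀ e' ∈ H.edgeSet,
      (g e < g e' ↔ f (Sym2.map φ e) < f (Sym2.map φ e'))) :
    ∃ R : ℕ → ℕ, (∀ e ∈ H.edgeSet, rank G f (Sym2.map φ e) = R (g e)) ∧
      (∀ i j : ℕ, i < j → j < K → R i < R j) ∧ (∀ i < K, R i < (edges G).card) ∧
      ∀ (x : ℝ) (P : ℕ → Prop), {e ∈ H.edgeSet | P (UCT.near H G f φ x e)}.ncard =
        ((Finset.range K).filter (fun i => P
          ((Finset.range K).filter (fun i' =>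
            (((R i - R i') + (R i' - R i) : ℕ) : ℝ) ≤ x)).card)).card := by
  have hch : ∀ i : ℕ, ∃ r : ℕ, ∀ e ∈ H.edgeSet, g e = i → rank G f (Sym2.map φ e) = r := by
    intro i
    by_cases hi : ∃ e ∈ H.edgeSet, g e = i
    · obtain ⟨e, he, hge⟩ := hi
      refine ⟨rank G f (Sym2.map φ e), fun e' he' hge' => ?_⟩
      rw [ginj he' he (hge'.trans hge.symm)]
    · exact ⟨0, fun e he hge => absurd ⟨e, he, hge⟩ hi⟩
  choose R hR using hch
  have hG' : ∀ e ∈ H.edgeSet, Sym2.map φ e ∈ edges G := fun e he => (mem_edges0 G _).2 (hG e he)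
  have hdist : ∀ e ∈ H.edgeSet, ∀ e' ∈ H.edgeSet,
      UCR.dist G f (Sym2.map φ e) (Sym2.map φ e') =
        (R (g e) - R (g e')) + (R (g e') - R (g e)) := by
    intro e he e' he'
    rw [dist_eq G f hf _ _ (hG' e he) (hG' e' he'), hR (g e) e he rfl, hR (g e') e' he' rfl]
    exact Nat.add_comm _ _
  refine ⟨R, fun e he => hR (g e) e he rfl, ?_, ?_, ?_⟩
  · intro i j hij hj
    obtain ⟨e, he, hge⟩ := gsurj i (lt_trans hij hj)
    obtain ⟨e', he', hge'⟩ := gsurj j hj
    rw [← hR i e he hge, ← hR j e' he' hge', rank_lt_rank G f hf _ _ (hG' e he) (hG' e' he'),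
      ← hord e he e' he', hge, hge']
    exact hij
  · intro i hi
    obtain ⟨e, he, hge⟩ := gsurj i hi
    rw [← hR i e he hge]
    exact rank_lt_card G f _ (hG' e he)
  · intro x P
    refine count0 H g ginj glt gsurj _ _ ?_
    intro e he
    have h1 : UCT.near H G f φ x e = ((Finset.range K).filter (fun i' =>
        (((R (g e) - R i') + (R i' - R (g e)) : ℕ) : ℝ) ≤ x)).card := by
      unfold UCT.near
      refine count0 H g ginj glt gsurj _ _ ?_
      intro e' he'
      rw [hdist e he e' he']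
    rw [h1]

end Pool.Agent.UCV
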