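import Pool.Agent.UCR.BlueCount
import Pool.Agent.UCT.Defs

/-!
# UCV BlueUnion: union bound over the data, one list of intervals, with a general constant

PROOF. Simpler version of `Pool.Agent.UCR.blue_union`. Fix `d` with `wt d d σ T ≤ wmax` for all
`T` and `K0 ≤ ∑ wt`. By `blue_count` (with `K = K0`) the number of `f` is at most
`Q ^ (r ^ 2) * exp (- K0 / (4 Q wmax))`. The number of `d` is
`(r (2 ^ k + 1) ^ 2) ^ x = exp (x log (r (2 ^ k + 1) ^ 2))`, and by `hnum`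
`K0 / (4 Q wmax) ≥ x log (r (2 ^ k + 1) ^ 2) + log c`.
-/

set_option autoImplicit false

namespace Pool.Agent.UCV

open Pool.Agent.UCR

open Classical in
theorem blue_union (k r Q x : ℕ) (wmax b K0 c : ℝ) (σ : Equiv.Perm (Fin (2 ^ k))) (hr : 0 < r)
    (hc : 0 < c) (hQ : 0 < Q) (hw : 0 < wmax) (hb : 4 * (Q : ℝ) * b ≤ K0)
    (hnum : 4 * (Q : ℝ) * wmax *
      (x * Real.log (r * (2 ^ k + 1) ^ 2) + Real.log c) ≤ K0) :
    c * ((Finset.univ.filter (fun f : Fin r × Fin r → Fin Q =>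
      ∃ d : Fin x → Fin r × Fin (2 ^ k + 1) × Fin (2 ^ k + 1),
        (∀ T, (wt d d σ T : ℝ) ≤ wmax) ∧
        K0 ≤ ∑ T, (wt d d σ T : ℝ) ∧
        (∑ T ∈ Finset.univ.filter (fun T => (f T : ℕ) = 0), (wt d d σ T : ℝ)) ≤ b)).card : ℝ)
      ≤ (Q : ℝ) ^ (r ^ 2) := by
  have hQ' : (0 : ℝ) < Q := by exact_mod_cast hQ
  have hr' : (0 : ℝ) < r := by exact_mod_cast hr
  set A : ℝ := r * (2 ^ k + 1) ^ 2 with hA
  have hA0 : 0 < A := by positivity
  set E : ℝ := Real.exp (-(K0 / (4 * Q * wmax))) with hE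
  have h1 : (Finset.univ.filter (fun f : Fin r × Fin r → Fin Q =>
      ∃ d : Fin x → Fin r × Fin (2 ^ k + 1) × Fin (2 ^ k + 1),
        (∀ T, (wt d d σ T : ℝ) ≤ wmax) ∧
        K0 ≤ ∑ T, (wt d d σ T : ℝ) ∧
        (∑ T ∈ Finset.univ.filter (fun T => (f T : ℕ) = 0), (wt d d σ T : ℝ)) ≤ b)) ⊆
      (Finset.univ : Finset (Fin x → Fin r × Fin (2 ^ k + 1) × Fin (2 ^ k + 1))).biUnion
        (fun d => Finset.univ.filter (fun f : Fin r × Fin r → Fin Q =>
          (∀ T, (wt d d σ T : ℝ) ≤ wmax) ∧ K0 ≤ ∑ T, (wt d d σ T : ℝ) ∧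
          (∑ T ∈ Finset.univ.filter (fun T => (f T : ℕ) = 0), (wt d d σ T : ℝ)) ≤ b)) := by
    intro f hf
    obtain ⟨d, hd⟩ := (Finset.mem_filter.1 hf).2
    exact Finset.mem_biUnion.2 ⟨d, Finset.mem_univ _, Finset.mem_filter.2 ⟨Finset.mem_univ _, hd⟩⟩
  have h2 : ∀ d : Fin x → Fin r × Fin (2 ^ k + 1) × Fin (2 ^ k + 1),
      ((Finset.univ.filter (fun f : Fin r × Fin r → Fin Q =>
          (∀ T, (wt d d σ T : ℝ) ≤ wmax) ∧ K0 ≤ ∑ T, (wt d d σ T : ℝ) ∧
          (∑ T ∈ Finset.univ.filter (fun T => (f T : ℕ) = 0), (wt d d σ T : ℝ)) ≤ b)).card : ℝ)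
        ≤ (Q : ℝ) ^ (r ^ 2) * E := by
    intro d
    by_cases hd : (∀ T, (wt d d σ T : ℝ) ≤ wmax) ∧ K0 ≤ ∑ T, (wt d d σ T : ℝ)
    · have h3 := blue_count Q hQ (fun T => wt d d σ T) wmax hw hd.1 K0 b hd.2 hb
      have h4 : Fintype.card (Fin r × Fin r) = r ^ 2 := by
        rw [Fintype.card_prod, Fintype.card_fin, sq]
      rw [h4] at h3
      have h33 : ((Finset.univ.filter (fun f : Fin r × Fin r → Fin Q =>
          (∑ T ∈ Finset.univ.filter (fun T => (f T : ℕ) = 0), (wt d d σ T : ℝ)) ≤ b)).card : ℝ)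
          ≤ (Q : ℝ) ^ (r ^ 2) * E := by
        refine le_trans (Nat.cast_le.2 (Finset.card_le_card ?_)) h3
        intro f hf
        rw [Finset.mem_filter] at hf ⊢
        refine ⟨?_, hf.2⟩
        simp only [Finset.mem_univ]
      refine le_trans (Nat.cast_le.2 (Finset.card_le_card ?_)) h33
      intro f hf
      simp only [Finset.mem_filter, Finset.mem_univ, true_and] at hf ⊢
      exact hf.2.2
    · have h3 : Finset.univ.filter (fun f : Fin r × Fin r → Fin Q =>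
          (∀ T, (wt d d σ T : ℝ) ≤ wmax) ∧ K0 ≤ ∑ T, (wt d d σ T : ℝ) ∧
          (∑ T ∈ Finset.univ.filter (fun T => (f T : ℕ) = 0), (wt d d σ T : ℝ)) ≤ b) = ∅ := by
        refine Finset.filter_eq_empty_iff.2 fun f _ hf => hd ⟨hf.1, hf.2.1⟩
      rw [h3, Finset.card_empty, Nat.cast_zero]
      positivity
  have h5 : ((Finset.univ.filter (fun f : Fin r × Fin r → Fin Q =>
      ∃ d : Fin x → Fin r × Fin (2 ^ k + 1) × Fin (2 ^ k + 1),
        (∀ T, (wt d d σ T : ℝ) ≤ wmax) ∧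
        K0 ≤ ∑ T, (wt d d σ T : ℝ) ∧
        (∑ T ∈ Finset.univ.filter (fun T => (f T : ℕ) = 0), (wt d d σ T : ℝ)) ≤ b)).card : ℝ)
      ≤ A ^ x * ((Q : ℝ) ^ (r ^ 2) * E) := by
    have h6 := Nat.cast_le (α := ℝ) |>.2 ((Finset.card_le_card h1).trans Finset.card_biUnion_le)
    refine h6.trans ?_
    rw [Nat.cast_sum]
    refine (Finset.sum_le_sum fun d _ => h2 d).trans (le_of_eq ?_)
    rw [Finset.sum_const, Finset.card_univ, nsmul_eq_mul]
    congr 1
    rw [Fintype.card_fun, Fintype.card_prod, Fintype.card_prod, Fintype.card_fin,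
      Fintype.card_fin, Fintype.card_fin, hA]
    push_cast
    ring
  have h7 : A ^ x = Real.exp (x * Real.log A) := by
    rw [mul_comm, Real.exp_mul, Real.exp_log hA0, Real.rpow_natCast]
  have h8 : x * Real.log A + Real.log c ≤ K0 / (4 * Q * wmax) := by
    rw [le_div_iff₀ (by positivity)]
    linarith
  have h9 : c * A ^ x * E ≤ 1 := by
    have h10 : c = Real.exp (Real.log c) := (Real.exp_log hc).symm
    rw [h7, hE]
    calc c * Real.exp (x * Real.log A) * Real.exp (-(K0 / (4 * Q * wmax)))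
        = Real.exp (Real.log c) * Real.exp (x * Real.log A) *
          Real.exp (-(K0 / (4 * Q * wmax))) := by rw [← h10]
      _ = Real.exp (Real.log c + x * Real.log A + -(K0 / (4 * Q * wmax))) := by
          rw [Real.exp_add, Real.exp_add]
      _ ≤ 1 := by
          rw [Real.exp_le_one_iff]
          linarith
  calc c * ((Finset.univ.filter (fun f : Fin r × Fin r → Fin Q =>
      ∃ d : Fin x → Fin r × Fin (2 ^ k + 1) × Fin (2 ^ k + 1),
        (∀ T, (wt d d σ T : ℝ) ≤ wmax) ∧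
        K0 ≤ ∑ T, (wt d d σ T : ℝ) ∧
        (∑ T ∈ Finset.univ.filter (fun T => (f T : ℕ) = 0), (wt d d σ T : ℝ)) ≤ b)).card : ℝ)
      ≤ c * (A ^ x * ((Q : ℝ) ^ (r ^ 2) * E)) := mul_le_mul_of_nonneg_left h5 hc.le
    _ = c * A ^ x * E * (Q : ℝ) ^ (r ^ 2) := by ring
    _ ≤ 1 * (Q : ℝ) ^ (r ^ 2) := mul_le_mul_of_nonneg_right h9 (by positivity)
    _ = (Q : ℝ) ^ (r ^ 2) := one_mul _

end Pool.Agent.UCV
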