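import Pool.Agent.UCV.Level

/-!
# UCV Col: one colouring for all levels, lower levels have priority
-/

set_option autoImplicit false

namespace Pool.Agent.UCV

open Pool.Agent.UCR

/-- the colour of the lowest level which contains `e` -/
theorem exists_col {α : Type} (J : ℕ) (fs : ℕ → α → Prop) (χ : ℕ → Bool) :
    ∃ col : α → Bool,
      (∀ e, col e = true → ∃ j, 1 ≤ j ∧ j ≤ J ∧ fs j e) ∧
      ∀ e j, 1 ≤ j → j ≤ J → fs j e → col e ≠ χ j → ∃ j', 1 ≤ j' ∧ j' < j ∧ fs j' e := by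
  classical
  refine ⟨fun e => if h : ∃ j, 1 ≤ j ∧ j ≤ J ∧ fs j e then χ (Nat.find h) else false, ?_, ?_⟩
  · intro e he
    by_cases h : ∃ j, 1 ≤ j ∧ j ≤ J ∧ fs j e
    · exact h
    · dsimp only at he
      rw [dif_neg h] at he
      exact absurd he (by decide)
  · intro e j h1 h2 h3 hne
    have h : ∃ j, 1 ≤ j ∧ j ≤ J ∧ fs j e := ⟨j, h1, h2, h3⟩
    dsimp only at hne
    rw [dif_pos h] at hne
    have hle := Nat.find_min' h ⟨h1, h2, h3⟩
    have hlt : Nat.find h < j := by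
      refine lt_of_le_of_ne hle (fun heq => hne ?_)
      rw [heq]
    have hs := Nat.find_spec h
    exact ⟨Nat.find h, hs.1, hlt, hs.2.2⟩

open Classical in
/-- few pairs of a clique with distinct windows are in the sets of the levels below -/
theorem count_le {V : Type} (E : Finset (Sym2 V)) (rk : Sym2 V → ℕ) (t h J b : ℕ)
    (fs : ℕ → Sym2 V → Prop)
    (hfs : ∀ j, 1 ≤ j → j ≤ J → ∀ y : Fin t → V, (∀ a b : Fin t, a < b → s(y a, y b) ∈ E) →
        (∀ a a' c c' : Fin t, a < a' → c < c' →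
          rk s(y a, y a') / b ^ j = rk s(y c, y c') / b ^ j → a = c ∧ a' = c') →
        (Finset.univ.filter (fun q : Fin t × Fin t => q.1 < q.2 ∧
          fs j s(y q.1, y q.2))).card < 2 * h)
    (J' : ℕ) (hJ' : J' ≤ J) (y : Fin t → V) (hyE : ∀ a b : Fin t, a < b → s(y a, y b) ∈ E)
    (hyW : ∀ a a' c c' : Fin t, a < a' → c < c' →
          rk s(y a, y a') / b ^ J' = rk s(y c, y c') / b ^ J' → a = c ∧ a' = c') :
    (Finset.univ.filter (fun q : Fin t × Fin t => q.1 < q.2 ∧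
      ∃ j, 1 ≤ j ∧ j ≤ J' ∧ fs j s(y q.1, y q.2))).card ≤ J' * (2 * h) := by
  have hsub : (Finset.univ.filter (fun q : Fin t × Fin t => q.1 < q.2 ∧
      ∃ j, 1 ≤ j ∧ j ≤ J' ∧ fs j s(y q.1, y q.2))) ⊆
      (Finset.Icc 1 J').biUnion (fun j => Finset.univ.filter (fun q : Fin t × Fin t =>
        q.1 < q.2 ∧ fs j s(y q.1, y q.2))) := by
    intro q hq
    obtain ⟨h1, j, h2, h3, h4⟩ := (Finset.mem_filter.mp hq).2
    exact Finset.mem_biUnion.mpr ⟨j, Finset.mem_Icc.mpr ⟨h2, h3⟩,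
      Finset.mem_filter.mpr ⟨Finset.mem_univ _, h1, h4⟩⟩
  refine (Finset.card_le_card hsub).trans ((Finset.card_biUnion_le_card_mul _ _ (2 * h) ?_).trans
    (le_of_eq (by rw [Nat.card_Icc, Nat.add_sub_cancel])))
  intro j hj
  obtain ⟨h1, h2⟩ := Finset.mem_Icc.mp hj
  refine (hfs j h1 (by omega) y hyE ?_).le
  intro a a' c c' h3 h4 heq
  refine hyW a a' c c' h3 h4 ?_
  have hKj : b ^ J' = b ^ j * b ^ (J' - j) := by
    rw [← pow_add]
    congr 1
    omega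
  rw [hKj, ← Nat.div_div_eq_div_mul, ← Nat.div_div_eq_div_mul, heq]

open Classical in
theorem multi {V : Type} [Fintype V] [DecidableEq V] (E : Finset (Sym2 V))
    (rk : Sym2 V → ℕ) (hinj : Set.InjOn rk (E : Set (Sym2 V))) (m : ℕ) (hm : E.card ≤ m)
    (hm0 : 0 < m) (k t h Fs nl J b : ℕ) (lam Q x : ℕ → ℕ) (wmax bd : ℕ → ℝ) (K0 : ℝ)
    (χ : ℕ → Bool) (σ : Fin Fs → Equiv.Perm (Fin (2 ^ k))) (hFs : 0 < Fs)
    (cls : Fin t → Fin t → Bool) (Ln : Fin nl → ZMod 5 → Fin t)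
    (hcls : ∀ a b, cls a b = cls b a) (hLn : ∀ l, Function.Injective (Ln l))
    (hLn1 : ∀ l c, cls (Ln l c) (Ln l (c + 1)) = true)
    (hLn2 : ∀ l c, cls (Ln l c) (Ln l (c + 2)) = false)
    (hdis : ∀ (l l' : Fin nl) (a b a' b' : ZMod 5), a ≠ b →
      s(Ln l a, Ln l b) = s(Ln l' a', Ln l' b') → l = l')
    (ht : 2 ≤ t) (hb : 0 < b) (hh : 0 < h)
    (hnl : (J + 1) * (2 * h) ≤ nl) (hB : (J + 1) * (2 * h) ≤ t * (t - 1) / 2)
    (hlam : ∀ j, 1 ≤ j → j ≤ J → 108 * b ^ j < lam j ^ 3)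
    (hQ : ∀ j, 1 ≤ j → j ≤ J → 0 < Q j)
    (hred : ∀ j, 1 ≤ j → j ≤ J →
      4 * (2 * m) ^ t * 4 ^ (t * (t - 1) / 2) * (40 * lam j) ^ h ≤ Q j ^ h)
    (hw : ∀ j, 0 < wmax j) (hbd : ∀ j, 1 ≤ j → j ≤ J → 4 * (Q j : ℝ) * bd j ≤ K0)
    (hnum : ∀ j, 1 ≤ j → j ≤ J → 4 * (Q j : ℝ) * wmax j *
      (x j * Real.log (m * (2 ^ k + 1) ^ 2) + Real.log (4 * Fs)) ≤ K0) :
    ∃ col : Sym2 V → Bool,
      (∀ y : Fin t → V, (∀ a b : Fin t, a ≠ b → s(y a, y b) ∈ E) →
        (∀ a a' c c' : Fin t, a < a' → c < c' →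
          rk s(y a, y a') / b ^ J = rk s(y c, y c') / b ^ J → a = c ∧ a' = c') →
        ¬ ∀ a b : Fin t, a ≠ b → col s(y a, y b) = true) ∧
      ∀ j, 1 ≤ j → j ≤ J → ∀ (f : Fin Fs) (X : Fin (2 ^ k) → Fin t → V)
        (d : Fin (x j) → Fin m × Fin (2 ^ k + 1) × Fin (2 ^ k + 1)),
        (∀ T, (wt d d (σ f) T : ℝ) ≤ wmax j) →
        (∀ p i i', Cnt d d (σ f) p i i' → Function.Injective (X p) ∧
          (∀ a a', a ≠ a' → s(X p a, X p a') ∈ E) ∧
          (∀ a a', a ≠ a' →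
            rk s(X p a, X p a') / b ^ j = if cls a a' = true then (i : ℕ) else (i' : ℕ)) ∧
          (i ≠ i' → ∀ a a' c c' : Fin t, a < a' → c < c' →
            rk s(X p a, X p a') / b ^ (j - 1) = rk s(X p c, X p c') / b ^ (j - 1) →
              a = c ∧ a' = c')) →
        K0 ≤ ((Finset.univ.filter (fun p => ∃ i i', Cnt d d (σ f) p i i')).card : ℝ) →
        ((Finset.univ.filter (fun p => ∃ i, Cnt d d (σ f) p i i)).card : ℝ) ≤ bd j →
        ¬ ∀ p a a', a ≠ a' → col s(X p a, X p a') = !χ j := by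
  have hnl0 : 0 < nl := lt_of_lt_of_le (by positivity) hnl
  have hone : ∀ j : ℕ, ∃ fs : Sym2 V → Prop, 1 ≤ j → j ≤ J →
      (∀ y : Fin t → V, (∀ a b : Fin t, a < b → s(y a, y b) ∈ E) →
        (∀ a a' c c' : Fin t, a < a' → c < c' →
          rk s(y a, y a') / b ^ j = rk s(y c, y c') / b ^ j → a = c ∧ a' = c') →
        (Finset.univ.filter (fun q : Fin t × Fin t => q.1 < q.2 ∧
          fs s(y q.1, y q.2))).card < 2 * h) ∧
      ∀ (f : Fin Fs) (X : Fin (2 ^ k) → Fin t → V)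
          (d : Fin (x j) → Fin m × Fin (2 ^ k + 1) × Fin (2 ^ k + 1)),
          (∀ T, (wt d d (σ f) T : ℝ) ≤ wmax j) →
          (∀ p i i', Cnt d d (σ f) p i i' → Function.Injective (X p) ∧
            (∀ a b, a ≠ b → s(X p a, X p b) ∈ E) ∧
            ∀ a a', a ≠ a' →
              rk s(X p a, X p a') / b ^ j = if cls a a' = true then (i : ℕ) else (i' : ℕ)) →
          K0 ≤ ((Finset.univ.filter (fun p => ∃ i i', Cnt d d (σ f) p i i')).card : ℝ) →
          ((Finset.univ.filter (fun p => ∃ i, Cnt d d (σ f) p i i)).card : ℝ) ≤ bd j →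
          ∃ p i i', i ≠ i' ∧ Cnt d d (σ f) p i i' ∧
            ∀ l, ∃ c c' : ZMod 5, c ≠ c' ∧ fs s(X p (Ln l c), X p (Ln l c')) := by
    intro j
    by_cases hj : 1 ≤ j ∧ j ≤ J
    · obtain ⟨fs, h1, h2⟩ := one_level E rk hinj m hm hm0 k t h (b ^ j) (lam j) (Q j) (x j) Fs nl
        (wmax j) (bd j) K0 σ hFs cls Ln hcls hLn hLn1 hLn2 hnl0 ht (pow_pos hb _)
        (hlam j hj.1 hj.2) (hQ j hj.1 hj.2) (hred j hj.1 hj.2) (hw j) (hbd j hj.1 hj.2)
        (hnum j hj.1 hj.2)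
      exact ⟨fs, fun _ _ => ⟨h1, h2⟩⟩
    · exact ⟨fun _ => False, fun h1 h2 => absurd ⟨h1, h2⟩ hj⟩
  choose fs hfs using hone
  obtain ⟨col, hcol1, hcol2⟩ := exists_col J fs χ
  have hcount := count_le E rk t h J b fs (fun j h1 h2 => (hfs j h1 h2).1)
  refine ⟨col, fun y hyE hyW hcol => ?_, fun j hj1 hjJ f X d hwt hlab hK0 hdiag hcol => ?_⟩
  · have h1 := hcount J le_rfl y (fun a b hab => hyE a b hab.ne) hyW
    have h2 : (Finset.univ.filter (fun q : Fin t × Fin t => q.1 < q.2)).card ≤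
        (Finset.univ.filter (fun q : Fin t × Fin t => q.1 < q.2 ∧
          ∃ j, 1 ≤ j ∧ j ≤ J ∧ fs j s(y q.1, y q.2))).card := by
      apply Finset.card_le_card
      intro q hq
      have hq' := (Finset.mem_filter.mp hq).2
      exact Finset.mem_filter.mpr ⟨Finset.mem_univ _, hq', hcol1 _ (hcol _ _ hq'.ne)⟩
    rw [UCS.card_pairs] at h2
    have h3 : J * (2 * h) < (J + 1) * (2 * h) := Nat.mul_lt_mul_of_pos_right (by omega) (by omega)
    omega
  · obtain ⟨p, i, i', hne, hcnt, hl⟩ := (hfs j hj1 hjJ).2 f X d hwt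
      (fun p i i' hc => ⟨(hlab p i i' hc).1, (hlab p i i' hc).2.1, (hlab p i i' hc).2.2.1⟩)
      hK0 hdiag
    obtain ⟨e1, e2, e3, e4⟩ := hlab p i i' hcnt
    have h1 := hcount (j - 1) (by omega) (X p) (fun a b hab => e2 a b hab.ne) (e4 hne)
    choose c c' hcc hfl using hl
    -- the pair of the line `l`, ordered
    have hpair : ∀ l, ∃ q : Fin t × Fin t, q.1 < q.2 ∧ s(q.1, q.2) = s(Ln l (c l), Ln l (c' l)) := by
      intro l
      have hne' : Ln l (c l) ≠ Ln l (c' l) := fun h => hcc l (hLn l h)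
      rcases lt_or_gt_of_ne hne' with hlt | hlt
      · exact ⟨(_, _), hlt, rfl⟩
      · exact ⟨(_, _), hlt, Sym2.eq_swap⟩
    choose q hq1 hq2 using hpair
    have hqinj : Function.Injective q := by
      intro l l' heq
      refine hdis l l' (c l) (c' l) (c l') (c' l') (hcc l) ?_
      rw [← hq2 l, ← hq2 l', heq]
    have h2 : nl ≤ (Finset.univ.filter (fun q : Fin t × Fin t => q.1 < q.2 ∧
          ∃ j', 1 ≤ j' ∧ j' ≤ j - 1 ∧ fs j' s(X p q.1, X p q.2))).card := by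
      have h3 := Finset.card_le_card_of_injOn (s := (Finset.univ : Finset (Fin nl)))
        (t := Finset.univ.filter (fun q : Fin t × Fin t => q.1 < q.2 ∧
          ∃ j', 1 ≤ j' ∧ j' ≤ j - 1 ∧ fs j' s(X p q.1, X p q.2))) q (by
          intro l _
          rw [Finset.mem_coe, Finset.mem_filter]
          refine ⟨Finset.mem_univ _, hq1 l, ?_⟩
          have hs : s(X p (q l).1, X p (q l).2) = s(X p (Ln l (c l)), X p (Ln l (c' l))) := by
            have := congrArg (Sym2.map (X p)) (hq2 l)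
            simpa using this
          rw [hs]
          have hcolne : col s(X p (Ln l (c l)), X p (Ln l (c' l))) ≠ χ j := by
            rw [hcol p _ _ (fun h => hcc l (hLn l h))]
            cases χ j <;> decide
          obtain ⟨j', h4, h5, h6⟩ := hcol2 _ j hj1 hjJ (hfl l) hcolne
          exact ⟨j', h4, by omega, h6⟩) (fun l _ l' _ heq => hqinj heq)
      rwa [Finset.card_univ, Fintype.card_fin] at h3
    have h3 : (j - 1) * (2 * h) < (J + 1) * (2 * h) :=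
      Nat.mul_lt_mul_of_pos_right (by omega) (by omega)
    omega

end Pool.Agent.UCV
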