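import Pool.Agent.UCV.Defs

/-!
# UCV Data: good positions as a list of intervals

`A`, `A'` are monotone below `2 ^ k` (windows of the slots for two window sizes). The fibre of
`A` through `p` is `{p' < 2 ^ k : A p' = A p}`; fibres are intervals.

PROOF of `exists_data`. Let `J` be the set of values `i` whose fibre `[l_i, h_i)` has size in
`[ℓ, μ]`; `|J| ≤ 2 ^ k / ℓ`, take `I = J`. The good positions are the `p` with `A p ∈ J`,
`p + B D + 1 < h_(A p)` and `A' (p + a D + 1) ≠ A' (p + (a + 1) D)` for all `a < B`. The good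
positions with `A p = i` form a union of intervals; call `p` a start if it is good and `p = 0` or
`p - 1` is not good or `A (p - 1) ≠ A p`. A start `p` is `l_i` for some `i ∈ J` (at most
`2 ^ k / ℓ` starts) or `A (p - 1) = A p` and `p - 1` is not good; then for some `a < B`
`A' (p - 1 + a D + 1) = A' (p - 1 + (a + 1) D)` and
`A' (p + a D + 1) ≠ A' (p + (a + 1) D)`; as `D ≥ 2`, `A'` is constant on
`[p + a D, p + (a + 1) D - 1]`, and `p + (a + 1) D - 1` is the last element of its fibre
(otherwise `A' (p + a D + 1) = A' (p + (a + 1) D)`), a fibre of `A'` with at least `D` elements. So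
for each `a` there are at most `2 ^ k / D` such starts. Hence there are at most
`2 ^ k / ℓ + B (2 ^ k / D)` starts; the list `d` contains for each start `p` the triple
`(A p, p, q)` where `q` is the least number `≥ p` such that `q` is not good or `A q ≠ A p`
(remaining entries: empty intervals `(_, 0, 0)`). All positions in the intervals are good.
Count: the positions `p` with fibre size in `[ℓ, μ]` which are not good: for each `i ∈ J` the last
`B D + 1` elements of the fibre, and for each `a < B` the `p` with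
`A' (p + a D + 1) = A' (p + (a + 1) D)` (and `p + B D + 1 < 2 ^ k`): then `p + a D + 1` is in a
fibre of `A'` with at least `D` elements, and `p ↦ p + a D + 1` is injective.

PROOF of `exists_good`. The same count: fewer than `2 ^ k` positions are not good.
-/

set_option autoImplicit false

namespace Pool.Agent.UCV

private lemma card_fin (M : ℕ) (P : ℕ → Prop) [DecidablePred P] :
    (Finset.univ.filter (fun p : Fin M => P (p : ℕ))).card = ((Finset.range M).filter P).card := by
  refine Finset.card_bij (fun p _ => (p : ℕ)) ?_ ?_ ?_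
  · intro p hp
    rw [Finset.mem_filter] at hp ⊢
    exact ⟨Finset.mem_range.2 p.2, hp.2⟩
  · intro p _ q _ h
    exact Fin.ext h
  · intro p hp
    rw [Finset.mem_filter, Finset.mem_range] at hp
    exact ⟨⟨p, hp.1⟩, Finset.mem_filter.2 ⟨Finset.mem_univ _, hp.2⟩, rfl⟩

private lemma few (M ℓ : ℕ) (hℓ : 0 < ℓ) (f : ℕ → ℕ) (V : Finset ℕ)
    (hV : ∀ v ∈ V, ℓ ≤ ((Finset.range M).filter (fun p => f p = v)).card) :
    V.card ≤ M / ℓ := by
  rw [Nat.le_div_iff_mul_le hℓ]
  calc V.card * ℓ = V.card • ℓ := by simp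
    _ ≤ ∑ v ∈ V, ((Finset.range M).filter (fun p => f p = v)).card :=
      Finset.card_nsmul_le_sum _ _ _ hV
    _ = ((Finset.range M).filter (fun p => f p ∈ V)).card :=
      Finset.sum_card_fiberwise_eq_card_filter _ _ _
    _ ≤ (Finset.range M).card := Finset.card_filter_le _ _
    _ = M := Finset.card_range M

private lemma stretch (M a b : ℕ) (f : ℕ → ℕ) (hf : ∀ i j, i ≤ j → j < M → f i ≤ f j)
    (_hab : a ≤ b) (hb : b < M) (h : f a = f b) :
    b + 1 - a ≤ ((Finset.range M).filter (fun p => f p = f a)).card := by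
  rw [← Nat.card_Icc]
  refine Finset.card_le_card ?_
  intro p hp
  rw [Finset.mem_Icc] at hp
  rw [Finset.mem_filter, Finset.mem_range]
  have h1 := hf a p hp.1 (by omega)
  have h2 := hf p b hp.2 hb
  exact ⟨by omega, by omega⟩

private lemma fibre (M i : ℕ) (f : ℕ → ℕ) (hf : ∀ i j, i ≤ j → j < M → f i ≤ f j) :
    ∃ l h : ℕ, h ≤ M ∧ h = l + ((Finset.range M).filter (fun p => f p = i)).card ∧
      ∀ p < M, (f p = i ↔ l ≤ p ∧ p < h) := by
  rcases ((Finset.range M).filter (fun p => f p = i)).eq_empty_or_nonempty with he | hne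
  · refine ⟨0, 0, Nat.zero_le _, by rw [he]; simp, ?_⟩
    intro p hp
    constructor
    · intro h
      have : p ∈ (Finset.range M).filter (fun p => f p = i) :=
        Finset.mem_filter.2 ⟨Finset.mem_range.2 hp, h⟩
      rw [he] at this
      exact absurd this (Finset.notMem_empty _)
    · rintro ⟨_, h⟩
      exact absurd h (Nat.not_lt_zero _)
  · set S := (Finset.range M).filter (fun p => f p = i) with hS
    have hab : S.min' hne ≤ S.max' hne := S.min'_le _ (S.max'_mem hne)
    have ha := Finset.mem_filter.1 (S.min'_mem hne)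
    have hb := Finset.mem_filter.1 (S.max'_mem hne)
    rw [Finset.mem_range] at ha hb
    have key : ∀ p < M, (f p = i ↔ S.min' hne ≤ p ∧ p < S.max' hne + 1) := by
      intro p hp
      constructor
      · intro h
        have hm : p ∈ S := Finset.mem_filter.2 ⟨Finset.mem_range.2 hp, h⟩
        exact ⟨S.min'_le _ hm, Nat.lt_succ_of_le (S.le_max' _ hm)⟩
      · rintro ⟨h1, h2⟩
        have h3 := hf _ _ h1 hp
        have h4 := hf p (S.max' hne) (by omega) hb.1
        rw [ha.2] at h3
        rw [hb.2] at h4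
        omega
    refine ⟨S.min' hne, S.max' hne + 1, by omega, ?_, key⟩
    have hmem : ∀ p, p ∈ S ↔ p < M ∧ f p = i := fun p => by
      rw [hS, Finset.mem_filter, Finset.mem_range]
    have hSI : S = Finset.Icc (S.min' hne) (S.max' hne) := by
      ext p
      rw [Finset.mem_Icc, hmem]
      constructor
      · rintro ⟨h1, h2⟩
        have := (key p h1).1 h2
        omega
      · rintro ⟨h1, h2⟩
        exact ⟨by omega, (key p (by omega)).2 ⟨h1, by omega⟩⟩
    have hc : S.card = S.max' hne + 1 - S.min' hne := by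
      conv_lhs => rw [hSI]
      rw [Nat.card_Icc]
    omega

/-- good positions -/
private def Gd (M B D : ℕ) (A A' : ℕ → ℕ) (J : ℕ → Prop) (p : ℕ) : Prop :=
  J (A p) ∧ p + B * D + 1 < M ∧ A (p + B * D + 1) = A p ∧
    ∀ a < B, A' (p + a * D + 1) ≠ A' (p + (a + 1) * D)

open Classical in
private lemma starts_card (M ℓ D B : ℕ) (hℓ : 0 < ℓ) (hD : 2 ≤ D) (A A' : ℕ → ℕ)
    (hA : ∀ i j, i ≤ j → j < M → A i ≤ A j) (hA' : ∀ i j, i ≤ j → j < M → A' i ≤ A' j)
    (J : ℕ → Prop)
    (hJ : ∀ i, J i → ℓ ≤ ((Finset.range M).filter (fun p => A p = i)).card) :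
    ((Finset.range M).filter (fun p => Gd M B D A A' J p ∧
      (p = 0 ∨ ¬ Gd M B D A A' J (p - 1)))).card ≤ M / ℓ + B * (M / D) := by
  set S1 := (Finset.range M).filter (fun p => J (A p) ∧ (p = 0 ∨ A (p - 1) ≠ A p)) with hS1
  set T : ℕ → Finset ℕ := fun a => (Finset.range M).filter (fun p =>
    p + (a + 1) * D < M ∧ A' (p + a * D) = A' (p + (a + 1) * D - 1) ∧
      A' (p + (a + 1) * D) ≠ A' (p + a * D)) with hT
  have hsub : (Finset.range M).filter (fun p => Gd M B D A A' J p ∧
      (p = 0 ∨ ¬ Gd M B D A A' J (p - 1))) ⊆ S1 ∪ (Finset.range B).biUnion T := by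
    intro p hp
    rw [Finset.mem_filter] at hp
    obtain ⟨hpM, hG, hs⟩ := hp
    rw [Finset.mem_union, Finset.mem_biUnion]
    by_cases h1 : p = 0 ∨ A (p - 1) ≠ A p
    · exact Or.inl (Finset.mem_filter.2 ⟨hpM, hG.1, h1⟩)
    · right
      push Not at h1
      obtain ⟨hp0, hAe⟩ := h1
      have hnG : ¬ Gd M B D A A' J (p - 1) := by
        rcases hs with h | h
        · exact absurd h hp0
        · exact h
      obtain ⟨g1, g2, g3, g4⟩ := hG
      have hlt : p - 1 + B * D + 1 < M := by omega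
      have h5 : A (p - 1 + B * D + 1) = A (p - 1) := by
        have e1 := hA (p - 1) (p - 1 + B * D + 1) (by omega) hlt
        have e2 := hA (p - 1 + B * D + 1) (p + B * D + 1) (by omega) g2
        omega
      have h6 : ∃ a < B, A' (p - 1 + a * D + 1) = A' (p - 1 + (a + 1) * D) := by
        by_contra hcon
        push Not at hcon
        exact hnG ⟨by rw [hAe]; exact g1, hlt, h5, hcon⟩
      obtain ⟨a, ha, hae⟩ := h6
      refine ⟨a, Finset.mem_range.2 ha, Finset.mem_filter.2 ⟨hpM, ?_, ?_, ?_⟩⟩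
      · have : (a + 1) * D ≤ B * D := Nat.mul_le_mul_right _ ha
        omega
      · have e1 : p - 1 + a * D + 1 = p + a * D := by omega
        have e2 : (a + 1) * D = a * D + D := by ring
        have e3 : p - 1 + (a + 1) * D = p + (a + 1) * D - 1 := by omega
        rw [e1, e3] at hae
        exact hae
      · have e1 : p - 1 + a * D + 1 = p + a * D := by omega
        have e2 : (a + 1) * D = a * D + D := by ring
        have e3 : p - 1 + (a + 1) * D = p + (a + 1) * D - 1 := by omega
        rw [e1, e3] at hae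
        have e4 : (a + 1) * D ≤ B * D := Nat.mul_le_mul_right _ ha
        have m1 := hA' (p + a * D) (p + a * D + 1) (by omega) (by omega)
        have m2 := hA' (p + a * D + 1) (p + (a + 1) * D - 1) (by omega) (by omega)
        have g5 := g4 a ha
        intro hcon
        apply g5
        omega
  have hc1 : S1.card ≤ M / ℓ := by
    have hinj : Set.InjOn A (S1 : Set ℕ) := by
      have hw : ∀ p q, p ∈ S1 → q ∈ S1 → p < q → A p ≠ A q := by
        intro p q hp hq hlt he
        rw [hS1, Finset.mem_filter, Finset.mem_range] at hp hq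
        obtain ⟨hqM, _, hq3⟩ := hq
        rcases hq3 with h | h
        · omega
        · have e1 := hA p (q - 1) (by omega) (by omega)
          have e2 := hA (q - 1) q (by omega) hqM
          omega
      intro p hp q hq he
      rcases lt_trichotomy p q with h | h | h
      · exact absurd he (hw p q hp hq h)
      · exact h
      · exact absurd he.symm (hw q p hq hp h)
    rw [← Finset.card_image_of_injOn hinj]
    refine few M ℓ hℓ A _ ?_
    intro v hv
    rw [Finset.mem_image] at hv
    obtain ⟨p, hp, rfl⟩ := hv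
    rw [hS1, Finset.mem_filter] at hp
    exact hJ _ hp.2.1
  have hc2 : ∀ a ∈ Finset.range B, (T a).card ≤ M / D := by
    intro a _
    have e0 : (a + 1) * D = a * D + D := by ring
    have hinj : Set.InjOn (fun p => A' (p + a * D)) (T a : Set ℕ) := by
      have hw : ∀ p q, p ∈ T a → q ∈ T a → p < q → A' (p + a * D) ≠ A' (q + a * D) := by
        intro p q hp hq hlt he
        simp only [hT] at hp hq
        rw [Finset.mem_filter, Finset.mem_range] at hp hq
        obtain ⟨_, p2, p3, p4⟩ := hp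
        obtain ⟨_, q2, q3, q4⟩ := hq
        have m1 := hA' (p + a * D) (p + (a + 1) * D) (by omega) p2
        have m2 := hA' (p + (a + 1) * D) (q + (a + 1) * D - 1) (by omega) (by omega)
        omega
      intro p hp q hq he
      rcases lt_trichotomy p q with h | h | h
      · exact absurd he (hw p q hp hq h)
      · exact h
      · exact absurd he.symm (hw q p hq hp h)
    rw [← Finset.card_image_of_injOn hinj]
    refine few M D (by omega) A' _ ?_
    intro v hv
    rw [Finset.mem_image] at hv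
    obtain ⟨p, hp, rfl⟩ := hv
    simp only [hT] at hp
    rw [Finset.mem_filter, Finset.mem_range] at hp
    obtain ⟨_, p2, p3, p4⟩ := hp
    have := stretch M (p + a * D) (p + (a + 1) * D - 1) A' hA' (by omega) (by omega) p3
    omega
  calc _ ≤ (S1 ∪ (Finset.range B).biUnion T).card := Finset.card_le_card hsub
    _ ≤ S1.card + ((Finset.range B).biUnion T).card := Finset.card_union_le _ _
    _ ≤ M / ℓ + (Finset.range B).card * (M / D) :=
      Nat.add_le_add hc1 (Finset.card_biUnion_le_card_mul _ _ _ hc2)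
    _ = M / ℓ + B * (M / D) := by rw [Finset.card_range]

/-- the positions with a long stretch -/
private lemma stretch_card (M D B : ℕ) (A' : ℕ → ℕ)
    (hA' : ∀ i j, i ≤ j → j < M → A' i ≤ A' j) (hD : 0 < D)
    [DecidablePred fun p : Fin M => (p : ℕ) + B * D + 1 < M ∧
      ∃ a < B, A' ((p : ℕ) + a * D + 1) = A' ((p : ℕ) + (a + 1) * D)] :
    (Finset.univ.filter (fun p : Fin M => (p : ℕ) + B * D + 1 < M ∧
      ∃ a < B, A' ((p : ℕ) + a * D + 1) = A' ((p : ℕ) + (a + 1) * D))).card ≤
    B * (Finset.univ.filter (fun p : Fin M =>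
        D ≤ (Finset.univ.filter (fun p' : Fin M => A' (p' : ℕ) = A' (p : ℕ))).card)).card := by
  classical
  set Wd := Finset.univ.filter (fun p : Fin M =>
        D ≤ (Finset.univ.filter (fun p' : Fin M => A' (p' : ℕ) = A' (p : ℕ))).card) with hWd
  set T : ℕ → Finset (Fin M) := fun a => Finset.univ.filter (fun p : Fin M =>
    (p : ℕ) + (a + 1) * D < M ∧ A' ((p : ℕ) + a * D + 1) = A' ((p : ℕ) + (a + 1) * D)) with hT
  have hsub : (Finset.univ.filter (fun p : Fin M => (p : ℕ) + B * D + 1 < M ∧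
      ∃ a < B, A' ((p : ℕ) + a * D + 1) = A' ((p : ℕ) + (a + 1) * D))) ⊆
      (Finset.range B).biUnion T := by
    intro p hp
    rw [Finset.mem_filter] at hp
    obtain ⟨_, h1, a, ha, h2⟩ := hp
    rw [Finset.mem_biUnion]
    refine ⟨a, Finset.mem_range.2 ha, Finset.mem_filter.2 ⟨Finset.mem_univ _, ?_, h2⟩⟩
    have : (a + 1) * D ≤ B * D := Nat.mul_le_mul_right _ ha
    omega
  have hc : ∀ a ∈ Finset.range B, (T a).card ≤ Wd.card := by
    intro a _
    have e0 : (a + 1) * D = a * D + D := by ring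
    have hlt : ∀ p ∈ T a, (p : ℕ) + a * D + 1 < M := by
      intro p hp
      simp only [hT] at hp
      rw [Finset.mem_filter] at hp
      omega
    refine Finset.card_le_card_of_injOn
      (fun p => if h : (p : ℕ) + a * D + 1 < M then ⟨(p : ℕ) + a * D + 1, h⟩ else p) ?_ ?_
    · intro p hp
      have hp' : p ∈ T a := hp
      have h1 := hlt p hp'
      simp only [hT] at hp'
      rw [Finset.mem_filter] at hp'
      obtain ⟨_, p2, p3⟩ := hp'
      show (if h : (p : ℕ) + a * D + 1 < M then (⟨(p : ℕ) + a * D + 1, h⟩ : Fin M) else p) ∈ Wd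
      rw [dif_pos h1, hWd, Finset.mem_filter]
      refine ⟨Finset.mem_univ _, ?_⟩
      rw [card_fin M (fun q => A' q = A' ((p : ℕ) + a * D + 1))]
      have := stretch M ((p : ℕ) + a * D + 1) ((p : ℕ) + (a + 1) * D) A' hA' (by omega) p2 p3
      omega
    · intro p hp q hq he
      have h1 := hlt p hp
      have h2 := hlt q hq
      simp only at he
      rw [dif_pos h1, dif_pos h2, Fin.mk.injEq] at he
      ext
      omega
  calc _ ≤ ((Finset.range B).biUnion T).card := Finset.card_le_card hsub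
    _ ≤ (Finset.range B).card * Wd.card := Finset.card_biUnion_le_card_mul _ _ _ hc
    _ = B * Wd.card := by rw [Finset.card_range]

private lemma ends_card (M B D : ℕ) :
    (Finset.univ.filter (fun p : Fin M => ¬ ((p : ℕ) + B * D + 1 < M))).card ≤ B * D + 1 := by
  rw [card_fin M (fun p => ¬ (p + B * D + 1 < M))]
  have hsub : (Finset.range M).filter (fun p => ¬ (p + B * D + 1 < M)) ⊆
      Finset.Ico (M - (B * D + 1)) M := by
    intro p hp
    rw [Finset.mem_filter, Finset.mem_range] at hp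
    rw [Finset.mem_Ico]
    omega
  have := Finset.card_le_card hsub
  rw [Nat.card_Ico] at this
  omega

open Classical in
private lemma good_aux (M D B : ℕ) (hD : 2 ≤ D) (A' : ℕ → ℕ)
    (hA' : ∀ i j, i ≤ j → j < M → A' i ≤ A' j)
    (h : B * (Finset.univ.filter (fun p : Fin M =>
        D ≤ (Finset.univ.filter (fun p' : Fin M => A' (p' : ℕ) = A' (p : ℕ))).card)).card +
      B * D + 1 < M) :
    ∃ p : Fin M, (p : ℕ) + B * D + 1 < M ∧
      ∀ a < B, A' ((p : ℕ) + a * D + 1) ≠ A' ((p : ℕ) + (a + 1) * D) := by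
  by_contra hcon
  push Not at hcon
  have hsub : (Finset.univ : Finset (Fin M)) ⊆
      (Finset.univ.filter (fun p : Fin M => (p : ℕ) + B * D + 1 < M ∧
        ∃ a < B, A' ((p : ℕ) + a * D + 1) = A' ((p : ℕ) + (a + 1) * D))) ∪
      (Finset.univ.filter (fun p : Fin M => ¬ ((p : ℕ) + B * D + 1 < M))) := by
    intro p _
    rw [Finset.mem_union, Finset.mem_filter, Finset.mem_filter]
    by_cases h1 : (p : ℕ) + B * D + 1 < M
    · exact Or.inl ⟨Finset.mem_univ _, h1, hcon p h1⟩
    · exact Or.inr ⟨Finset.mem_univ _, h1⟩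
  have h1 := Finset.card_le_card hsub
  rw [Finset.card_univ, Fintype.card_fin] at h1
  have h2 := Finset.card_union_le
    (Finset.univ.filter (fun p : Fin M => (p : ℕ) + B * D + 1 < M ∧
        ∃ a < B, A' ((p : ℕ) + a * D + 1) = A' ((p : ℕ) + (a + 1) * D)))
    (Finset.univ.filter (fun p : Fin M => ¬ ((p : ℕ) + B * D + 1 < M)))
  have h3 := stretch_card M D B A' hA' (by omega)
  have h4 := ends_card M B D
  omega

open Classical in
private lemma data_aux (M r ℓ μ D B : ℕ) (hr : 0 < r) (hℓ : 0 < ℓ) (hD : 2 ≤ D) (A A' : ℕ → ℕ)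
    (hA : ∀ i j, i ≤ j → j < M → A i ≤ A j) (hA' : ∀ i j, i ≤ j → j < M → A' i ≤ A' j)
    (hAr : ∀ i < M, A i < r) :
    ∃ (d : Fin (M / ℓ + B * (M / D)) → Fin r × Fin (M + 1) × Fin (M + 1))
      (I : Finset (Fin r)),
      (∀ s (p : ℕ), ((d s).2.1 : ℕ) ≤ p → p < ((d s).2.2 : ℕ) →
        (d s).1 ∈ I ∧ p + B * D + 1 < M ∧
        (∀ q, p ≤ q → q ≤ p + B * D + 1 → A q = ((d s).1 : ℕ)) ∧
        ∀ a < B, A' (p + a * D + 1) ≠ A' (p + (a + 1) * D)) ∧
      I.card ≤ M / ℓ ∧
      (∀ i, ∃ l h : ℕ, h ≤ l + μ ∧ ∀ s (p : ℕ), (d s).1 = i →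
        ((d s).2.1 : ℕ) ≤ p → p < ((d s).2.2 : ℕ) → l ≤ p ∧ p < h) ∧
      (Finset.univ.filter (fun p : Fin M =>
        ℓ ≤ (Finset.univ.filter (fun p' : Fin M => A (p' : ℕ) = A (p : ℕ))).card ∧
        (Finset.univ.filter (fun p' : Fin M => A (p' : ℕ) = A (p : ℕ))).card ≤ μ)).card ≤
      (Finset.univ.filter (fun p : Fin M => ∃ s, ((d s).2.1 : ℕ) ≤ (p : ℕ) ∧
        (p : ℕ) < ((d s).2.2 : ℕ))).card + (M / ℓ) * (B * D + 1) +
      B * (Finset.univ.filter (fun p : Fin M =>
        D ≤ (Finset.univ.filter (fun p' : Fin M =>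
          A' (p' : ℕ) = A' (p : ℕ))).card)).card := by
  set c : ℕ → ℕ := fun i => ((Finset.range M).filter (fun p => A p = i)).card with hc
  have hcF : ∀ i, (Finset.univ.filter (fun p' : Fin M => A (p' : ℕ) = i)).card = c i := by
    intro i
    rw [card_fin M (fun p => A p = i)]
  set J : ℕ → Prop := fun i => ℓ ≤ c i ∧ c i ≤ μ with hJ
  have hJℓ : ∀ i, J i → ℓ ≤ ((Finset.range M).filter (fun p => A p = i)).card := fun i hi => hi.1
  set I : Finset (Fin r) := Finset.univ.filter (fun i => J (i : ℕ)) with hI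
  have hIc : I.card ≤ M / ℓ := by
    rw [← Finset.card_map Fin.valEmbedding]
    refine few M ℓ hℓ A _ ?_
    intro v hv
    rw [Finset.mem_map] at hv
    obtain ⟨i, hi, rfl⟩ := hv
    rw [hI, Finset.mem_filter] at hi
    exact hJℓ _ hi.2
  set G : ℕ → Prop := Gd M B D A A' J with hG
  have hGM : ∀ p, G p → p + B * D + 1 < M := fun p hp => hp.2.1
  have hGs : ∀ p, G p → A (p + 1) = A p := by
    intro p hp
    obtain ⟨_, g2, g3, _⟩ := hp
    have e1 := hA p (p + 1) (by omega) (by omega)
    have e2 := hA (p + 1) (p + B * D + 1) (by omega) g2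
    omega
  set St := (Finset.range M).filter (fun p => G p ∧ (p = 0 ∨ ¬ G (p - 1))) with hSt
  have hStc : St.card ≤ M / ℓ + B * (M / D) :=
    starts_card M ℓ D B hℓ hD A A' hA hA' J hJℓ
  -- ends
  have hex : ∀ p, ∃ q, p ≤ q ∧ ¬ G q := fun p => ⟨max p M, le_max_left _ _, fun h => by
    have := hGM _ h
    have := le_max_right p M
    omega⟩
  set en : ℕ → ℕ := fun p => Nat.find (hex p) with hen
  have hen1 : ∀ p, p ≤ en p ∧ ¬ G (en p) := fun p => Nat.find_spec (hex p)
  have hen2 : ∀ p q, p ≤ q → q < en p → G q := by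
    intro p q h1 h2
    have := Nat.find_min (hex p) h2
    by_contra h3
    exact this ⟨h1, h3⟩
  have henM : ∀ p, p ≤ M → en p ≤ M := by
    intro p hp
    refine Nat.find_min' (hex p) ⟨hp, fun h => ?_⟩
    have := hGM _ h
    omega
  have henA : ∀ p q, p ≤ q → q < en p → A q = A p := by
    intro p q h1
    induction q, h1 using Nat.le_induction with
    | base => intro _; rfl
    | succ q hq ih =>
      intro h2
      have e1 := hGs q (hen2 p q hq (by omega))
      have e2 := ih (by omega)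
      omega
  have hstart : ∀ p, G p → ∃ p0 ∈ St, p0 ≤ p ∧ p < en p0 := by
    have hw : ∀ p, G p → ∃ p0 ∈ St, p0 ≤ p ∧ ∀ q, p0 ≤ q → q ≤ p → G q := by
      intro p
      induction p with
      | zero =>
        intro h
        refine ⟨0, ?_, le_refl _, ?_⟩
        · rw [hSt, Finset.mem_filter, Finset.mem_range]
          exact ⟨by have := hGM _ h; omega, h, Or.inl rfl⟩
        · intro q h1 h2
          have : q = 0 := by omega
          rw [this]
          exact h
      | succ p ih =>
        intro h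
        by_cases hp : G p
        · obtain ⟨p0, h0, h1, h2⟩ := ih hp
          refine ⟨p0, h0, by omega, ?_⟩
          intro q q1 q2
          rcases Nat.lt_or_ge p q with h3 | h3
          · have : q = p + 1 := by omega
            rw [this]
            exact h
          · exact h2 q q1 h3
        · refine ⟨p + 1, ?_, le_refl _, ?_⟩
          · rw [hSt, Finset.mem_filter, Finset.mem_range]
            exact ⟨by have := hGM _ h; omega, h, Or.inr (by simpa using hp)⟩
          · intro q q1 q2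
            have : q = p + 1 := by omega
            rw [this]
            exact h
    intro p hp
    obtain ⟨p0, h0, h1, h2⟩ := hw p hp
    refine ⟨p0, h0, h1, ?_⟩
    by_contra hcon
    exact (hen1 p0).2 (h2 _ (hen1 p0).1 (by omega))
  -- the list
  let dd : ℕ → Fin r × Fin (M + 1) × Fin (M + 1) := fun p =>
    if h : p ∈ St then
      (⟨A p, hAr p (Finset.mem_range.1 (Finset.mem_filter.1 h).1)⟩,
        ⟨p, by have := Finset.mem_range.1 (Finset.mem_filter.1 h).1; omega⟩,
        ⟨en p, by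
          have := henM p (by have := Finset.mem_range.1 (Finset.mem_filter.1 h).1; omega)
          omega⟩)
    else (⟨0, hr⟩, 0, 0)
  let d : Fin (M / ℓ + B * (M / D)) → Fin r × Fin (M + 1) × Fin (M + 1) := fun s =>
    if hs : (s : ℕ) < St.toList.length then dd (St.toList[(s : ℕ)]'hs) else (⟨0, hr⟩, 0, 0)
  have hdd : ∀ p0 ∈ St, ((dd p0).1 : ℕ) = A p0 ∧ ((dd p0).2.1 : ℕ) = p0 ∧
      ((dd p0).2.2 : ℕ) = en p0 := by
    intro p0 hp0
    simp only [dd]
    rw [dif_pos hp0]
    exact ⟨rfl, rfl, rfl⟩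
  have hd : ∀ s (p : ℕ), ((d s).2.1 : ℕ) ≤ p → p < ((d s).2.2 : ℕ) →
      ∃ p0 ∈ St, ((d s).1 : ℕ) = A p0 ∧ p0 ≤ p ∧ p < en p0 := by
    intro s p h1 h2
    by_cases hs : (s : ℕ) < St.toList.length
    · have hm : St.toList[(s : ℕ)]'hs ∈ St := by
        rw [← Finset.mem_toList]
        exact List.getElem_mem hs
      have e : d s = dd (St.toList[(s : ℕ)]'hs) := by
        simp only [d]
        rw [dif_pos hs]
      obtain ⟨a1, a2, a3⟩ := hdd _ hm
      rw [e] at h1 h2 ⊢
      rw [a2] at h1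
      rw [a3] at h2
      exact ⟨_, hm, a1, h1, h2⟩
    · have e : d s = (⟨0, hr⟩, 0, 0) := by
        simp only [d]
        rw [dif_neg hs]
      rw [e] at h2
      simp at h2
  have hd' : ∀ p0 ∈ St, ∃ s, ((d s).2.1 : ℕ) = p0 ∧ ((d s).2.2 : ℕ) = en p0 := by
    intro p0 hp0
    have h1 : p0 ∈ St.toList := Finset.mem_toList.2 hp0
    obtain ⟨i, hi, hie⟩ := List.mem_iff_getElem.1 h1
    have hlen : St.toList.length = St.card := Finset.length_toList _
    refine ⟨⟨i, by omega⟩, ?_⟩
    have e : d ⟨i, by omega⟩ = dd p0 := by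
      simp only [d]
      rw [dif_pos hi, hie]
    rw [e]
    simp only [dd]
    rw [dif_pos hp0]
    exact ⟨rfl, rfl⟩
  have hStG : ∀ p0 ∈ St, G p0 := fun p0 hp0 => (Finset.mem_filter.1 hp0).2.1
  refine ⟨d, I, ?_, hIc, ?_, ?_⟩
  · intro s p h1 h2
    obtain ⟨p0, hp0, e1, e2, e3⟩ := hd s p h1 h2
    have hGp := hen2 p0 p e2 e3
    have hAp := henA p0 p e2 e3
    obtain ⟨g1, g2, g3, g4⟩ := hGp
    refine ⟨?_, g2, ?_, g4⟩
    · rw [hI, Finset.mem_filter]
      refine ⟨Finset.mem_univ _, ?_⟩
      rw [e1, ← hAp]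
      exact g1
    · intro q q1 q2
      have m1 := hA p q q1 (by omega)
      have m2 := hA q (p + B * D + 1) q2 g2
      omega
  · intro i
    by_cases hi : J (i : ℕ)
    · obtain ⟨l, h, h1, h2, h3⟩ := fibre M (i : ℕ) A hA
      refine ⟨l, h, ?_, ?_⟩
      · have := hi.2
        simp only [hc] at this
        omega
      · intro s p e0 h4 h5
        obtain ⟨p0, hp0, e1, e2, e3⟩ := hd s p h4 h5
        have hAp := henA p0 p e2 e3
        have hGp := hGM p (hen2 p0 p e2 e3)
        rw [e0] at e1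
        exact (h3 p (by omega)).1 (by omega)
    · refine ⟨0, 0, by omega, ?_⟩
      intro s p e0 h4 h5
      obtain ⟨p0, hp0, e1, _, _⟩ := hd s p h4 h5
      rw [e0] at e1
      exact absurd (by rw [e1]; exact (hStG p0 hp0).1) hi
  · set Cov := Finset.univ.filter (fun p : Fin M => ∃ s, ((d s).2.1 : ℕ) ≤ (p : ℕ) ∧
        (p : ℕ) < ((d s).2.2 : ℕ)) with hCov
    set U1 := Finset.univ.filter (fun p : Fin M => J (A (p : ℕ)) ∧
      ¬ ((p : ℕ) + B * D + 1 < M ∧ A ((p : ℕ) + B * D + 1) = A (p : ℕ))) with hU1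
    set U2 := Finset.univ.filter (fun p : Fin M => (p : ℕ) + B * D + 1 < M ∧
      ∃ a < B, A' ((p : ℕ) + a * D + 1) = A' ((p : ℕ) + (a + 1) * D)) with hU2
    have hsub : (Finset.univ.filter (fun p : Fin M =>
        ℓ ≤ (Finset.univ.filter (fun p' : Fin M => A (p' : ℕ) = A (p : ℕ))).card ∧
        (Finset.univ.filter (fun p' : Fin M => A (p' : ℕ) = A (p : ℕ))).card ≤ μ)) ⊆
        Cov ∪ U1 ∪ U2 := by
      intro p hp
      rw [Finset.mem_filter, hcF] at hp
      have hpJ : J (A (p : ℕ)) := hp.2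
      rw [Finset.mem_union, Finset.mem_union]
      by_cases h1 : (p : ℕ) + B * D + 1 < M ∧ A ((p : ℕ) + B * D + 1) = A (p : ℕ)
      · by_cases h2 : ∃ a < B, A' ((p : ℕ) + a * D + 1) = A' ((p : ℕ) + (a + 1) * D)
        · exact Or.inr (Finset.mem_filter.2 ⟨Finset.mem_univ _, h1.1, h2⟩)
        · push Not at h2
          obtain ⟨p0, hp0, e1, e2⟩ := hstart (p : ℕ) ⟨hpJ, h1.1, h1.2, h2⟩
          obtain ⟨s, s1, s2⟩ := hd' p0 hp0
          exact Or.inl (Or.inl (Finset.mem_filter.2 ⟨Finset.mem_univ _, s, by omega, by omega⟩))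
      · exact Or.inl (Or.inr (Finset.mem_filter.2 ⟨Finset.mem_univ _, hpJ, h1⟩))
    have hU1c : U1.card ≤ (M / ℓ) * (B * D + 1) := by
      have h1 : (U1.image (fun p : Fin M => A (p : ℕ))).card ≤ M / ℓ := by
        refine few M ℓ hℓ A _ ?_
        intro v hv
        rw [Finset.mem_image] at hv
        obtain ⟨p, hp, rfl⟩ := hv
        rw [hU1, Finset.mem_filter] at hp
        exact hJℓ _ hp.2.1
      have h2 : U1.card ≤ (B * D + 1) * (U1.image (fun p : Fin M => A (p : ℕ))).card := by
        refine Finset.card_le_mul_card_image U1 (B * D + 1) ?_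
        intro i _
        obtain ⟨l, h, h3, _, h5⟩ := fibre M i A hA
        have hs : (U1.filter (fun p : Fin M => A (p : ℕ) = i)).card ≤
            (Finset.Ico (h - (B * D + 1)) h).card := by
          refine Finset.card_le_card_of_injOn (fun p => (p : ℕ)) ?_ ?_
          · intro p hp
            rw [Finset.mem_coe, Finset.mem_filter, hU1, Finset.mem_filter] at hp
            obtain ⟨⟨_, _, p3⟩, p4⟩ := hp
            show (p : ℕ) ∈ ((Finset.Ico (h - (B * D + 1)) h : Finset ℕ) : Set ℕ)
            rw [Finset.mem_coe, Finset.mem_Ico]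
            have p5 := (h5 p p.2).1 p4
            refine ⟨?_, p5.2⟩
            by_contra hcon
            apply p3
            have p6 : (p : ℕ) + B * D + 1 < M := by omega
            exact ⟨p6, by rw [p4]; exact (h5 _ p6).2 ⟨by omega, by omega⟩⟩
          · intro p _ q _ he
            exact Fin.ext he
        rw [Nat.card_Ico] at hs
        omega
      calc U1.card ≤ (B * D + 1) * (U1.image (fun p : Fin M => A (p : ℕ))).card := h2
        _ ≤ (B * D + 1) * (M / ℓ) := Nat.mul_le_mul_left _ h1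
        _ = (M / ℓ) * (B * D + 1) := Nat.mul_comm _ _
    have hU2c : U2.card ≤ B * (Finset.univ.filter (fun p : Fin M =>
        D ≤ (Finset.univ.filter (fun p' : Fin M =>
          A' (p' : ℕ) = A' (p : ℕ))).card)).card := by
      rw [hU2]
      convert stretch_card M D B A' hA' (by omega) using 3
    have h1 := Finset.card_le_card hsub
    have h2 := Finset.card_union_le (Cov ∪ U1) U2
    have h3 := Finset.card_union_le Cov U1
    refine h1.trans (h2.trans ?_)
    exact Nat.add_le_add (h3.trans (Nat.add_le_add_left hU1c _)) hU2c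

open Classical in
theorem exists_data (k r ℓ μ D B : ℕ) (hr : 0 < r) (hℓ : 0 < ℓ) (hD : 2 ≤ D) (A A' : ℕ → ℕ)
    (hA : ∀ i j, i ≤ j → j < 2 ^ k → A i ≤ A j) (hA' : ∀ i j, i ≤ j → j < 2 ^ k → A' i ≤ A' j)
    (hAr : ∀ i < 2 ^ k, A i < r) :
    ∃ (d : Fin (2 ^ k / ℓ + B * (2 ^ k / D)) → Fin r × Fin (2 ^ k + 1) × Fin (2 ^ k + 1))
      (I : Finset (Fin r)),
      (∀ s (p : ℕ), ((d s).2.1 : ℕ) ≤ p → p < ((d s).2.2 : ℕ) →
        (d s).1 ∈ I ∧ p + B * D + 1 < 2 ^ k ∧
        (∀ q, p ≤ q → q ≤ p + B * D + 1 → A q = ((d s).1 : ℕ)) ∧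
        ∀ a < B, A' (p + a * D + 1) ≠ A' (p + (a + 1) * D)) ∧
      I.card ≤ 2 ^ k / ℓ ∧
      (∀ i, ∃ l h : ℕ, h ≤ l + μ ∧ ∀ s (p : ℕ), (d s).1 = i →
        ((d s).2.1 : ℕ) ≤ p → p < ((d s).2.2 : ℕ) → l ≤ p ∧ p < h) ∧
      (Finset.univ.filter (fun p : Fin (2 ^ k) =>
        ℓ ≤ (Finset.univ.filter (fun p' : Fin (2 ^ k) => A (p' : ℕ) = A (p : ℕ))).card ∧
        (Finset.univ.filter (fun p' : Fin (2 ^ k) => A (p' : ℕ) = A (p : ℕ))).card ≤ μ)).card ≤
      (Finset.univ.filter (fun p : Fin (2 ^ k) => ∃ s, ((d s).2.1 : ℕ) ≤ (p : ℕ) ∧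
        (p : ℕ) < ((d s).2.2 : ℕ))).card + (2 ^ k / ℓ) * (B * D + 1) +
      B * (Finset.univ.filter (fun p : Fin (2 ^ k) =>
        D ≤ (Finset.univ.filter (fun p' : Fin (2 ^ k) =>
          A' (p' : ℕ) = A' (p : ℕ))).card)).card :=
  data_aux (2 ^ k) r ℓ μ D B hr hℓ hD A A' hA hA' hAr

open Classical in
theorem exists_good (k D B : ℕ) (hD : 2 ≤ D) (A' : ℕ → ℕ)
    (hA' : ∀ i j, i ≤ j → j < 2 ^ k → A' i ≤ A' j)
    (h : B * (Finset.univ.filter (fun p : Fin (2 ^ k) =>
        D ≤ (Finset.univ.filter (fun p' : Fin (2 ^ k) => A' (p' : ℕ) = A' (p : ℕ))).card)).card +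
      B * D + 1 < 2 ^ k) :
    ∃ p : Fin (2 ^ k), (p : ℕ) + B * D + 1 < 2 ^ k ∧
      ∀ a < B, A' ((p : ℕ) + a * D + 1) ≠ A' ((p : ℕ) + (a + 1) * D) :=
  good_aux (2 ^ k) D B hD A' hA' h

end Pool.Agent.UCV
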