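import Pool.Agent.UCV.Defs

/-!
# UCV Sep: the windows of the edges of one clique

PROOF. Let `w = F * B`. The edge number `h` of the clique `(g, p)` has the position
`w s + (B g + h)`, where `s = π g h p` and `B g + h < w` (`B g + h < B (g + 1) ≤ B F`). So if
`s + 1 < M` then `R (w s) ≤ rk (edge) < R (w (s + 1))` (`mono`; note `w (s + 1) < w M`), and
`R (w s) / L ≤ rk / L ≤ R (w (s + 1)) / L` for each `L`.
`sep`: the slots are `p + h D` or `σ p + h D` (no reduction mod `M` as `h D ≤ B D` and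
`p + B D + 1 < M`), so both bounds are `i` (or `j`). For the second part let the two edges be the
numbers `h ≠ h'` (if `h = h'` then the pairs are equal), with equal windows for `L'`. As
`L' ∣ L` they have equal windows for `L`, so (`i ≠ j`) both are in the same class. Say `h < h'` and
slots `p + h D`, `p + h' D`. Then `rk_h / L' ≤ A' (p + h D + 1)`, `A' (p + h' D) ≤ rk_h' / L'`
where `A' q = R (w q) / L'` is monotone (for `q < M`) and
`A' (p + h D + 1) < A' (p + (h + 1) D) ≤ A' (p + h' D)` by the hypothesis for `a = h` (`≤` holds by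
monotonicity as `D ≥ 1`). Contradiction.
`sep_top`: the same with one class.
-/

set_option autoImplicit false

namespace Pool.Agent.UCV

private theorem sep_mono {V : Type} {E : Finset (Sym2 V)} {rk : Sym2 V → ℕ} {M t B F : ℕ}
    {π : Fin F → Fin B → Equiv.Perm (Fin M)} {ce : Fin B → Fin t × Fin t}
    {Y : Fin F → Fin M → Fin t → V} {R : ℕ → ℕ} (hc : IsCopy E rk M t B F π ce Y R)
    {i j : ℕ} (hij : i ≤ j) (hj : j < F * B * M) : R i ≤ R j := by
  rcases Nat.lt_or_ge i j with h | h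
  · exact (hc.mono i j h hj).le
  · rw [le_antisymm hij h]

private theorem sep_slot {V : Type} {E : Finset (Sym2 V)} {rk : Sym2 V → ℕ} {M t B F : ℕ}
    {π : Fin F → Fin B → Equiv.Perm (Fin M)} {ce : Fin B → Fin t × Fin t}
    {Y : Fin F → Fin M → Fin t → V} {R : ℕ → ℕ} (hc : IsCopy E rk M t B F π ce Y R)
    (g : Fin F) (h : Fin B) (p : Fin M) {s : ℕ} (hs : (π g h p : ℕ) = s) (hsM : s + 1 < M) :
    R (F * B * s) ≤ rk s(Y g p (ce h).1, Y g p (ce h).2) ∧
      rk s(Y g p (ce h).1, Y g p (ce h).2) ≤ R (F * B * (s + 1)) := by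
  have hF : (g : ℕ) + 1 ≤ F := g.isLt
  have hB : (h : ℕ) + 1 ≤ B := h.isLt
  have hB0 : 0 < B := by omega
  have hF0 : 0 < F := by omega
  have hw : 0 < F * B := Nat.mul_pos hF0 hB0
  have hplace : B * (g : ℕ) + (h : ℕ) < F * B := by
    have h1 : B * ((g : ℕ) + 1) ≤ B * F := Nat.mul_le_mul_left B hF
    have h2 : B * ((g : ℕ) + 1) = B * (g : ℕ) + B := by ring
    have h3 : B * F = F * B := Nat.mul_comm B F
    omega
  have hlast : F * B * (s + 1) < F * B * M := Nat.mul_lt_mul_of_pos_left hsM hw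
  have hstep : F * B * (s + 1) = F * B * s + F * B := by ring
  rw [hc.R1 g h p, hs]
  constructor
  · exact sep_mono hc (Nat.le_add_right _ _) (by omega)
  · exact sep_mono hc (by omega) hlast

private theorem sep_aux {V : Type} {E : Finset (Sym2 V)} {rk : Sym2 V → ℕ} {M t B F : ℕ}
    {π : Fin F → Fin B → Equiv.Perm (Fin M)} {ce : Fin B → Fin t × Fin t}
    {Y : Fin F → Fin M → Fin t → V} {R : ℕ → ℕ} (hc : IsCopy E rk M t B F π ce Y R)
    (g : Fin F) (p : Fin M) {D L q : ℕ} (hD : 1 ≤ D) {h h' : Fin B}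
    (hh : (π g h p : ℕ) = q + (h : ℕ) * D) (hh' : (π g h' p : ℕ) = q + (h' : ℕ) * D)
    (h1 : q + B * D + 1 < M)
    (h3 : ∀ a < B, R (F * B * (q + a * D + 1)) / L ≠ R (F * B * (q + (a + 1) * D)) / L)
    (hlt : (h : ℕ) < (h' : ℕ)) :
    rk s(Y g p (ce h).1, Y g p (ce h).2) / L < rk s(Y g p (ce h').1, Y g p (ce h').2) / L := by
  have hF : (g : ℕ) + 1 ≤ F := g.isLt
  have hB : (h' : ℕ) + 1 ≤ B := h'.isLt
  have hw : 0 < F * B := Nat.mul_pos (by omega) (by omega)
  have e1 : ((h : ℕ) + 1) * D ≤ (h' : ℕ) * D := Nat.mul_le_mul_right D hlt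
  have e2 : ((h' : ℕ) + 1) * D ≤ B * D := Nat.mul_le_mul_right D hB
  have e3 : ((h : ℕ) + 1) * D = (h : ℕ) * D + D := by ring
  have e4 : ((h' : ℕ) + 1) * D = (h' : ℕ) * D + D := by ring
  have b1 := (sep_slot hc g h p hh (by omega)).2
  have b2 := (sep_slot hc g h' p hh' (by omega)).1
  have mle : ∀ x y : ℕ, x ≤ y → y < M → R (F * B * x) / L ≤ R (F * B * y) / L := by
    intro x y hxy hy
    exact Nat.div_le_div_right
      (sep_mono hc (Nat.mul_le_mul_left _ hxy) (Nat.mul_lt_mul_of_pos_left hy hw))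
  have c1 : rk s(Y g p (ce h).1, Y g p (ce h).2) / L ≤ R (F * B * (q + (h : ℕ) * D + 1)) / L :=
    Nat.div_le_div_right b1
  have c2 : R (F * B * (q + (h : ℕ) * D + 1)) / L < R (F * B * (q + ((h : ℕ) + 1) * D)) / L :=
    lt_of_le_of_ne (mle _ _ (by omega) (by omega)) (h3 h (by omega))
  have c3 : R (F * B * (q + ((h : ℕ) + 1) * D)) / L ≤ R (F * B * (q + (h' : ℕ) * D)) / L :=
    mle _ _ (by omega) (by omega)
  have c4 : R (F * B * (q + (h' : ℕ) * D)) / L ≤ rk s(Y g p (ce h').1, Y g p (ce h').2) / L :=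
    Nat.div_le_div_right b2
  exact lt_of_le_of_lt c1 (lt_of_lt_of_le c2 (le_trans c3 c4))

private theorem sep_ne {V : Type} {E : Finset (Sym2 V)} {rk : Sym2 V → ℕ} {M t B F : ℕ}
    {π : Fin F → Fin B → Equiv.Perm (Fin M)} {ce : Fin B → Fin t × Fin t}
    {Y : Fin F → Fin M → Fin t → V} {R : ℕ → ℕ} (hc : IsCopy E rk M t B F π ce Y R)
    (g : Fin F) (p : Fin M) {D L q : ℕ} (hD : 1 ≤ D) {h h' : Fin B}
    (hh : (π g h p : ℕ) = q + (h : ℕ) * D) (hh' : (π g h' p : ℕ) = q + (h' : ℕ) * D)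
    (h1 : q + B * D + 1 < M)
    (h3 : ∀ a < B, R (F * B * (q + a * D + 1)) / L ≠ R (F * B * (q + (a + 1) * D)) / L)
    (he : rk s(Y g p (ce h).1, Y g p (ce h).2) / L =
      rk s(Y g p (ce h').1, Y g p (ce h').2) / L) : h = h' := by
  rcases lt_trichotomy (h : ℕ) (h' : ℕ) with hlt | heq | hgt
  · exact absurd he (sep_aux hc g p hD hh hh' h1 h3 hlt).ne
  · exact Fin.ext heq
  · exact absurd he (sep_aux hc g p hD hh' hh h1 h3 hgt).ne'

private theorem sep_win {V : Type} {E : Finset (Sym2 V)} {rk : Sym2 V → ℕ} {M t B F : ℕ}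
    {π : Fin F → Fin B → Equiv.Perm (Fin M)} {ce : Fin B → Fin t × Fin t}
    {Y : Fin F → Fin M → Fin t → V} {R : ℕ → ℕ} (hc : IsCopy E rk M t B F π ce Y R)
    (g : Fin F) (p : Fin M) {D L q i : ℕ} {h : Fin B}
    (hh : (π g h p : ℕ) = q + (h : ℕ) * D) (h1 : q + B * D + 1 < M)
    (h2 : ∀ x, q ≤ x → x ≤ q + B * D + 1 → R (F * B * x) / L = i) :
    rk s(Y g p (ce h).1, Y g p (ce h).2) / L = i := by
  have e1 : (h : ℕ) * D ≤ B * D := Nat.mul_le_mul_right D h.isLt.le
  obtain ⟨b1, b2⟩ := sep_slot hc g h p hh (by omega)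
  have c1 := Nat.div_le_div_right (c := L) b1
  have c2 := Nat.div_le_div_right (c := L) b2
  rw [h2 _ (by omega) (by omega)] at c1
  rw [h2 _ (by omega) (by omega)] at c2
  exact le_antisymm c2 c1

private theorem sep_mod {M B D q : ℕ} (h : Fin B) (h1 : q + B * D + 1 < M) :
    (q + (h : ℕ) * D) % M = q + (h : ℕ) * D := by
  have e1 : (h : ℕ) * D ≤ B * D := Nat.mul_le_mul_right D h.isLt.le
  exact Nat.mod_eq_of_lt (by omega)

theorem sep {V : Type} (E : Finset (Sym2 V)) (rk : Sym2 V → ℕ) (M t B F : ℕ)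
    (π : Fin F → Fin B → Equiv.Perm (Fin M)) (ce : Fin B → Fin t × Fin t)
    (hce2 : ∀ a b : Fin t, a < b → ∃ h, ce h = (a, b))
    (Y : Fin F → Fin M → Fin t → V) (R : ℕ → ℕ) (hc : IsCopy E rk M t B F π ce Y R)
    (g : Fin F) (D L L' i j : ℕ) (hD : 1 ≤ D) (hLL : L' ∣ L)
    (cls : Fin t → Fin t → Bool) (hcls : ∀ a b, cls a b = cls b a) (σ : Equiv.Perm (Fin M))
    (hπ1 : ∀ (h : Fin B) p, cls (ce h).1 (ce h).2 = true →
      (π g h p : ℕ) = ((p : ℕ) + (h : ℕ) * D) % M)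
    (hπ2 : ∀ (h : Fin B) p, cls (ce h).1 (ce h).2 = false →
      (π g h p : ℕ) = ((σ p : ℕ) + (h : ℕ) * D) % M)
    (p : Fin M) (h1 : (p : ℕ) + B * D + 1 < M)
    (h2 : ∀ q, (p : ℕ) ≤ q → q ≤ (p : ℕ) + B * D + 1 → R (F * B * q) / L = i)
    (h3 : ∀ a < B, R (F * B * ((p : ℕ) + a * D + 1)) / L' ≠
      R (F * B * ((p : ℕ) + (a + 1) * D)) / L')
    (h4 : (σ p : ℕ) + B * D + 1 < M)
    (h5 : ∀ q, (σ p : ℕ) ≤ q → q ≤ (σ p : ℕ) + B * D + 1 → R (F * B * q) / L = j)
    (h6 : ∀ a < B, R (F * B * ((σ p : ℕ) + a * D + 1)) / L' ≠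
      R (F * B * ((σ p : ℕ) + (a + 1) * D)) / L') :
    (∀ a b : Fin t, a ≠ b →
      rk s(Y g p a, Y g p b) / L = if cls a b = true then i else j) ∧
    (i ≠ j → ∀ a b a' b' : Fin t, a < b → a' < b' →
      rk s(Y g p a, Y g p b) / L' = rk s(Y g p a', Y g p b') / L' → a = a' ∧ b = b') := by
  have key : ∀ (h : Fin B), rk s(Y g p (ce h).1, Y g p (ce h).2) / L =
      if cls (ce h).1 (ce h).2 = true then i else j := by
    intro h
    by_cases hcl : cls (ce h).1 (ce h).2 = true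
    · rw [if_pos hcl]
      have hh := hπ1 h p hcl
      rw [sep_mod h h1] at hh
      exact sep_win hc g p hh h1 h2
    · rw [if_neg hcl]
      have hh := hπ2 h p (by simpa using hcl)
      rw [sep_mod h h4] at hh
      exact sep_win hc g p hh h4 h5
  have part1 : ∀ a b : Fin t, a < b →
      rk s(Y g p a, Y g p b) / L = if cls a b = true then i else j := by
    intro a b hab
    obtain ⟨h, hh⟩ := hce2 a b hab
    have := key h
    rwa [hh] at this
  refine ⟨?_, ?_⟩
  · intro a b hab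
    rcases lt_or_gt_of_ne hab with h | h
    · exact part1 a b h
    · rw [Sym2.eq_swap, hcls a b]
      exact part1 b a h
  · intro hij a b a' b' hab hab' he
    obtain ⟨h, hh⟩ := hce2 a b hab
    obtain ⟨h', hh'⟩ := hce2 a' b' hab'
    have q1 := part1 a b hab
    have q2 := part1 a' b' hab'
    obtain ⟨c, rfl⟩ := hLL
    rw [← Nat.div_div_eq_div_mul, he, Nat.div_div_eq_div_mul] at q1
    rw [q1] at q2
    have he' : rk s(Y g p (ce h).1, Y g p (ce h).2) / L' =
        rk s(Y g p (ce h').1, Y g p (ce h').2) / L' := by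
      rw [hh, hh']
      exact he
    have hhh : h = h' := by
      by_cases c1 : cls a b = true
      · by_cases c2 : cls a' b' = true
        · have s1 := hπ1 h p (by rw [hh]; exact c1)
          have s2 := hπ1 h' p (by rw [hh']; exact c2)
          rw [sep_mod h h1] at s1
          rw [sep_mod h' h1] at s2
          exact sep_ne hc g p hD s1 s2 h1 h3 he'
        · rw [if_pos c1, if_neg c2] at q2
          exact absurd q2 hij
      · by_cases c2 : cls a' b' = true
        · rw [if_neg c1, if_pos c2] at q2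
          exact absurd q2.symm hij
        · have s1 := hπ2 h p (by rw [hh]; simpa using c1)
          have s2 := hπ2 h' p (by rw [hh']; simpa using c2)
          rw [sep_mod h h4] at s1
          rw [sep_mod h' h4] at s2
          exact sep_ne hc g p hD s1 s2 h4 h6 he'
    subst hhh
    rw [hh] at hh'
    exact Prod.mk.inj hh'

theorem sep_top {V : Type} (E : Finset (Sym2 V)) (rk : Sym2 V → ℕ) (M t B F : ℕ)
    (π : Fin F → Fin B → Equiv.Perm (Fin M)) (ce : Fin B → Fin t × Fin t)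
    (hce2 : ∀ a b : Fin t, a < b → ∃ h, ce h = (a, b))
    (Y : Fin F → Fin M → Fin t → V) (R : ℕ → ℕ) (hc : IsCopy E rk M t B F π ce Y R)
    (g : Fin F) (D L : ℕ) (hD : 1 ≤ D)
    (hπ : ∀ (h : Fin B) p, (π g h p : ℕ) = ((p : ℕ) + (h : ℕ) * D) % M)
    (p : Fin M) (h1 : (p : ℕ) + B * D + 1 < M)
    (h3 : ∀ a < B, R (F * B * ((p : ℕ) + a * D + 1)) / L ≠
      R (F * B * ((p : ℕ) + (a + 1) * D)) / L) :
    ∀ a b a' b' : Fin t, a < b → a' < b' →
      rk s(Y g p a, Y g p b) / L = rk s(Y g p a', Y g p b') / L → a = a' ∧ b = b' := by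
  intro a b a' b' hab hab' he
  obtain ⟨h, hh⟩ := hce2 a b hab
  obtain ⟨h', hh'⟩ := hce2 a' b' hab'
  have he' : rk s(Y g p (ce h).1, Y g p (ce h).2) / L =
      rk s(Y g p (ce h').1, Y g p (ce h').2) / L := by
    rw [hh, hh']
    exact he
  have s1 := hπ h p
  have s2 := hπ h' p
  rw [sep_mod h h1] at s1
  rw [sep_mod h' h1] at s2
  have hhh := sep_ne hc g p hD s1 s2 h1 h3 he'
  subst hhh
  rw [hh] at hh'
  exact Prod.mk.inj hh'

end Pool.Agent.UCV
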