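import Pool.Agent.UCT.Data
import Pool.Agent.UCV.Data
import Pool.Agent.UCV.Sep

/-!
# UCV Kill: few positions of a copy are in windows of the sizes in question
-/

set_option autoImplicit false

namespace Pool.Agent.UCV

open Pool.Agent.UCR

open Classical in
theorem diag {M r x : ℕ} (d : Fin x → Fin r × Fin (M + 1) × Fin (M + 1))
    (σ : Equiv.Perm (Fin M)) (I : Finset (Fin r))
    (hI : ∀ s (p : ℕ), ((d s).2.1 : ℕ) ≤ p → p < ((d s).2.2 : ℕ) → (d s).1 ∈ I)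
    (w : ℝ) (hw : ∀ T, (wt d d σ T : ℝ) ≤ w) :
    ((Finset.univ.filter (fun p => ∃ i, Cnt d d σ p i i)).card : ℝ) ≤ I.card * w := by
  have hsub : (Finset.univ.filter (fun p => ∃ i, Cnt d d σ p i i)) ⊆
      I.biUnion (fun i => Finset.univ.filter (fun p => Cnt d d σ p i i)) := by
    intro p hp
    obtain ⟨i, hi⟩ := (Finset.mem_filter.mp hp).2
    obtain ⟨s, hs1, hs2, hs3⟩ := hi.1
    refine Finset.mem_biUnion.mpr ⟨i, ?_, Finset.mem_filter.mpr ⟨Finset.mem_univ _, hi⟩⟩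
    rw [← hs1]
    exact hI s p hs2 hs3
  have h1 := (Finset.card_le_card hsub).trans Finset.card_biUnion_le
  have h2 : ((Finset.univ.filter (fun p => ∃ i, Cnt d d σ p i i)).card : ℝ) ≤
      ∑ i ∈ I, ((Finset.univ.filter (fun p => Cnt d d σ p i i)).card : ℝ) := by
    exact_mod_cast h1
  refine h2.trans ?_
  rw [← nsmul_eq_mul]
  exact Finset.sum_le_card_nsmul _ _ _ (fun i _ => hw (i, i))

/-- slots and windows are monotone -/
theorem win_mono {V : Type} {E : Finset (Sym2 V)} {rk : Sym2 V → ℕ} {M t B F : ℕ}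
    {π : Fin F → Fin B → Equiv.Perm (Fin M)} {ce : Fin B → Fin t × Fin t}
    {Y : Fin F → Fin M → Fin t → V} {R : ℕ → ℕ} (hc : IsCopy E rk M t B F π ce Y R)
    (hF : 0 < F) (hB : 0 < B) (L i j : ℕ) (hij : i ≤ j) (hj : j < M) :
    R (F * B * i) / L ≤ R (F * B * j) / L := by
  apply Nat.div_le_div_right
  rcases Nat.lt_or_eq_of_le hij with h | h
  · exact (hc.mono _ _ (Nat.mul_lt_mul_of_pos_left h (by positivity))
      (Nat.mul_lt_mul_of_pos_left hj (by positivity))).le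
  · rw [h]

theorem slot_lt {V : Type} {E : Finset (Sym2 V)} {rk : Sym2 V → ℕ} {M t B F : ℕ}
    {π : Fin F → Fin B → Equiv.Perm (Fin M)} {ce : Fin B → Fin t × Fin t}
    {Y : Fin F → Fin M → Fin t → V} {R : ℕ → ℕ} (hc : IsCopy E rk M t B F π ce Y R)
    (hce1 : ∀ h, (ce h).1 < (ce h).2) (hF : 0 < F) (hB : 0 < B) (m : ℕ)
    (hrk : ∀ e ∈ E, rk e < m) (i : ℕ) (hi : i < M) : R (F * B * i) < m := by
  have h1 := hc.R1 ⟨0, hF⟩ ⟨0, hB⟩ ((π ⟨0, hF⟩ ⟨0, hB⟩).symm ⟨i, hi⟩)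
  rw [Equiv.apply_symm_apply] at h1
  simp only [Nat.mul_zero, Nat.add_zero] at h1
  rw [← h1]
  exact hrk _ (hc.YE _ _ _ _ (hce1 _).ne)

open Classical in
theorem kill {V : Type} (E : Finset (Sym2 V)) (rk : Sym2 V → ℕ) (m : ℕ) (hm0 : 0 < m)
    (hrk : ∀ e ∈ E, rk e < m) (k t B F Fz Fs b T2 ℓ μ D : ℕ)
    (π : Fin F → Fin B → Equiv.Perm (Fin (2 ^ k))) (σ : Fin Fs → Equiv.Perm (Fin (2 ^ k)))
    (hσ : ∀ f, UCT.Mixing2 k (σ f))
    (hexp : ∀ S : Finset (Fin (2 ^ k)), T2 ≤ S.card →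
      ∃ f, 2 ^ k ≤ Fz * (S.filter (fun p => σ f p ∈ S)).card)
    (ce : Fin B → Fin t × Fin t) (hce1 : ∀ h, (ce h).1 < (ce h).2)
    (hce2 : ∀ a b : Fin t, a < b → ∃ h, ce h = (a, b))
    (cls : Fin t → Fin t → Bool) (hcls : ∀ a b, cls a b = cls b a)
    (hF : 0 < F) (hB : 0 < B) (hFz : 0 < Fz) (hℓ : 0 < ℓ) (hD : 2 ≤ D)
    (ty : Fin Fs → Fin F)
    (hπ1 : ∀ f (h : Fin B) p, cls (ce h).1 (ce h).2 = true →
      (π (ty f) h p : ℕ) = ((p : ℕ) + (h : ℕ) * D) % 2 ^ k)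
    (hπ2 : ∀ f (h : Fin B) p, cls (ce h).1 (ce h).2 = false →
      (π (ty f) h p : ℕ) = ((σ f p : ℕ) + (h : ℕ) * D) % 2 ^ k)
    (Y : Fin F → Fin (2 ^ k) → Fin t → V) (R : ℕ → ℕ)
    (hc : IsCopy E rk (2 ^ k) t B F π ce Y R) (j : ℕ)
    (hkill : ∀ (f : Fin Fs)
        (d : Fin (2 ^ k / ℓ + B * (2 ^ k / D)) → Fin m × Fin (2 ^ k + 1) × Fin (2 ^ k + 1)),
        (∀ T, (wt d d (σ f) T : ℝ) ≤ 2 * (μ : ℝ) ^ 2 / 2 ^ k + 8) →
        (∀ p i i', Cnt d d (σ f) p i i' → Function.Injective (Y (ty f) p) ∧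
          (∀ a a', a ≠ a' → s(Y (ty f) p a, Y (ty f) p a') ∈ E) ∧
          (∀ a a', a ≠ a' →
            rk s(Y (ty f) p a, Y (ty f) p a') / b ^ j =
              if cls a a' = true then (i : ℕ) else (i' : ℕ)) ∧
          (i ≠ i' → ∀ a a' c c' : Fin t, a < a' → c < c' →
            rk s(Y (ty f) p a, Y (ty f) p a') / b ^ (j - 1) =
              rk s(Y (ty f) p c, Y (ty f) p c') / b ^ (j - 1) → a = c ∧ a' = c')) →
        (2 : ℝ) ^ k / Fz ≤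
          ((Finset.univ.filter (fun p => ∃ i i', Cnt d d (σ f) p i i')).card : ℝ) →
        ((Finset.univ.filter (fun p => ∃ i, Cnt d d (σ f) p i i)).card : ℝ) ≤
          ((2 ^ k / ℓ : ℕ) : ℝ) * (2 * (μ : ℝ) ^ 2 / 2 ^ k + 8) → False) :
    (Finset.univ.filter (fun p : Fin (2 ^ k) =>
      ℓ ≤ (Finset.univ.filter (fun p' : Fin (2 ^ k) =>
        R (F * B * (p' : ℕ)) / b ^ j = R (F * B * (p : ℕ)) / b ^ j)).card ∧
      (Finset.univ.filter (fun p' : Fin (2 ^ k) =>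
        R (F * B * (p' : ℕ)) / b ^ j = R (F * B * (p : ℕ)) / b ^ j)).card ≤ μ)).card ≤
    T2 + (2 ^ k / ℓ) * (B * D + 1) + B * (Finset.univ.filter (fun p : Fin (2 ^ k) =>
      D ≤ (Finset.univ.filter (fun p' : Fin (2 ^ k) =>
        R (F * B * (p' : ℕ)) / b ^ (j - 1) = R (F * B * (p : ℕ)) / b ^ (j - 1))).card)).card := by
  obtain ⟨d, I, hd1, hI, hd2, hd3⟩ := exists_data k m ℓ μ D B hm0 hℓ hD
    (fun q => R (F * B * q) / b ^ j) (fun q => R (F * B * q) / b ^ (j - 1))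
    (fun i i' h1 h2 => win_mono hc hF hB _ i i' h1 h2)
    (fun i i' h1 h2 => win_mono hc hF hB _ i i' h1 h2)
    (fun i hi => lt_of_le_of_lt (Nat.div_le_self _ _) (slot_lt hc hce1 hF hB m hrk i hi))
  refine hd3.trans (Nat.add_le_add_right (Nat.add_le_add_right ?_ _) _)
  by_contra hlt
  push Not at hlt
  set S : Finset (Fin (2 ^ k)) := Finset.univ.filter (fun p : Fin (2 ^ k) =>
    ∃ s, ((d s).2.1 : ℕ) ≤ (p : ℕ) ∧ (p : ℕ) < ((d s).2.2 : ℕ)) with hS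
  obtain ⟨f, hf⟩ := hexp S hlt.le
  have hSC : S.filter (fun p => σ f p ∈ S) =
      Finset.univ.filter (fun p => ∃ i j', Cnt d d (σ f) p i j') := by
    ext p
    rw [Finset.mem_filter, hS, Finset.mem_filter, Finset.mem_filter, Finset.mem_filter]
    constructor
    · rintro ⟨⟨_, s, h1, h2⟩, _, s', h3, h4⟩
      exact ⟨Finset.mem_univ _, (d s).1, (d s').1, ⟨s, rfl, h1, h2⟩, ⟨s', rfl, h3, h4⟩⟩
    · rintro ⟨_, i, j', ⟨s, _, h1, h2⟩, s', _, h3, h4⟩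
      exact ⟨⟨Finset.mem_univ _, s, h1, h2⟩, Finset.mem_univ _, s', h3, h4⟩
  have hwt := UCT.wt_le k m _ μ (σ f) (hσ f) d (fun i => by
    obtain ⟨l, h, h1, h2⟩ := hd2 i
    exact ⟨l, h, h1, fun s p h3 h4 h5 => h2 s p h3 h4 h5⟩)
  refine hkill f d hwt ?_ ?_ ?_
  · rintro p i i' ⟨⟨s, hs1, hs2, hs3⟩, s', hs1', hs2', hs3'⟩
    obtain ⟨_, e1, e2, e3⟩ := hd1 s p hs2 hs3
    obtain ⟨_, e1', e2', e3'⟩ := hd1 s' (σ f p) hs2' hs3'
    rw [hs1] at e2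
    rw [hs1'] at e2'
    have hdvd : b ^ (j - 1) ∣ b ^ j := pow_dvd_pow _ (Nat.sub_le _ _)
    obtain ⟨g1, g2⟩ := sep E rk (2 ^ k) t B F π ce hce2 Y R hc (ty f) D (b ^ j) (b ^ (j - 1))
      i i' (by omega) hdvd cls hcls (σ f) (hπ1 f) (hπ2 f) p e1 e2 e3 e1' e2' e3'
    exact ⟨hc.Yinj _ _, hc.YE _ _, g1, fun hne => g2 (fun h => hne (Fin.ext h))⟩
  · rw [← hSC, div_le_iff₀ (by exact_mod_cast hFz)]
    have : ((2 ^ k : ℕ) : ℝ) ≤ ((Fz * (S.filter (fun p => σ f p ∈ S)).card : ℕ) : ℝ) := by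
      exact_mod_cast hf
    push_cast at this
    linarith
  · refine (diag d (σ f) I (fun s p h1 h2 => (hd1 s p h1 h2).1) _ hwt).trans ?_
    exact mul_le_mul_of_nonneg_right (by exact_mod_cast hI) (by positivity)

end Pool.Agent.UCV
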