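import Mathlib

/-!
# UCV Profile: most positions of a copy have small fibres at all levels
-/

set_option autoImplicit false

namespace Pool.Agent.UCV

open Classical in
private theorem bad_bound (M b yy ZZ : ℕ) (A A' : Fin M → ℕ)
    (hAA : ∀ v, ((Finset.univ.filter (fun p => A' p = v)).image A).card ≤ b) :
    ZZ * (Finset.univ.filter (fun p =>
      ZZ < (Finset.univ.filter (fun p' => A' p' = A' p)).card ∧
      (Finset.univ.filter (fun p' => A p' = A p)).card ≤ yy)).card ≤ M * (b * yy) := by
  set bad := Finset.univ.filter (fun p =>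
      ZZ < (Finset.univ.filter (fun p' => A' p' = A' p)).card ∧
      (Finset.univ.filter (fun p' => A p' = A p)).card ≤ yy) with hbad
  -- the values of `A'` on `bad`
  have h1 : bad.card ≤ (b * yy) * (bad.image A').card := by
    refine Finset.card_le_mul_card_image_of_maps_to
      (fun p hp => Finset.mem_image_of_mem A' hp) _ ?_
    intro v _
    have h2 : (bad.filter (fun p => A' p = v)).card ≤
        yy * ((Finset.univ.filter (fun p => A' p = v)).image A).card := by
      refine Finset.card_le_mul_card_image_of_maps_to (f := A) ?_ _ ?_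
      · intro p hp
        rw [Finset.mem_filter] at hp
        exact Finset.mem_image_of_mem A (Finset.mem_filter.2 ⟨Finset.mem_univ _, hp.2⟩)
      · intro u _
        by_cases hne : ((bad.filter (fun p => A' p = v)).filter (fun p => A p = u)).Nonempty
        · obtain ⟨q, hq⟩ := hne
          rw [Finset.mem_filter, Finset.mem_filter, hbad, Finset.mem_filter] at hq
          have h3 : ((bad.filter (fun p => A' p = v)).filter (fun p => A p = u)).card ≤
              (Finset.univ.filter (fun p' => A p' = A q)).card := by
            refine Finset.card_le_card ?_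
            intro p hp
            rw [Finset.mem_filter] at hp
            rw [Finset.mem_filter]
            exact ⟨Finset.mem_univ _, by rw [hp.2, hq.2]⟩
          exact h3.trans hq.1.1.2.2
        · rw [Finset.not_nonempty_iff_eq_empty] at hne
          rw [hne, Finset.card_empty]
          exact Nat.zero_le _
    calc (bad.filter (fun p => A' p = v)).card
        ≤ yy * ((Finset.univ.filter (fun p => A' p = v)).image A).card := h2
      _ ≤ yy * b := Nat.mul_le_mul le_rfl (hAA v)
      _ = b * yy := Nat.mul_comm _ _
  have h4 : ZZ * (bad.image A').card ≤ M := by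
    have h5 : ∀ v ∈ bad.image A', ZZ ≤ (Finset.univ.filter (fun p' => A' p' = v)).card := by
      intro v hv
      rw [Finset.mem_image] at hv
      obtain ⟨q, hq, rfl⟩ := hv
      rw [hbad, Finset.mem_filter] at hq
      exact hq.2.1.le
    have h6 : (bad.image A').card * ZZ ≤
        ∑ v ∈ bad.image A', (Finset.univ.filter (fun p' => A' p' = v)).card := by
      rw [← smul_eq_mul]
      exact Finset.card_nsmul_le_sum _ _ _ h5
    have h7 : ∑ v ∈ bad.image A', (Finset.univ.filter (fun p' : Fin M => A' p' = v)).card ≤
        (Finset.univ : Finset (Fin M)).card := by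
      have h8 := Finset.card_eq_sum_card_fiberwise (f := A')
        (s := Finset.univ.filter (fun p : Fin M => A' p ∈ bad.image A')) (t := bad.image A')
        (by
          intro p hp
          rw [Finset.mem_coe, Finset.mem_filter] at hp
          exact hp.2)
      have h9 : ∀ v ∈ bad.image A', (Finset.univ.filter (fun p' : Fin M => A' p' = v)).card =
          ((Finset.univ.filter (fun p : Fin M => A' p ∈ bad.image A')).filter
            (fun p => A' p = v)).card := by
        intro v hv
        congr 1
        ext p
        simp only [Finset.mem_filter, Finset.mem_univ, true_and]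
        constructor
        · intro h
          exact ⟨h ▸ hv, h⟩
        · intro h
          exact h.2
      rw [Finset.sum_congr rfl h9, ← h8]
      exact Finset.card_le_card (Finset.filter_subset _ _)
    rw [Finset.card_univ, Fintype.card_fin] at h7
    calc ZZ * (bad.image A').card = (bad.image A').card * ZZ := Nat.mul_comm _ _
      _ ≤ _ := h6
      _ ≤ M := h7
  calc ZZ * bad.card ≤ ZZ * ((b * yy) * (bad.image A').card) := Nat.mul_le_mul le_rfl h1
    _ = (ZZ * (bad.image A').card) * (b * yy) := by ring
    _ ≤ M * (b * yy) := Nat.mul_le_mul h4 le_rfl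

open Classical in
/-- few positions in small fibres of the finer function are in very large fibres -/
theorem grow (M b U V : ℕ) (A A' : Fin M → ℕ) (hb : 0 < b) (hU : 0 < U)
    (hAA : ∀ v, ((Finset.univ.filter (fun p => A' p = v)).image A).card ≤ b) :
    V * (Finset.univ.filter (fun p =>
      b * V * U < (Finset.univ.filter (fun p' => A' p' = A' p)).card ∧
      (Finset.univ.filter (fun p' => A p' = A p)).card ≤ U)).card ≤ M := by
  have h := bad_bound M b U (b * V * U) A A' hAA
  refine Nat.le_of_mul_le_mul_right (c := b * U) ?_ (Nat.mul_pos hb hU)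
  refine le_trans (le_of_eq ?_) h
  ring

open Classical in
/-- `ν j p` size of the fibre of level `j` through `p` -/
theorem profile (M B J V E : ℕ) (ν : ℕ → Fin M → ℕ) (U μ D : ℕ → ℕ)
    (h0 : ∀ p, ν 0 p ≤ U 0)
    (hgrow : ∀ j < J, V * (Finset.univ.filter (fun p => μ j < ν (j + 1) p ∧ ν j p ≤ U j)).card
      ≤ M) (hV : 0 < V) (hE : M / V ≤ E)
    (hstep : ∀ j < J, μ j ≤ U (j + 1) ∨ (U j < D (j + 1) ∧
      (Finset.univ.filter (fun p => U (j + 1) + 1 ≤ ν (j + 1) p ∧ ν (j + 1) p ≤ μ j)).card +
        M / V ≤ E + B * (Finset.univ.filter (fun p => D (j + 1) ≤ ν j p)).card)) :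
    ∀ j ≤ J, (Finset.univ.filter (fun p => ∃ i ≤ j, U i < ν i p)).card ≤
      j * (B + 2) ^ j * E := by
  intro j
  induction j with
  | zero =>
    intro _
    rw [Nat.zero_mul, Nat.zero_mul]
    apply le_of_eq
    rw [Finset.card_eq_zero, Finset.filter_eq_empty_iff]
    rintro p _ ⟨i, hi, hlt⟩
    have hi0 : i = 0 := by omega
    subst hi0
    exact absurd (h0 p) (by omega)
  | succ j ih =>
    intro hj
    have ih' := ih (by omega)
    have hg : (Finset.univ.filter (fun p => μ j < ν (j + 1) p ∧ ν j p ≤ U j)).card ≤ M / V := by
      rw [Nat.le_div_iff_mul_le hV, mul_comm]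
      exact hgrow j (by omega)
    -- the new positions
    have hsub : (Finset.univ.filter (fun p => ∃ i ≤ j + 1, U i < ν i p)).card ≤
        (Finset.univ.filter (fun p => ∃ i ≤ j, U i < ν i p)).card +
        ((Finset.univ.filter (fun p => μ j < ν (j + 1) p ∧ ν j p ≤ U j)).card +
          (Finset.univ.filter (fun p => U (j + 1) + 1 ≤ ν (j + 1) p ∧
            ν (j + 1) p ≤ μ j)).card) := by
      refine (Finset.card_le_card ?_).trans ((Finset.card_union_le _ _).trans
        (Nat.add_le_add_left (Finset.card_union_le _ _) _))
      intro p hp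
      obtain ⟨i, hi, hlt⟩ := (Finset.mem_filter.mp hp).2
      rw [Finset.mem_union, Finset.mem_union, Finset.mem_filter, Finset.mem_filter,
        Finset.mem_filter]
      by_cases h1 : ∃ i ≤ j, U i < ν i p
      · exact Or.inl ⟨Finset.mem_univ _, h1⟩
      · push Not at h1
        have hij : i = j + 1 := by
          by_contra hne
          exact absurd (h1 i (by omega)) (by omega)
        subst hij
        rcases Nat.lt_or_ge (μ j) (ν (j + 1) p) with h2 | h2
        · exact Or.inr (Or.inl ⟨Finset.mem_univ _, h2, h1 j le_rfl⟩)
        · exact Or.inr (Or.inr ⟨Finset.mem_univ _, hlt, h2⟩)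
    have hD : (Finset.univ.filter (fun p => ∃ i ≤ j + 1, U i < ν i p)).card ≤
        (B + 1) * (Finset.univ.filter (fun p => ∃ i ≤ j, U i < ν i p)).card + E := by
      rcases hstep j (by omega) with h1 | ⟨h1, h2⟩
      · have h3 : Finset.univ.filter (fun p => U (j + 1) + 1 ≤ ν (j + 1) p ∧
            ν (j + 1) p ≤ μ j) = ∅ := by
          rw [Finset.filter_eq_empty_iff]
          intro p _
          omega
        rw [h3, Finset.card_empty] at hsub
        have h4 : (Finset.univ.filter (fun p => ∃ i ≤ j, U i < ν i p)).card ≤
            (B + 1) * (Finset.univ.filter (fun p => ∃ i ≤ j, U i < ν i p)).card :=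
          Nat.le_mul_of_pos_left _ (by omega)
        omega
      · have h3 : (Finset.univ.filter (fun p => D (j + 1) ≤ ν j p)).card ≤
            (Finset.univ.filter (fun p => ∃ i ≤ j, U i < ν i p)).card := by
          apply Finset.card_le_card
          intro p hp
          rw [Finset.mem_filter] at hp ⊢
          exact ⟨hp.1, j, le_rfl, lt_of_lt_of_le h1 hp.2⟩
        have h4 := Nat.mul_le_mul_left B h3
        have h5 : (B + 1) * (Finset.univ.filter (fun p => ∃ i ≤ j, U i < ν i p)).card =
          B * (Finset.univ.filter (fun p => ∃ i ≤ j, U i < ν i p)).card +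
            (Finset.univ.filter (fun p => ∃ i ≤ j, U i < ν i p)).card := by ring
        omega
    refine hD.trans ?_
    have hp1 : 1 ≤ (B + 2) ^ j := Nat.one_le_pow _ _ (by omega)
    calc (B + 1) * (Finset.univ.filter (fun p => ∃ i ≤ j, U i < ν i p)).card + E
        ≤ (B + 2) * (j * (B + 2) ^ j * E) + E := by
          exact Nat.add_le_add_right (Nat.mul_le_mul (by omega) ih') _
      _ ≤ (B + 2) * (j * (B + 2) ^ j * E) + (B + 2) ^ (j + 1) * E := by
          apply Nat.add_le_add_left
          exact Nat.le_mul_of_pos_left _ (by positivity)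
      _ = (j + 1) * (B + 2) ^ (j + 1) * E := by ring

end Pool.Agent.UCV
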