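import Pool.Agent.UCV.Transfer
import Pool.Agent.UCV.Kill
import Pool.Agent.UCV.Profile

/-!
# UCV Copy: copies of the designed graph, and the windows of their slots
-/

set_option autoImplicit false

namespace Pool.Agent.UCV

open Pool.Agent.UCR

/-- `φ` is a copy of the graph `H`, ordered by `g`, in the graph `G`, ordered by `f`, and all its
edges have the colour `b` under `col`. -/
def IsColCopy {n N : ℕ} (H : SimpleGraph (Fin n)) (g : Sym2 (Fin n) → ℕ)
    (G : SimpleGraph (Fin N)) (f : Sym2 (Fin N) → ℕ) (col : Sym2 (Fin N) → Bool) (b : Bool)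
    (φ : Fin n → Fin N) : Prop :=
  Function.Injective φ ∧ (∀ e ∈ H.edgeSet, Sym2.map φ e ∈ G.edgeSet) ∧
    (∀ e ∈ H.edgeSet, ∀ e' ∈ H.edgeSet, (g e < g e' ↔ f (Sym2.map φ e) < f (Sym2.map φ e'))) ∧
    ∀ e ∈ H.edgeSet, col (Sym2.map φ e) = b

theorem card_edges {n M t B F : ℕ} {π : Fin F → Fin B → Equiv.Perm (Fin M)}
    {ce : Fin B → Fin t × Fin t} {H : SimpleGraph (Fin n)} {g : Sym2 (Fin n) → ℕ}
    {v : Fin F → Fin M → Fin t → Fin n} (hd : IsDesign n M t B F π ce H g v) :
    H.edgeSet.ncard = F * B * M := by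
  have himg : g '' H.edgeSet = Set.Iio (F * B * M) := by
    ext i
    constructor
    · rintro ⟨e, he, rfl⟩
      exact hd.glt e he
    · intro hi
      obtain ⟨e, he, rfl⟩ := hd.gsurj i hi
      exact ⟨e, he, rfl⟩
  rw [← Set.InjOn.ncard_image hd.ginj, himg]
  have : (Set.Iio (F * B * M)) = ((Finset.range (F * B * M) : Finset ℕ) : Set ℕ) := by
    ext i
    simp
  rw [this, Set.ncard_coe_finset, Finset.card_range]

private theorem mem_edges' {N : ℕ} {G : SimpleGraph (Fin N)} {e : Sym2 (Fin N)} :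
    e ∈ edges G ↔ e ∈ G.edgeSet := by
  unfold edges
  rw [Set.Finite.mem_toFinset]

open Classical in
theorem transfer {n N M t B F : ℕ} (π : Fin F → Fin B → Equiv.Perm (Fin M))
    (ce : Fin B → Fin t × Fin t) (hce1 : ∀ h, (ce h).1 < (ce h).2)
    (H : SimpleGraph (Fin n)) (g : Sym2 (Fin n) → ℕ)
    (v : Fin F → Fin M → Fin t → Fin n) (hd : IsDesign n M t B F π ce H g v)
    (G : SimpleGraph (Fin N)) (f : Sym2 (Fin N) → ℕ) (hf : Function.Injective f)
    (φ : Fin n → Fin N) (hφ : Function.Injective φ)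
    (hG : ∀ e ∈ H.edgeSet, Sym2.map φ e ∈ G.edgeSet)
    (hord : ∀ e ∈ H.edgeSet, ∀ e' ∈ H.edgeSet,
      (g e < g e' ↔ f (Sym2.map φ e) < f (Sym2.map φ e'))) :
    ∃ R : ℕ → ℕ,
      IsCopy (edges G) (rank G f) M t B F π ce (fun j p s => φ (v j p s)) R ∧
      ∀ (x : ℝ) (P : ℕ → Prop), {e ∈ H.edgeSet | P (UCT.near H G f φ x e)}.ncard =
        ((Finset.range (F * B * M)).filter (fun i => P
          ((Finset.range (F * B * M)).filter (fun i' =>
            (((R i - R i') + (R i' - R i) : ℕ) : ℝ) ≤ x)).card)).card := by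
  obtain ⟨R, h1, h2, _, h4⟩ := transfer0 H g hd.ginj hd.glt hd.gsurj G f hf φ hφ hG hord
  refine ⟨R, ⟨fun j p => hφ.comp (hd.vinj j p), fun j p a b hab => ?_, h2, fun j h p => ?_⟩, h4⟩
  · exact mem_edges'.mpr (hG _ (hd.ve j p a b hab))
  · rw [← hd.g1 j h p]
    exact h1 _ (hd.ve j p _ _ (hce1 h).ne)

open Classical in
/-- the sizes of the fibres of consecutive levels -/
theorem windows_le {M w b : ℕ} (R : ℕ → ℕ) (hb : 0 < b) (j : ℕ) (v : ℕ) :
    ((Finset.univ.filter (fun p : Fin M => R (w * (p : ℕ)) / b ^ (j + 1) = v)).image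
      (fun p : Fin M => R (w * (p : ℕ)) / b ^ j)).card ≤ b := by
  have hsub : ((Finset.univ.filter (fun p : Fin M => R (w * (p : ℕ)) / b ^ (j + 1) = v)).image
      (fun p : Fin M => R (w * (p : ℕ)) / b ^ j)) ⊆ Finset.Ico (v * b) (v * b + b) := by
    intro x hx
    obtain ⟨p, hp, rfl⟩ := Finset.mem_image.mp hx
    have hp' := (Finset.mem_filter.mp hp).2
    rw [pow_succ, ← Nat.div_div_eq_div_mul] at hp'
    rw [Finset.mem_Ico]
    have h1 := Nat.div_add_mod (R (w * (p : ℕ)) / b ^ j) b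
    have h2 := Nat.mod_lt (R (w * (p : ℕ)) / b ^ j) hb
    rw [hp', mul_comm] at h1
    omega
  refine (Finset.card_le_card hsub).trans ?_
  rw [Nat.card_Ico]
  omega

open Classical in
/-- most positions of a copy of colour `β` have small fibres at all levels: abstract form. `OK j`
means that the level `j` is own, otherwise `hkill` holds. -/
theorem profile_copy (M w b B J V T2 : ℕ) (hb : 0 < b) (hV : 0 < V)
    (R : ℕ → ℕ) (hR : ∀ i j : ℕ, i < j → j < w * M → R i < R j) (hw : 0 < w)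
    (U D : ℕ → ℕ) (hU : ∀ j, 0 < U j)
    (hstep : ∀ j < J, b * V * U j ≤ U (j + 1) ∨ (U j < D (j + 1) ∧
      V * (B * D (j + 1) + 1) ≤ U (j + 1) + 1 ∧
      (Finset.univ.filter (fun p : Fin M =>
        U (j + 1) + 1 ≤ (Finset.univ.filter (fun p' : Fin M =>
          R (w * (p' : ℕ)) / b ^ (j + 1) = R (w * (p : ℕ)) / b ^ (j + 1))).card ∧
        (Finset.univ.filter (fun p' : Fin M =>
          R (w * (p' : ℕ)) / b ^ (j + 1) = R (w * (p : ℕ)) / b ^ (j + 1))).card
            ≤ b * V * U j)).card ≤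
        T2 + (M / (U (j + 1) + 1)) * (B * D (j + 1) + 1) +
          B * (Finset.univ.filter (fun p : Fin M =>
            D (j + 1) ≤ (Finset.univ.filter (fun p' : Fin M =>
              R (w * (p' : ℕ)) / b ^ j = R (w * (p : ℕ)) / b ^ j)).card)).card)) :
    ∀ j ≤ J, (Finset.univ.filter (fun p : Fin M =>
      U j < (Finset.univ.filter (fun p' : Fin M =>
        R (w * (p' : ℕ)) / b ^ j = R (w * (p : ℕ)) / b ^ j)).card)).card ≤
      J * (B + 2) ^ J * (2 * (M / V) + T2) := by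
  intro j hj
  have hmain := profile M B J V (2 * (M / V) + T2)
    (fun j p => (Finset.univ.filter (fun p' : Fin M =>
        R (w * (p' : ℕ)) / b ^ j = R (w * (p : ℕ)) / b ^ j)).card) U (fun j => b * V * U j) D
    ?_ ?_ hV (by omega) ?_ j hj
  · refine le_trans (Finset.card_le_card ?_) (hmain.trans ?_)
    · intro p hp
      rw [Finset.mem_filter] at hp ⊢
      exact ⟨hp.1, j, le_rfl, hp.2⟩
    · exact Nat.mul_le_mul_right _ (Nat.mul_le_mul hj (Nat.pow_le_pow_right (by omega) hj))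
  · intro p
    refine le_trans ?_ (hU 0)
    rw [Finset.card_le_one]
    intro x hx x' hx'
    have e1 := (Finset.mem_filter.mp hx).2
    have e2 := (Finset.mem_filter.mp hx').2
    rw [pow_zero, Nat.div_one, Nat.div_one] at e1 e2
    by_contra hne
    rcases lt_or_gt_of_ne hne with hlt | hlt
    · have := hR (w * (x : ℕ)) (w * (x' : ℕ)) (Nat.mul_lt_mul_of_pos_left hlt hw)
        (Nat.mul_lt_mul_of_pos_left x'.isLt hw)
      omega
    · have := hR (w * (x' : ℕ)) (w * (x : ℕ)) (Nat.mul_lt_mul_of_pos_left hlt hw)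
        (Nat.mul_lt_mul_of_pos_left x.isLt hw)
      omega
  · intro j _
    exact grow M b (U j) V (fun p : Fin M => R (w * (p : ℕ)) / b ^ j)
      (fun p : Fin M => R (w * (p : ℕ)) / b ^ (j + 1)) hb (hU j) (windows_le R hb j)
  · intro j hj'
    rcases hstep j hj' with h1 | ⟨h1, h2, h3⟩
    · exact Or.inl h1
    · refine Or.inr ⟨h1, ?_⟩
      have h4 : (M / (U (j + 1) + 1)) * (B * D (j + 1) + 1) ≤ M / V := by
        rw [Nat.le_div_iff_mul_le hV, mul_assoc, mul_comm (B * D (j + 1) + 1) V]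
        exact (Nat.mul_le_mul_left _ h2).trans (Nat.div_mul_le_self _ _)
      omega

end Pool.Agent.UCV
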