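import Pool.Agent.UCR.Stmt
import Pool.Agent.UCT.Defs

/-!
# UCV: only thin monochromatic copies up to the window size `n ^ (3 / 2)`, definitions

The designed graph consists of cliques with `t` vertices, `M` cliques of each of `F` types. The
order consists of `M` slots of `F B` consecutive edges, `B = t (t - 1) / 2`. The edge number `h`
of the clique `(g, p)` (type `g`, number `p`) is in the slot `π g h p`, at the place `B g + h` in
this slot.
-/

set_option autoImplicit false

namespace Pool.Agent.UCV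

/-- The data of an order preserving copy of the designed graph: cliques `Y g p`, ranks `R i` of
the edges in their order. -/
structure IsCopy {V : Type} (E : Finset (Sym2 V)) (rk : Sym2 V → ℕ) (M t B F : ℕ)
    (π : Fin F → Fin B → Equiv.Perm (Fin M)) (ce : Fin B → Fin t × Fin t)
    (Y : Fin F → Fin M → Fin t → V) (R : ℕ → ℕ) : Prop where
  Yinj : ∀ g p, Function.Injective (Y g p)
  YE : ∀ g p (a b : Fin t), a ≠ b → s(Y g p a, Y g p b) ∈ E
  mono : ∀ i j : ℕ, i < j → j < F * B * M → R i < R j
  R1 : ∀ g (h : Fin B) p, rk s(Y g p (ce h).1, Y g p (ce h).2) =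
    R (F * B * (π g h p : ℕ) + (B * (g : ℕ) + (h : ℕ)))

/-- The designed graph, on `Fin n`, and its order. -/
structure IsDesign (n M t B F : ℕ) (π : Fin F → Fin B → Equiv.Perm (Fin M))
    (ce : Fin B → Fin t × Fin t)
    (H : SimpleGraph (Fin n)) (g : Sym2 (Fin n) → ℕ)
    (v : Fin F → Fin M → Fin t → Fin n) : Prop where
  vinj : ∀ j p, Function.Injective (v j p)
  deg : ∀ x, (H.neighborSet x).ncard ≤ t
  ginj : Set.InjOn g H.edgeSet
  ve : ∀ j p (a b : Fin t), a ≠ b → s(v j p a, v j p b) ∈ H.edgeSet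
  g1 : ∀ j (h : Fin B) p, g s(v j p (ce h).1, v j p (ce h).2) =
    F * B * (π j h p : ℕ) + (B * (j : ℕ) + (h : ℕ))
  glt : ∀ e ∈ H.edgeSet, g e < F * B * M
  gsurj : ∀ i < F * B * M, ∃ e ∈ H.edgeSet, g e = i

end Pool.Agent.UCV
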