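import Pool.Agent.UCV.Defs

/-!
# UCV Design: the designed graph exists

PROOF. Simpler version of `Pool/Agent/UCT/Design.lean` (only cliques, now of `F` types). Vertices:
`v j p s = t * (M j + p) + s`; the edges are all pairs `s(v j p a, v j p b)`, `a ≠ b`, that is all
`s(v j p (ce h).1, v j p (ce h).2)` (`hce1`, `hce2`), and `g` sends this one to
`F * B * (π j h p) + (B * j + h)` (well defined as `v` and `ce` are injective; `g = 0` on all other
pairs). The map `(j, h, p) ↦ F * B * (π j h p) + (B * j + h)` is a bijection from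
`Fin F × Fin B × Fin M` to the numbers below `F * B * M`.
-/

set_option autoImplicit false

namespace Pool.Agent.UCV

section Design

variable {M t B F n : ℕ}

/-- index type of the edges -/
private abbrev Ix (M B F : ℕ) : Type := Fin F × Fin B × Fin M

private theorem madd {t p s p' s' : ℕ} (hs : s < t) (hs' : s' < t) (h : t * p + s = t * p' + s') :
    p = p' ∧ s = s' := by
  rcases lt_trichotomy p p' with h1 | h1 | h1
  · have h2 : t * (p + 1) ≤ t * p' := Nat.mul_le_mul_left _ h1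
    rw [Nat.mul_succ] at h2
    omega
  · subst h1
    exact ⟨rfl, by omega⟩
  · have h2 : t * (p' + 1) ≤ t * p := Nat.mul_le_mul_left _ h1
    rw [Nat.mul_succ] at h2
    omega

private theorem mf_lt (j : Fin F) (p : Fin M) : M * (j : ℕ) + (p : ℕ) < F * M := by
  have h1 : M * ((j : ℕ) + 1) ≤ M * F := Nat.mul_le_mul_left _ j.2
  rw [Nat.mul_succ, Nat.mul_comm M F] at h1
  have h2 := p.2
  omega

private theorem vlta (hn : F * t * M ≤ n) (j : Fin F) (p : Fin M) (s : Fin t) :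
    t * (M * (j : ℕ) + (p : ℕ)) + (s : ℕ) < n := by
  have h1 : t * (M * (j : ℕ) + (p : ℕ) + 1) ≤ t * (F * M) := Nat.mul_le_mul_left _ (mf_lt j p)
  rw [Nat.mul_succ] at h1
  have h2 := s.2
  have h3 : t * (F * M) = F * t * M := by ring
  omega

/-- vertices of the cliques -/
private def vv (hn : F * t * M ≤ n) (j : Fin F) (p : Fin M) (s : Fin t) : Fin n :=
  ⟨t * (M * (j : ℕ) + (p : ℕ)) + (s : ℕ), vlta hn j p s⟩

private theorem vv_inj (hn : F * t * M ≤ n) {j j' : Fin F} {p p' : Fin M} {s s' : Fin t}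
    (h : vv hn j p s = vv hn j' p' s') : j = j' ∧ p = p' ∧ s = s' := by
  have h1 : t * (M * (j : ℕ) + (p : ℕ)) + (s : ℕ) = t * (M * (j' : ℕ) + (p' : ℕ)) + (s' : ℕ) :=
    congrArg Fin.val h
  obtain ⟨h2, h3⟩ := madd s.2 s'.2 h1
  obtain ⟨h4, h5⟩ := madd p.2 p'.2 h2
  exact ⟨Fin.ext h4, Fin.ext h5, Fin.ext h3⟩

/-- the edges -/
private def ed (hn : F * t * M ≤ n) (ce : Fin B → Fin t × Fin t) (i : Ix M B F) :
    Sym2 (Fin n) :=
  s(vv hn i.1 i.2.2 (ce i.2.1).1, vv hn i.1 i.2.2 (ce i.2.1).2)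

/-- the offsets -/
private def os (i : Ix M B F) : ℕ := B * (i.1 : ℕ) + (i.2.1 : ℕ)

/-- the positions -/
private def po (π : Fin F → Fin B → Equiv.Perm (Fin M)) (i : Ix M B F) : ℕ :=
  F * B * (π i.1 i.2.1 i.2.2 : ℕ) + os i

private theorem os_lt (i : Ix M B F) : os i < F * B := mf_lt i.1 i.2.1

private theorem ed_diag (hn : F * t * M ≤ n) {ce : Fin B → Fin t × Fin t}
    (hce1 : ∀ h, (ce h).1 < (ce h).2) (i : Ix M B F) : ¬ (ed hn ce i).IsDiag := by
  unfold ed
  rw [Sym2.mk_isDiag_iff]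
  intro h'
  have h1 := (vv_inj hn h').2.2
  exact absurd h1 (hce1 i.2.1).ne

private theorem ed_inj (hn : F * t * M ≤ n) {ce : Fin B → Fin t × Fin t}
    (hce : Function.Injective ce) (hce1 : ∀ h, (ce h).1 < (ce h).2) :
    Function.Injective (ed hn ce : Ix M B F → Sym2 (Fin n)) := by
  rintro ⟨j, h, p⟩ ⟨j', h', p'⟩ he
  have h1 : (s(vv hn j p (ce h).1, vv hn j p (ce h).2) : Sym2 (Fin n)) =
    s(vv hn j' p' (ce h').1, vv hn j' p' (ce h').2) := he
  rw [Sym2.eq_iff] at h1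
  rcases h1 with ⟨h1, h2⟩ | ⟨h1, h2⟩
  · obtain ⟨rfl, rfl, h3⟩ := vv_inj hn h1
    have h4 := (vv_inj hn h2).2.2
    have h5 : h = h' := hce (Prod.ext h3 h4)
    rw [h5]
  · have h3 := (vv_inj hn h1).2.2
    have h4 := (vv_inj hn h2).2.2
    have h5 := hce1 h
    rw [h3, h4] at h5
    exact absurd h5 (hce1 h').asymm

private theorem po_inj (π : Fin F → Fin B → Equiv.Perm (Fin M)) :
    Function.Injective (po π : Ix M B F → ℕ) := by
  rintro ⟨j, h, p⟩ ⟨j', h', p'⟩ he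
  obtain ⟨h1, h2⟩ := madd (os_lt (j, h, p)) (os_lt (j', h', p')) he
  obtain ⟨h3, h4⟩ := madd h.2 h'.2 h2
  obtain rfl : j = j' := Fin.ext h3
  obtain rfl : h = h' := Fin.ext h4
  obtain rfl : p = p' := (π j h).injective (Fin.ext h1)
  rfl

private theorem po_lt (π : Fin F → Fin B → Equiv.Perm (Fin M)) (i : Ix M B F) :
    po π i < F * B * M := by
  have h1 := os_lt i
  have h2 : F * B * ((π i.1 i.2.1 i.2.2 : ℕ) + 1) ≤ F * B * M :=
    Nat.mul_le_mul_left _ (π i.1 i.2.1 i.2.2).2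
  rw [Nat.mul_succ] at h2
  unfold po
  omega

private theorem po_surj (π : Fin F → Fin B → Equiv.Perm (Fin M))
    {i : ℕ} (hi : i < F * B * M) : ∃ j : Ix M B F, po π j = i := by
  have hw : 0 < F * B := by
    rcases Nat.eq_zero_or_pos (F * B) with h | h
    · rw [h] at hi
      simp at hi
    · exact h
  have hB : 0 < B := Nat.pos_of_ne_zero (fun h => by simp [h] at hw)
  have h1 : i / (F * B) < M := by
    rw [Nat.div_lt_iff_lt_mul hw, Nat.mul_comm]
    exact hi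
  have h2 : i % (F * B) / B < F := by
    rw [Nat.div_lt_iff_lt_mul hB]
    exact Nat.mod_lt i hw
  have h3 : i % (F * B) % B < B := Nat.mod_lt _ hB
  refine ⟨(⟨i % (F * B) / B, h2⟩, ⟨i % (F * B) % B, h3⟩,
    (π ⟨i % (F * B) / B, h2⟩ ⟨i % (F * B) % B, h3⟩).symm ⟨i / (F * B), h1⟩), ?_⟩
  unfold po os
  simp only [Equiv.apply_symm_apply]
  rw [Nat.div_add_mod (i % (F * B)) B]
  exact Nat.div_add_mod i (F * B)

/-- the order -/
private noncomputable def gg (hn : F * t * M ≤ n) (ce : Fin B → Fin t × Fin t)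
    (π : Fin F → Fin B → Equiv.Perm (Fin M)) (e : Sym2 (Fin n)) : ℕ := by
  classical
  exact if h : ∃ i : Ix M B F, ed hn ce i = e then po π h.choose else 0

private theorem gg_ed (hn : F * t * M ≤ n) {ce : Fin B → Fin t × Fin t}
    (hce : Function.Injective ce) (hce1 : ∀ h, (ce h).1 < (ce h).2)
    (π : Fin F → Fin B → Equiv.Perm (Fin M)) (i : Ix M B F) :
    gg hn ce π (ed hn ce i) = po π i := by
  classical
  have h : ∃ j : Ix M B F, ed hn ce j = ed hn ce i := ⟨i, rfl⟩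
  unfold gg
  rw [dif_pos h]
  rw [ed_inj hn hce hce1 h.choose_spec]

private theorem mem_ed (hn : F * t * M ≤ n) {ce : Fin B → Fin t × Fin t}
    (hce1 : ∀ h, (ce h).1 < (ce h).2) (e : Sym2 (Fin n)) :
    e ∈ (SimpleGraph.fromEdgeSet (Set.range (ed hn ce : Ix M B F → Sym2 (Fin n)))).edgeSet ↔
      ∃ i, ed hn ce i = e := by
  rw [SimpleGraph.edgeSet_fromEdgeSet]
  constructor
  · rintro ⟨h, -⟩
    exact h
  · rintro ⟨i, rfl⟩
    exact ⟨⟨i, rfl⟩, ed_diag hn hce1 i⟩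

private theorem adj_block (hn : F * t * M ≤ n) {ce : Fin B → Fin t × Fin t}
    (hce1 : ∀ h, (ce h).1 < (ce h).2) {x y : Fin n}
    (h : s(x, y) ∈
      (SimpleGraph.fromEdgeSet (Set.range (ed hn ce : Ix M B F → Sym2 (Fin n)))).edgeSet) :
    ∃ j p, x ∈ Set.range (vv hn j p) ∧ y ∈ Set.range (vv hn j p) := by
  rw [mem_ed hn hce1] at h
  obtain ⟨⟨j, h, p⟩, hi⟩ := h
  have h1 : (s(vv hn j p (ce h).1, vv hn j p (ce h).2) : Sym2 (Fin n)) = s(x, y) := hi
  rw [Sym2.eq_iff] at h1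
  rcases h1 with ⟨h1, h2⟩ | ⟨h1, h2⟩
  · exact ⟨j, p, ⟨_, h1⟩, ⟨_, h2⟩⟩
  · exact ⟨j, p, ⟨_, h2⟩, ⟨_, h1⟩⟩

private theorem rangecard {α : Type} [Fintype α] {m : ℕ} (f : α → Fin m) (A : Set (Fin m))
    (h : A ⊆ Set.range f) : A.ncard ≤ Fintype.card α := by
  classical
  calc A.ncard ≤ (Set.range f).ncard := Set.ncard_le_ncard h (Set.toFinite _)
    _ = (f '' Set.univ).ncard := by rw [Set.image_univ]
    _ ≤ (Set.univ : Set α).ncard := Set.ncard_image_le (Set.toFinite _)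
    _ = Fintype.card α := by rw [Set.ncard_univ, Nat.card_eq_fintype_card]

private theorem deg_le (hn : F * t * M ≤ n) {ce : Fin B → Fin t × Fin t}
    (hce1 : ∀ h, (ce h).1 < (ce h).2) (x : Fin n) :
    ((SimpleGraph.fromEdgeSet
      (Set.range (ed hn ce : Ix M B F → Sym2 (Fin n)))).neighborSet x).ncard ≤ t := by
  by_cases h2 : ∃ j p, x ∈ Set.range (vv hn j p)
  · obtain ⟨j, p, c, hc⟩ := h2
    have h2 : ((SimpleGraph.fromEdgeSet
      (Set.range (ed hn ce : Ix M B F → Sym2 (Fin n)))).neighborSet x) ⊆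
        Set.range (vv hn j p) := by
      intro y hy
      obtain ⟨i, q, hq, hy'⟩ := adj_block hn hce1 (show s(x, y) ∈ _ from hy)
      obtain ⟨d, hd⟩ := hq
      have h3 := vv_inj hn (hc.trans hd.symm)
      rw [h3.1, h3.2.1]
      exact hy'
    refine (rangecard (vv hn j p) _ h2).trans ?_
    rw [Fintype.card_fin]
  · have h3 : ((SimpleGraph.fromEdgeSet
      (Set.range (ed hn ce : Ix M B F → Sym2 (Fin n)))).neighborSet x) = ∅ := by
      rw [Set.eq_empty_iff_forall_notMem]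
      intro y hy
      obtain ⟨j, q, hq, -⟩ := adj_block hn hce1 (show s(x, y) ∈ _ from hy)
      exact h2 ⟨j, q, hq⟩
    rw [h3, Set.ncard_empty]
    exact Nat.zero_le _

end Design

theorem exists_design (M t B F n : ℕ) (ht : 1 ≤ t) (hn : F * t * M ≤ n)
    (π : Fin F → Fin B → Equiv.Perm (Fin M))
    (ce : Fin B → Fin t × Fin t) (hce : Function.Injective ce)
    (hce1 : ∀ h, (ce h).1 < (ce h).2) (hce2 : ∀ a b : Fin t, a < b → ∃ h, ce h = (a, b)) :
    ∃ (H : SimpleGraph (Fin n)) (g : Sym2 (Fin n) → ℕ) (v : Fin F → Fin M → Fin t → Fin n),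
      IsDesign n M t B F π ce H g v := by
  have _ := ht
  refine ⟨SimpleGraph.fromEdgeSet (Set.range (ed hn ce)), gg hn ce π, vv hn, ?_⟩
  have hg := gg_ed hn hce hce1 π
  have hm := mem_ed hn hce1
  refine ⟨fun j p s s' h => (vv_inj hn h).2.2, deg_le hn hce1, ?_, ?_, ?_, ?_, ?_⟩
  · intro e he e' he' h
    rw [hm] at he he'
    obtain ⟨i, rfl⟩ := he
    obtain ⟨i', rfl⟩ := he'
    rw [hg, hg] at h
    rw [po_inj π h]
  · intro j p a b hab
    rw [hm]
    rcases lt_or_gt_of_ne hab with h | h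
    · obtain ⟨h', hh⟩ := hce2 a b h
      refine ⟨(j, h', p), ?_⟩
      change (s(vv hn j p (ce h').1, vv hn j p (ce h').2) : Sym2 (Fin n)) = _
      rw [hh]
    · obtain ⟨h', hh⟩ := hce2 b a h
      refine ⟨(j, h', p), ?_⟩
      change (s(vv hn j p (ce h').1, vv hn j p (ce h').2) : Sym2 (Fin n)) = _
      rw [hh]
      exact Sym2.eq_swap
  · intro j h p
    exact hg (j, h, p)
  · intro e he
    rw [hm] at he
    obtain ⟨i, rfl⟩ := he
    rw [hg]
    exact po_lt π i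
  · intro i hi
    obtain ⟨j, hj⟩ := po_surj π hi
    refine ⟨ed hn ce j, (hm _).2 ⟨j, rfl⟩, ?_⟩
    rw [hg, hj]

end Pool.Agent.UCV
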