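import Mathlib

/-!
# UCV Lines: edge disjoint copies of `K_5` in `K_(5 p)`, with consistent classes

PROOF. Identify `Fin (5 * p)` with `ZMod 5 × ZMod p` (equal cardinality) and `Fin (p ^ 2)` with
`ZMod p × ZMod p`. Put `Ln (x, y) c = (c, x + c.val * y)` and
`cls (c, u) (c', u') = decide (c' - c = 1 ∨ c' - c = 4)` (symmetric, as `-1 = 4`). If the lines
`(x, y)`, `(x', y')` have a common pair of points, then the first coordinates show that it is the
pair `c ≠ c'` of places in both lines, `x + c.val y = x' + c.val y'` and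
`x + c'.val y = x' + c'.val y'`, so `(c.val - c'.val) (y - y') = 0` in `ZMod p`, and
`0 < |c.val - c'.val| < 5 ≤ p` gives `y = y'`, then `x = x'`.
-/

set_option autoImplicit false

namespace Pool.Agent.UCV

private lemma lines_aux (p : ℕ) (hp : p.Prime) (hp5 : 5 ≤ p) (x y x' y' : ZMod p)
    (a b : ZMod 5) (hab : a ≠ b)
    (h1 : x + (a.val : ZMod p) * y = x' + (a.val : ZMod p) * y')
    (h2 : x + (b.val : ZMod p) * y = x' + (b.val : ZMod p) * y') : x = x' ∧ y = y' := by
  have : Fact p.Prime := ⟨hp⟩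
  have hne : (a.val : ZMod p) ≠ (b.val : ZMod p) := by
    intro h
    have h3 := (ZMod.natCast_eq_natCast_iff' a.val b.val p).1 h
    have ha : a.val < p := lt_of_lt_of_le (ZMod.val_lt a) hp5
    have hb : b.val < p := lt_of_lt_of_le (ZMod.val_lt b) hp5
    rw [Nat.mod_eq_of_lt ha, Nat.mod_eq_of_lt hb] at h3
    exact hab (ZMod.val_injective 5 h3)
  have h4 : ((a.val : ZMod p) - (b.val : ZMod p)) * (y - y') = 0 := by
    linear_combination h1 - h2
  have h5 : y - y' = 0 := by
    rcases mul_eq_zero.1 h4 with h | h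
    · exact absurd (sub_eq_zero.1 h) hne
    · exact h
  have h6 : y = y' := sub_eq_zero.1 h5
  refine ⟨?_, h6⟩
  rw [h6] at h1
  exact add_right_cancel h1

theorem exists_lines (p : ℕ) (hp : p.Prime) (hp5 : 5 ≤ p) :
    ∃ (cls : Fin (5 * p) → Fin (5 * p) → Bool) (Ln : Fin (p ^ 2) → ZMod 5 → Fin (5 * p)),
      (∀ a b, cls a b = cls b a) ∧ (∀ l, Function.Injective (Ln l)) ∧
      (∀ l c, cls (Ln l c) (Ln l (c + 1)) = true) ∧
      (∀ l c, cls (Ln l c) (Ln l (c + 2)) = false) ∧
      ∀ (l l' : Fin (p ^ 2)) (a b a' b' : ZMod 5), a ≠ b →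
        s(Ln l a, Ln l b) = s(Ln l' a', Ln l' b') → l = l' := by
  have : Fact p.Prime := ⟨hp⟩
  have c1 : Fintype.card (ZMod 5 × ZMod p) = 5 * p := by
    rw [Fintype.card_prod, ZMod.card, ZMod.card]
  have c2 : Fintype.card (ZMod p × ZMod p) = p ^ 2 := by
    rw [Fintype.card_prod, ZMod.card, sq]
  let e1 : ZMod 5 × ZMod p ≃ Fin (5 * p) := Fintype.equivFinOfCardEq c1
  let e2 : ZMod p × ZMod p ≃ Fin (p ^ 2) := Fintype.equivFinOfCardEq c2
  have key : ∀ u v : ZMod 5, (v - u = 1 ∨ v - u = 4) ↔ (u - v = 1 ∨ u - v = 4) := by decide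
  have hcls2 : ∀ c : ZMod 5, ¬ (c + 2 - c = 1 ∨ c + 2 - c = 4) := by decide
  refine ⟨fun a b => decide ((e1.symm b).1 - (e1.symm a).1 = 1 ∨
      (e1.symm b).1 - (e1.symm a).1 = 4),
    fun l c => e1 (c, (e2.symm l).1 + (c.val : ZMod p) * (e2.symm l).2), ?_, ?_, ?_, ?_, ?_⟩
  · intro a b
    exact decide_eq_decide.2 (key _ _)
  · intro l c c' h
    have h1 := e1.injective h
    exact (Prod.mk.inj h1).1
  · intro l c
    simp only [Equiv.symm_apply_apply]
    rw [decide_eq_true_eq]
    left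
    ring
  · intro l c
    simp only [Equiv.symm_apply_apply]
    rw [decide_eq_false_iff_not]
    exact hcls2 c
  · intro l l' a b a' b' hab h
    have main : ∀ c d : ZMod 5,
        e1 (a, (e2.symm l).1 + (a.val : ZMod p) * (e2.symm l).2) =
          e1 (c, (e2.symm l').1 + (c.val : ZMod p) * (e2.symm l').2) →
        e1 (b, (e2.symm l).1 + (b.val : ZMod p) * (e2.symm l).2) =
          e1 (d, (e2.symm l').1 + (d.val : ZMod p) * (e2.symm l').2) → l = l' := by
      intro c d g1 g2
      have f1 := Prod.mk.inj (e1.injective g1)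
      have f2 := Prod.mk.inj (e1.injective g2)
      have e3 : c = a := f1.1.symm
      have e4 : d = b := f2.1.symm
      subst e3
      subst e4
      have f3 := lines_aux p hp hp5 _ _ _ _ c d hab f1.2 f2.2
      exact e2.symm.injective (Prod.ext f3.1 f3.2)
    rcases Sym2.eq_iff.1 h with ⟨g1, g2⟩ | ⟨g1, g2⟩
    · exact main a' b' g1 g2
    · exact main b' a' g1 g2

end Pool.Agent.UCV
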