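import Pool.Agent.UCV.NumPat

/-!
# UCV NumBase: basic inequalities

PROOF (see `Pool/Agent/UCT/NumBase.lean`, helper18, for the first ones). `M = 2 ^ kk v n`,
`n / (4 v) < M ≤ n / v`. `TT2 z k = 2 M / (z + 1) + 1 ≤ 2 M / (z + 1) + 1` and by `hz`
`J (B + 2) ^ J (2 M / (z + 1)) ≤ η M / 12`; `J (B + 2) ^ J (2 (M / VV) + 1) ≤ η M / 12 - 1` for
large `n`, as `VV → ∞`, `M → ∞`; `TT1 η k = ⌊η M / 6⌋`. The last one (`J = 72 G - 80`):
`ue G true J = g (4 + cnt) + κ J ≤ g (4 + 48 G - 56) + g = 1 - 51 g` (`cnt_top`,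
`κ J ≤ 3 g / 4`), and `M / (4 B)` is about `n / (16 v B)`.
-/

set_option autoImplicit false

namespace Pool.Agent.UCV

open Filter

private theorem two_pow_kk (v n : ℕ) : 2 ^ UCT.kk v n = 4 ^ Nat.log 4 (n / v) := by
  unfold UCT.kk
  rw [pow_mul]
  norm_num

private theorem kk_le (v n : ℕ) (hv : 0 < v) (hn : v ≤ n) : v * 2 ^ UCT.kk v n ≤ n := by
  rw [two_pow_kk]
  have h1 : n / v ≠ 0 := (Nat.div_pos hn hv).ne'
  have h2 : 4 ^ Nat.log 4 (n / v) ≤ n / v := Nat.pow_log_le_self 4 h1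
  calc v * 4 ^ Nat.log 4 (n / v) ≤ v * (n / v) := Nat.mul_le_mul_left v h2
    _ ≤ n := Nat.mul_div_le n v

private theorem lt_kk (v n : ℕ) (hv : 0 < v) : n < 4 * v * 2 ^ UCT.kk v n := by
  rw [two_pow_kk]
  have h2 : n / v < 4 ^ (Nat.log 4 (n / v) + 1) :=
    Nat.lt_pow_succ_log_self (by norm_num) (n / v)
  have h3 : n < v * (n / v + 1) := Nat.lt_mul_div_succ n hv
  calc n < v * (n / v + 1) := h3
    _ ≤ v * 4 ^ (Nat.log 4 (n / v) + 1) := Nat.mul_le_mul_left v h2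
    _ = 4 * v * 4 ^ Nat.log 4 (n / v) := by rw [pow_succ]; ring

private theorem log_large (v z : ℕ) (hv : 0 < v) :
    ∀ᶠ n : ℕ in atTop, z + 1 ≤ 2 ^ Nat.log 4 (n / v) := by
  refine eventually_atTop.2 ⟨v * 4 ^ (z + 1), fun n hn => ?_⟩
  have h1 : 4 ^ (z + 1) ≤ n / v := by
    rw [Nat.le_div_iff_mul_le hv, mul_comm]
    exact hn
  have h2 : z + 1 ≤ Nat.log 4 (n / v) := by
    apply Nat.le_log_of_pow_le (by norm_num) h1
  calc z + 1 ≤ Nat.log 4 (n / v) := h2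
    _ ≤ 2 ^ Nat.log 4 (n / v) := Nat.lt_two_pow_self.le

private theorem gg_pos (G : ℕ) (hG : 4 ≤ G) : 0 < gg G := by
  unfold gg
  have h : (0 : ℝ) < G := by exact_mod_cast (by omega : 0 < G)
  positivity

private theorem ue_top (G : ℕ) (hG : 4 ≤ G) : ue G true (72 * G - 80) ≤ 1 - gg G := by
  have hg := gg_pos G hG
  have hGR : (0 : ℝ) < G := by exact_mod_cast (by omega : 0 < G)
  have h1 := cnt_top G hG
  have h2 : ((cnt G true (72 * G - 80) : ℕ) : ℝ) + 56 ≤ 48 * G := by exact_mod_cast h1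
  have h3 : gg G * (48 * G) = 1 := by
    unfold gg
    field_simp
  have h4 : ((72 * G - 80 : ℕ) : ℝ) ≤ 72 * G := by
    have : 72 * G - 80 ≤ 72 * G := Nat.sub_le _ _
    exact_mod_cast this
  have h5 : kap G * ((72 * G - 80 : ℕ) : ℝ) ≤ kap G * (72 * G) := by
    apply mul_le_mul_of_nonneg_left h4
    unfold kap
    positivity
  have h6 : kap G * (72 * G) = 3 / 4 * gg G := by
    have : kap G * (72 * G) = gg G * (gg G * (48 * G)) * (3 / 4) := by
      unfold kap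
      ring
    rw [this, h3]
    ring
  have h7 : gg G * (4 + (cnt G true (72 * G - 80) : ℕ)) ≤ gg G * (48 * G - 52) := by
    apply mul_le_mul_of_nonneg_left _ hg.le
    linarith
  have h8 : gg G * (48 * G - 52) = 1 - 52 * gg G := by
    have : gg G * (48 * G - 52) = gg G * (48 * G) - 52 * gg G := by ring
    rw [this, h3]
  unfold ue
  linarith

private theorem rpow_small (c t : ℝ) (hc : 0 < c) (ht : 0 < t) :
    ∀ᶠ n : ℕ in atTop, (n : ℝ) ^ (1 - t) + 2 ≤ c * n := by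
  have h1 : Tendsto (fun n : ℕ => (n : ℝ) ^ t) atTop atTop :=
    (tendsto_rpow_atTop ht).comp tendsto_natCast_atTop_atTop
  have h2 := h1.eventually_ge_atTop (2 / c)
  have h3 := (tendsto_natCast_atTop_atTop (R := ℝ)).eventually_ge_atTop (4 / c)
  filter_upwards [h2, h3, eventually_ge_atTop 1] with n a b c1
  have hn : (0 : ℝ) < n := by exact_mod_cast c1
  have hp : (0 : ℝ) < (n : ℝ) ^ (1 - t) := Real.rpow_pos_of_pos hn _
  have h4 : (n : ℝ) ^ (1 - t) * (n : ℝ) ^ t = n := by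
    rw [← Real.rpow_add hn]
    norm_num
  have h5 : 2 ≤ (n : ℝ) ^ t * c := by
    rwa [div_le_iff₀ hc] at a
  have h6 : 4 ≤ n * c := by
    rwa [div_le_iff₀ hc] at b
  have h7 : (n : ℝ) ^ (1 - t) * 2 ≤ n * c := by
    calc (n : ℝ) ^ (1 - t) * 2 ≤ (n : ℝ) ^ (1 - t) * ((n : ℝ) ^ t * c) :=
          mul_le_mul_of_nonneg_left h5 hp.le
      _ = n * c := by rw [← mul_assoc, h4]
  linarith

theorem num_base (A η : ℝ) (G z v B w : ℕ) (hA : 0 < A) (hG : 4 ≤ G) (hv : 0 < v) (hB : 0 < B)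
    (hw : 0 < w) (hη : 0 < η)
    (hz : 24 * ((72 * G - 80 : ℕ) : ℝ) * ((B : ℝ) + 2) ^ (72 * G - 80) ≤ η * (z + 1)) :
    ∀ᶠ n : ℕ in atTop, 1 ≤ n ∧ v * 2 ^ UCT.kk v n ≤ n ∧ z + 1 ≤ 2 ^ Nat.log 4 (n / v) ∧
      0 < ⌊(n : ℝ) ^ A⌋₊ ∧ 8 * B + 8 ≤ 2 ^ UCT.kk v n ∧
      1 / (4 * (v : ℝ)) * n ≤ ((w * 2 ^ UCT.kk v n : ℕ) : ℝ) ∧
      (72 * G - 80) * (B + 2) ^ (72 * G - 80) *
        (2 * (2 ^ UCT.kk v n / VV G n) + UCT.TT2 z (UCT.kk v n)) ≤ UCT.TT1 η (UCT.kk v n) ∧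
      UU G n true (72 * G - 80) < 2 ^ UCT.kk v n / (4 * B) := by
  have hg := gg_pos G hG
  have hkap : 0 < kap G / 8 := by
    unfold kap
    positivity
  have hvR : (0 : ℝ) < v := by exact_mod_cast hv
  have hBR : (0 : ℝ) < B := by exact_mod_cast hB
  have hue := ue_top G hG
  set J : ℕ := 72 * G - 80 with hJ
  set P : ℝ := (J : ℝ) * ((B : ℝ) + 2) ^ J with hP
  have hP0 : 0 ≤ P := by positivity
  have hz' : 24 * P ≤ η * (z + 1) := by
    have : 24 * P = 24 * (J : ℝ) * ((B : ℝ) + 2) ^ J := by rw [hP]; ring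
    rw [this]
    exact hz
  have hV : Tendsto (fun n : ℕ => (n : ℝ) ^ (kap G / 8)) atTop atTop :=
    (tendsto_rpow_atTop hkap).comp tendsto_natCast_atTop_atTop
  have hV1 := hV.eventually_ge_atTop (48 * P / η)
  have hN1 := (tendsto_natCast_atTop_atTop (R := ℝ)).eventually_ge_atTop (96 * v * P / η)
  filter_upwards [log_large v z hv, eventually_ge_atTop (2 + v + 4 * v * (8 * B + 8)), hV1, hN1,
    rpow_small (1 / (16 * v * B)) (gg G) (by positivity) hg] with n h1 h2 h3 h4 h5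
  have hn2 : 2 ≤ n := by omega
  have hn1 : (1 : ℝ) < n := by exact_mod_cast hn2
  have hn1' : (1 : ℝ) ≤ n := hn1.le
  have hn0 : (0 : ℝ) < n := by linarith
  have hvn : v ≤ n := by omega
  have hlt := lt_kk v n hv
  set k : ℕ := UCT.kk v n with hk
  set M : ℕ := 2 ^ k with hM
  have hltR : (n : ℝ) < 4 * v * M := by exact_mod_cast hlt
  have hMR : ((2 : ℝ) ^ k) = (M : ℝ) := by rw [hM]; push_cast; rfl
  have hM0 : (0 : ℝ) < M := by
    rw [← hMR]
    positivity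
  have hM8 : 8 * B + 8 ≤ M := by
    have h6 : 4 * v * (8 * B + 8) ≤ n := by omega
    have h7 : 4 * v * (8 * B + 8) < 4 * v * M := lt_of_le_of_lt h6 hlt
    exact (Nat.lt_of_mul_lt_mul_left h7).le
  refine ⟨by omega, kk_le v n hv hvn, h1, ?_, hM8, ?_, ?_, ?_⟩
  · rw [Nat.floor_pos]
    exact Real.one_le_rpow hn1' hA.le
  · have hw1 : (1 : ℝ) ≤ w := by exact_mod_cast hw
    have h6 : 1 / (4 * (v : ℝ)) * n ≤ M := by
      rw [div_mul_eq_mul_div, one_mul, div_le_iff₀ (by positivity)]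
      linarith
    have h7 : (M : ℝ) ≤ w * M := by nlinarith
    rw [Nat.cast_mul]
    linarith
  · unfold UCT.TT1
    apply Nat.le_floor
    rw [hMR]
    have hVV : (n : ℝ) ^ (kap G / 8) ≤ ((VV G n : ℕ) : ℝ) := Nat.le_ceil _
    have hVV0 : (0 : ℝ) < ((VV G n : ℕ) : ℝ) :=
      lt_of_lt_of_le (Real.rpow_pos_of_pos hn0 _) hVV
    have h6 : ((M / VV G n : ℕ) : ℝ) ≤ (M : ℝ) / ((VV G n : ℕ) : ℝ) := Nat.cast_div_le
    have h7 : ((2 * M / (z + 1) : ℕ) : ℝ) ≤ 2 * (M : ℝ) / ((z : ℝ) + 1) := by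
      have := Nat.cast_div_le (α := ℝ) (m := 2 * M) (n := z + 1)
      push_cast at this
      exact this
    have hz0 : (0 : ℝ) < (z : ℝ) + 1 := by positivity
    have h8 : P * (2 * (M : ℝ) / ((z : ℝ) + 1)) ≤ η * M / 12 := by
      rw [← mul_div_assoc, div_le_iff₀ hz0]
      nlinarith
    have h9 : 48 * P ≤ η * ((VV G n : ℕ) : ℝ) := by
      have := le_trans h3 hVV
      rw [div_le_iff₀ hη] at this
      linarith
    have h10 : P * (2 * ((M : ℝ) / ((VV G n : ℕ) : ℝ))) ≤ η * M / 24 := by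
      have e : P * (2 * ((M : ℝ) / ((VV G n : ℕ) : ℝ))) = 2 * P * M / ((VV G n : ℕ) : ℝ) := by
        ring
      rw [e, div_le_iff₀ hVV0]
      nlinarith
    have h11 : P ≤ η * M / 24 := by
      rw [div_le_iff₀ hη] at h4
      have : 96 * v * P ≤ 4 * v * M * η := by
        have := mul_lt_mul_of_pos_right hltR hη
        linarith
      have h12 : v * (24 * P) ≤ v * (M * η) := by nlinarith
      have h13 := le_of_mul_le_mul_left h12 hvR
      linarith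
    have hcast : ((J * (B + 2) ^ J * (2 * (M / VV G n) + UCT.TT2 z k) : ℕ) : ℝ) =
        P * (2 * ((M / VV G n : ℕ) : ℝ) + (((2 * M / (z + 1) : ℕ) : ℝ) + 1)) := by
      rw [hP]
      unfold UCT.TT2
      push_cast
      rfl
    rw [hcast]
    have h14 : P * (2 * ((M / VV G n : ℕ) : ℝ) + (((2 * M / (z + 1) : ℕ) : ℝ) + 1)) ≤
        P * (2 * ((M : ℝ) / ((VV G n : ℕ) : ℝ)) + (2 * (M : ℝ) / ((z : ℝ) + 1) + 1)) := by
      apply mul_le_mul_of_nonneg_left _ hP0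
      linarith
    have h15 : P * (2 * ((M : ℝ) / ((VV G n : ℕ) : ℝ)) + (2 * (M : ℝ) / ((z : ℝ) + 1) + 1)) =
        P * (2 * ((M : ℝ) / ((VV G n : ℕ) : ℝ))) + P * (2 * (M : ℝ) / ((z : ℝ) + 1)) + P := by
      ring
    rw [h15] at h14
    linarith
  · have h6 : (n : ℝ) ^ (ue G true J) ≤ (n : ℝ) ^ (1 - gg G) :=
      Real.rpow_le_rpow_of_exponent_le hn1' hue
    have h7 : ((UU G n true J : ℕ) : ℝ) < (n : ℝ) ^ (ue G true J) + 1 := by
      unfold UU
      exact Nat.ceil_lt_add_one (Real.rpow_nonneg hn0.le _)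
    have h8 : (M : ℝ) < (4 * B : ℕ) * ((M / (4 * B) : ℕ) : ℝ) + (4 * B : ℕ) := by
      have h := Nat.lt_mul_div_succ M (by omega : 0 < 4 * B)
      have h' : (M : ℝ) < ((4 * B : ℕ) : ℝ) * (((M / (4 * B) : ℕ) : ℝ) + 1) := by
        exact_mod_cast h
      linarith
    push_cast at h8
    have h9 : 1 / (16 * (v : ℝ) * B) * n < ((M / (4 * B) : ℕ) : ℝ) + 1 := by
      have e1 : 1 / (16 * (v : ℝ) * B) * n < (M : ℝ) / (4 * B) := by
        rw [div_mul_eq_mul_div, one_mul, div_lt_div_iff₀ (by positivity) (by positivity)]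
        nlinarith
      have e2 : (M : ℝ) / (4 * B) < ((M / (4 * B) : ℕ) : ℝ) + 1 := by
        rw [div_lt_iff₀ (by positivity)]
        nlinarith
      linarith
    have h10 : ((UU G n true J : ℕ) : ℝ) < ((M / (4 * B) : ℕ) : ℝ) := by
      linarith
    exact_mod_cast h10

end Pool.Agent.UCV
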