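import Pool.Agent.UCV.NumPat

/-!
# UCV NumBlue: blue union bound conditions

PROOF (see `Pool/Agent/UCT/NumBlue.lean`, helper22). Write `M = 2 ^ kk v n`,
`n / (4 v) < M ≤ n / v`, `g = gg G`, `κ = g ^ 2 / 2`, `d = g ^ 2 / 32`,
`u = ue G (!chi G j) (j - 1) = g (4 + c) + κ (j - 1)`, `c = cnt G (!chi G j) (j - 1)`. Upper bounds
(`n` large): `Q ≤ n ^ (g j / 3 + 2 d)`, `μ = mu G n j ≤ 4 n ^ (g + κ / 8 + u)`,
`D ≥ n ^ (u + κ / 2)`, `el ≥ n ^ (u + κ)` (own count does not change at this level, but only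
`el ≥ n ^ u`, which is clear from monotonicity, is not enough; use
`cnt G β j ≥ cnt G β (j - 1)`), so `M / el + B (M / D) ≤ (B + 1) M n ^ (-(u + κ / 2))`, and
`log (..) ≤ (A + 3) log n`. The left side of the second inequality is at most
`C log n * (n ^ (g j / 3 + 2 d + 2 g + κ / 4 + 2 u) / M + n ^ (g j / 3 + 2 d)) M n ^ (-(u + κ/2))
 ≤ C' log n * (n ^ (g j / 3 + u + 2 g + 2 d - κ / 4) + n ^ (1 + g j / 3 + 2 d - u - κ / 2))`
plus the term `4 Q wm log (4 F)`, which is smaller (same exponents without the factor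
`M n ^ (-(u + κ / 2)) ≥ 1`: it is easier to bound `log (4 F)` by
`(M / el + B (M / D)) log (..)`, or by using `x log + log (4 F) ≤ 2 M n ^ (-(u + κ / 2)) log`).
By `cnt_facts` (multiplied by `g / 3`, with `48 G g = 1`): `g j / 3 + g c + 8 g ≤ 1` and
`g j / 3 ≤ g c + 3 g`; `κ j ≤ κ (72 G) ≤ 3 g / 4`. So
`g j / 3 + u + 2 g + 2 d ≤ 1 - 8 g + 4 g + 2 g + 3 g / 4 + 2 d ≤ 1 - g` and
`g j / 3 + 2 d ≤ u - g + 2 d ≤ u - g / 2`. Both exponents are at most `1 - g / 2`.
The first inequality is the same with `(M / el)` in place of `(M / el + B (M / D)) log`.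
If `F = 0` the right sides are `0 / 0`-like; `F > 0` is assumed.
-/

set_option autoImplicit false

namespace Pool.Agent.UCV

open Filter

private theorem nb_ev_log (C s : ℝ) (hC : 0 < C) (hs : 0 < s) :
    ∀ᶠ n : ℕ in atTop, C * Real.log n ≤ (n : ℝ) ^ s := by
  have h := (isLittleO_log_rpow_atTop (r := s) hs).def (c := 1 / C) (by positivity)
  have h' := tendsto_natCast_atTop_atTop (R := ℝ) |>.eventually h
  filter_upwards [h', eventually_ge_atTop 1] with n hn hn1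
  have hn1' : (1 : ℝ) ≤ n := by exact_mod_cast hn1
  have hl : 0 ≤ Real.log n := Real.log_nonneg hn1'
  rw [Real.norm_of_nonneg hl, Real.norm_of_nonneg (by positivity)] at hn
  calc C * Real.log n ≤ C * (1 / C * (n : ℝ) ^ s) := by gcongr
    _ = (n : ℝ) ^ s := by field_simp

private theorem nb_ceil {x : ℝ} (hx : 1 ≤ x) : (⌈x⌉₊ : ℝ) ≤ 2 * x := by
  have h1 : (⌈x⌉₊ : ℝ) < x + 1 := Nat.ceil_lt_add_one (by linarith)
  linarith

/-- the main estimate: `P = n ^ (g j / 3 + 2 d)`, `W = n ^ (u + κ / 2)`, `S = n ^ (g / 2)` -/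
private theorem nb_core (x P W S M Q m F v t : ℝ) (hx : 0 < x) (hP : 0 ≤ P) (hW : 0 < W)
    (hS : 0 < S) (hM : 0 < M) (hMx : M ≤ x) (hxM : x ≤ 4 * v * M) (hF : 0 < F) (hv : 0 < v)
    (hQ : Q ≤ P) (h1 : P * m ^ 2 * S ≤ 16 * x * W) (h2 : P * S ≤ W)
    (ht : 0 ≤ t) (h3 : 640 * v * F * t ≤ S) :
    4 * Q * (2 * m ^ 2 / M + 8) * (M / W * t) ≤ M / F := by
  rw [le_div_iff₀ hF]
  have e1 : Q * m ^ 2 * S / W ≤ 16 * x := by
    rw [div_le_iff₀ hW]
    calc Q * m ^ 2 * S ≤ P * m ^ 2 * S := by gcongr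
      _ ≤ 16 * x * W := h1
  have e2 : Q * M * S / W ≤ x := by
    rw [div_le_iff₀ hW]
    calc Q * M * S ≤ P * x * S := by gcongr
      _ = x * (P * S) := by ring
      _ ≤ x * W := by gcongr
  have e3 : 4 * Q * (2 * m ^ 2 / M + 8) * (M / W * t) * F * (4 * v * S)
      ≤ M * (4 * v * S) := by
    calc 4 * Q * (2 * m ^ 2 / M + 8) * (M / W * t) * F * (4 * v * S)
        = (8 * (Q * m ^ 2 * S / W) + 32 * (Q * M * S / W)) * (4 * v * F * t) := by
          field_simp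
          ring
      _ ≤ (8 * (16 * x) + 32 * x) * (4 * v * F * t) := by gcongr
      _ = (640 * v * F * t) * x := by ring
      _ ≤ S * x := by gcongr
      _ ≤ S * (4 * v * M) := by gcongr
      _ = M * (4 * v * S) := by ring
  exact le_of_mul_le_mul_right e3 (by positivity)

theorem num_blue (A : ℝ) (G B F v : ℕ) (hG : 4 ≤ G) (hA : 0 < A) (hF : 0 < F) (hv : 0 < v) :
    ∀ᶠ n : ℕ in atTop, ∀ j, 1 ≤ j → j ≤ 72 * G - 80 →
      4 * (Qv G n j : ℝ) * (((2 ^ UCT.kk v n / el G n j : ℕ) : ℝ) * wm G n (UCT.kk v n) j) ≤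
        2 ^ UCT.kk v n / F ∧
      4 * (Qv G n j : ℝ) * wm G n (UCT.kk v n) j *
        (((2 ^ UCT.kk v n / el G n j + B * (2 ^ UCT.kk v n / DD G n j) : ℕ) : ℝ) *
          Real.log (⌊(n : ℝ) ^ A⌋₊ * (2 ^ UCT.kk v n + 1) ^ 2) + Real.log (4 * F)) ≤
        2 ^ UCT.kk v n / F := by
  have hv' : (0 : ℝ) < v := by exact_mod_cast hv
  have hF' : (0 : ℝ) < F := by exact_mod_cast hF
  have hF1 : (1 : ℝ) ≤ F := by exact_mod_cast hF
  have hB0 : (0 : ℝ) ≤ B := Nat.cast_nonneg B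
  have hG4 : (4 : ℝ) ≤ G := by exact_mod_cast hG
  have hGr : (0 : ℝ) < G := by linarith
  have hg : 0 < gg G := by unfold gg; positivity
  have hgG : gg G * (48 * G) = 1 := by
    unfold gg
    field_simp
  have hg1 : gg G ≤ 1 / 192 := by
    have : gg G * (48 * 4) ≤ gg G * (48 * G) := by gcongr
    linarith
  have hk : 0 < kap G := by unfold kap; positivity
  have hd : 0 < dd G := by unfold dd; positivity
  have hk1 : kap G ≤ gg G / 384 := by
    unfold kap
    nlinarith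
  have hd1 : dd G ≤ gg G / 6144 := by
    unfold dd
    nlinarith
  have hl4F : 0 ≤ Real.log (4 * F) := Real.log_nonneg (by linarith)
  set C0 : ℝ := ((B : ℝ) + 1) * (A + 4) + Real.log (4 * F) + 1 with hC0
  have hC1 : 1 ≤ C0 := by
    have : 0 ≤ ((B : ℝ) + 1) * (A + 4) := by positivity
    linarith
  have hlog : ∀ᶠ n : ℕ in atTop, (1 : ℝ) ≤ Real.log n :=
    (Real.tendsto_log_atTop.comp tendsto_natCast_atTop_atTop).eventually_ge_atTop 1
  filter_upwards [hlog, nb_ev_log (640 * v * F * C0) (gg G / 2) (by positivity) (by positivity),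
    eventually_ge_atTop (v + 2)] with n hL h3 hn
  intro j hj hJ
  obtain ⟨f1, f2⟩ := cnt_facts G hG j hj hJ
  have hcs := cnt_succ G (!chi G j) (j - 1)
  rw [Nat.sub_add_cancel hj] at hcs
  set β : Bool := !chi G j with hβ
  set c : ℕ := cnt G β (j - 1) with hc
  have f1' : (j : ℝ) + 3 * c + 24 ≤ 144 * G := by exact_mod_cast f1
  have f2' : (j : ℝ) ≤ 3 * c + 9 := by exact_mod_cast f2
  have g1 : gg G * j / 3 + gg G * c + 8 * gg G ≤ 1 := by
    have : gg G / 3 * ((j : ℝ) + 3 * c + 24) ≤ gg G / 3 * (144 * G) := by gcongr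
    linarith
  have g2 : gg G * j / 3 ≤ gg G * c + 3 * gg G := by
    have : gg G / 3 * (j : ℝ) ≤ gg G / 3 * (3 * c + 9) := by gcongr
    linarith
  have hj1 : ((j - 1 : ℕ) : ℝ) ≤ 72 * G := by
    have : j - 1 ≤ 72 * G := by omega
    exact_mod_cast this
  have g3 : kap G * ((j - 1 : ℕ) : ℝ) ≤ 3 / 4 * gg G := by
    calc kap G * ((j - 1 : ℕ) : ℝ) ≤ kap G * (72 * G) := by gcongr
      _ = gg G * (gg G * (48 * G)) * (3 / 4) := by unfold kap; ring
      _ = 3 / 4 * gg G := by rw [hgG]; ring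
  have g3' : 0 ≤ kap G * ((j - 1 : ℕ) : ℝ) := by positivity
  have g0 : 0 ≤ gg G * j / 3 := by positivity
  have g0' : 0 ≤ gg G * c := by positivity
  set u : ℝ := ue G β (j - 1) with hu
  have hu' : u = gg G * 4 + gg G * c + kap G * ((j - 1 : ℕ) : ℝ) := by
    rw [hu, ue, ← hc]
    ring
  have hu0 : 0 ≤ u := by
    rw [hu']
    positivity
  have huj : u + kap G / 2 ≤ ue G β j := by
    have e1 : (cnt G β (j - 1) : ℝ) ≤ cnt G β j := by
      have : cnt G β (j - 1) ≤ cnt G β j := by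
        rw [hcs]
        exact Nat.le_add_right _ _
      exact_mod_cast this
    have e2 : ((j - 1 : ℕ) : ℝ) = (j : ℝ) - 1 := by
      rw [Nat.cast_sub hj]
      norm_num
    have e3 : gg G * (4 + (cnt G β (j - 1) : ℝ)) ≤ gg G * (4 + (cnt G β j : ℝ)) := by gcongr
    rw [hu, ue, ue, e2]
    linarith
  -- `M`
  set x : ℝ := (n : ℝ) with hxdef
  have hx2 : (2 : ℝ) ≤ x := by rw [hxdef]; exact_mod_cast (by omega : 2 ≤ n)
  have hx0 : 0 < x := by linarith
  have hx1 : 1 ≤ x := by linarith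
  have hnv : n / v ≠ 0 := by
    have : 0 < n / v := Nat.div_pos (by omega) hv
    omega
  set k : ℕ := UCT.kk v n with hkdef
  have h4 : 2 ^ k = 4 ^ Nat.log 4 (n / v) := by
    rw [hkdef, UCT.kk, pow_mul]; norm_num
  have hk1' : 2 ^ k ≤ n / v := by rw [h4]; exact Nat.pow_log_le_self 4 hnv
  have hk2 : n / v < 4 * 2 ^ k := by
    have := Nat.lt_pow_succ_log_self (b := 4) (by norm_num) (n / v)
    rw [h4]
    calc n / v < 4 ^ (Nat.log 4 (n / v) + 1) := this
      _ = 4 * 4 ^ Nat.log 4 (n / v) := by ring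
  have hkn : 2 ^ k ≤ n := hk1'.trans (Nat.div_le_self _ _)
  have hMx : (2 : ℝ) ^ k ≤ x := by rw [hxdef]; exact_mod_cast hkn
  have hM : x ≤ 4 * v * 2 ^ k := by
    rw [Nat.div_lt_iff_lt_mul hv] at hk2
    have h6 : x ≤ 4 * 2 ^ k * v := by
      rw [hxdef]; exact_mod_cast hk2.le
    linarith
  have hM0 : (0 : ℝ) < 2 ^ k := by positivity
  -- the powers
  have hge : ∀ a : ℝ, 0 ≤ a → (1 : ℝ) ≤ x ^ a := fun a ha => Real.one_le_rpow hx1 ha
  have hrp : ∀ a : ℝ, 0 < x ^ a := fun a => Real.rpow_pos_of_pos hx0 a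
  set P : ℝ := x ^ (gg G * j / 3 + 2 * dd G) with hP
  set W : ℝ := x ^ (u + kap G / 2) with hW
  set S : ℝ := x ^ (gg G / 2) with hS
  have hP0 : 0 < P := hrp _
  have hW0 : 0 < W := hrp _
  have hS0 : 0 < S := hrp _
  have hS1 : 1 ≤ S := hge _ (by positivity)
  have hQ : (Qv G n j : ℝ) ≤ P := Nat.floor_le (hrp _).le
  have hb : (bw G n : ℝ) ≤ x ^ gg G := Nat.floor_le (hrp _).le
  have hV : (VV G n : ℝ) ≤ 2 * x ^ (kap G / 8) := nb_ceil (hge _ (by positivity))
  have hU : (UU G n β (j - 1) : ℝ) ≤ 2 * x ^ u := nb_ceil (hge _ hu0)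
  have hmu : (mu G n j : ℝ) ≤ 4 * x ^ (gg G + kap G / 8 + u) := by
    have e1 : x ^ (gg G + kap G / 8 + u) = x ^ gg G * x ^ (kap G / 8) * x ^ u := by
      rw [Real.rpow_add hx0, Real.rpow_add hx0]
    have e2 : (mu G n j : ℝ) = (bw G n : ℝ) * VV G n * UU G n β (j - 1) := by
      rw [mu, ← hβ]
      push_cast
      ring
    rw [e1, e2]
    calc (bw G n : ℝ) * VV G n * UU G n β (j - 1)
        ≤ x ^ gg G * (2 * x ^ (kap G / 8)) * (2 * x ^ u) := by gcongr
      _ = 4 * (x ^ gg G * x ^ (kap G / 8) * x ^ u) := by ring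
  have hm2 : P * (mu G n j : ℝ) ^ 2 * S ≤ 16 * x * W := by
    have e1 : (mu G n j : ℝ) ^ 2 ≤ (4 * x ^ (gg G + kap G / 8 + u)) ^ 2 := by gcongr
    have e2 : (4 * x ^ (gg G + kap G / 8 + u)) ^ 2 = 16 * x ^ (2 * (gg G + kap G / 8 + u)) := by
      rw [mul_pow, ← Real.rpow_natCast (x ^ (gg G + kap G / 8 + u)), ← Real.rpow_mul hx0.le]
      norm_num
      ring_nf
    rw [e2] at e1
    calc P * (mu G n j : ℝ) ^ 2 * S ≤ P * (16 * x ^ (2 * (gg G + kap G / 8 + u))) * S := by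
          gcongr
      _ = 16 * (P * x ^ (2 * (gg G + kap G / 8 + u)) * S) := by ring
      _ = 16 * x ^ (gg G * j / 3 + 2 * dd G + 2 * (gg G + kap G / 8 + u) + gg G / 2) := by
          rw [Real.rpow_add hx0, Real.rpow_add hx0]
      _ ≤ 16 * x ^ (1 + (u + kap G / 2)) := by
          apply mul_le_mul_of_nonneg_left _ (by norm_num)
          apply Real.rpow_le_rpow_of_exponent_le hx1
          rw [hu']
          linarith
      _ = 16 * x * W := by
          rw [Real.rpow_add hx0, Real.rpow_one]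
          ring
  have hPS : P * S ≤ W := by
    rw [hP, hS, hW, ← Real.rpow_add hx0]
    apply Real.rpow_le_rpow_of_exponent_le hx1
    rw [hu']
    linarith
  have hWS : W * S ≤ x := by
    calc W * S = x ^ (u + kap G / 2 + gg G / 2) := by rw [hW, hS, ← Real.rpow_add hx0]
      _ ≤ x ^ (1 : ℝ) := by
          apply Real.rpow_le_rpow_of_exponent_le hx1
          rw [hu']
          linarith
      _ = x := Real.rpow_one x
  have hD : W ≤ (DD G n j : ℝ) := by
    have e1 : W ≤ (⌈(n : ℝ) ^ (u + kap G / 2)⌉₊ : ℝ) := Nat.le_ceil _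
    have e2 : (DD G n j : ℝ) = (⌈(n : ℝ) ^ (u + kap G / 2)⌉₊ : ℝ) + 1 := by
      rw [DD, ← hβ, ← hu]
      push_cast
      ring
    rw [e2]
    linarith
  have hel : W ≤ (el G n j : ℝ) := by
    have e1 : W ≤ x ^ ue G β j := Real.rpow_le_rpow_of_exponent_le hx1 huj
    have e2 : x ^ ue G β j ≤ (UU G n β j : ℝ) := Nat.le_ceil _
    have e3 : (el G n j : ℝ) = (UU G n β j : ℝ) + 1 := by
      rw [el, ← hβ]
      push_cast
      ring
    rw [e3]
    linarith
  have hr1 : ((2 ^ k / el G n j : ℕ) : ℝ) ≤ 2 ^ k / W := by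
    have := Nat.cast_div_le (α := ℝ) (m := 2 ^ k) (n := el G n j)
    push_cast at this
    refine this.trans ?_
    gcongr
  have hr2 : ((2 ^ k / DD G n j : ℕ) : ℝ) ≤ 2 ^ k / W := by
    have := Nat.cast_div_le (α := ℝ) (m := 2 ^ k) (n := DD G n j)
    push_cast at this
    refine this.trans ?_
    gcongr
  have hvF : (0 : ℝ) < 640 * v * F := by positivity
  have hCL : C0 ≤ C0 * Real.log x := le_mul_of_one_le_right (by linarith) hL
  have h3' : 640 * (v : ℝ) * F * (C0 * Real.log x) ≤ S := by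
    calc 640 * (v : ℝ) * F * (C0 * Real.log x) = 640 * v * F * C0 * Real.log x := by ring
      _ ≤ S := h3
  have hS4 : 4 * (v : ℝ) ≤ S := by
    calc 4 * (v : ℝ) ≤ 640 * v * F * (C0 * Real.log x) := by
          have e1 : (1 : ℝ) ≤ F * (C0 * Real.log x) :=
            one_le_mul_of_one_le_of_one_le hF1 (hC1.trans hCL)
          have e2 : (v : ℝ) * 1 ≤ v * (F * (C0 * Real.log x)) :=
            mul_le_mul_of_nonneg_left e1 hv'.le
          linarith
      _ ≤ S := h3'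
  have hMW : 1 ≤ 2 ^ k / W := by
    rw [le_div_iff₀ hW0, one_mul]
    have e1 : W * (4 * v) ≤ 2 ^ k * (4 * v) := by
      calc W * (4 * v) ≤ W * S := by gcongr
        _ ≤ x := hWS
        _ ≤ 4 * v * 2 ^ k := hM
        _ = 2 ^ k * (4 * v) := by ring
    exact le_of_mul_le_mul_right e1 (by positivity)
  have hwm : wm G n k j = 2 * (mu G n j : ℝ) ^ 2 / 2 ^ k + 8 := rfl
  have hwm0 : 0 ≤ wm G n k j := by
    rw [hwm]
    positivity
  have key : ∀ t : ℝ, 0 ≤ t → 640 * (v : ℝ) * F * t ≤ S →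
      4 * (Qv G n j : ℝ) * wm G n k j * (2 ^ k / W * t) ≤ 2 ^ k / F := by
    intro t ht htS
    rw [hwm]
    exact nb_core x P W S (2 ^ k) (Qv G n j) (mu G n j) F v t hx0 hP0.le hW0 hS0 hM0 hMx hM
      hF' hv' hQ hm2 hPS ht htS
  refine ⟨?_, ?_⟩
  · have e0 : 640 * (v : ℝ) * F * 1 ≤ S :=
      (mul_le_mul_of_nonneg_left (hC1.trans hCL) hvF.le).trans h3'
    have e1 := key 1 (by norm_num) e0
    refine le_trans ?_ e1
    calc 4 * (Qv G n j : ℝ) * (((2 ^ k / el G n j : ℕ) : ℝ) * wm G n k j)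
        = 4 * (Qv G n j : ℝ) * wm G n k j * ((2 ^ k / el G n j : ℕ) : ℝ) := by ring
      _ ≤ 4 * (Qv G n j : ℝ) * wm G n k j * (2 ^ k / W * 1) := by
          rw [mul_one]
          gcongr
  · have hfl1 : (1 : ℝ) ≤ (⌊x ^ A⌋₊ : ℝ) := by
      have : 1 ≤ ⌊x ^ A⌋₊ := Nat.le_floor (by simpa using Real.one_le_rpow hx1 hA.le)
      exact_mod_cast this
    have hfl2 : (⌊x ^ A⌋₊ : ℝ) ≤ x ^ A := Nat.floor_le (by positivity)
    have hL0 : 0 ≤ Real.log (⌊x ^ A⌋₊ * (2 ^ k + 1) ^ 2) := by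
      apply Real.log_nonneg
      exact one_le_mul_of_one_le_of_one_le hfl1 (one_le_pow₀ (by linarith))
    have hLL : Real.log (⌊x ^ A⌋₊ * (2 ^ k + 1) ^ 2) ≤ (A + 4) * Real.log x := by
      have c1 : Real.log (⌊x ^ A⌋₊ * (2 ^ k + 1) ^ 2) ≤ Real.log (x ^ A * (x ^ 2) ^ 2) := by
        apply Real.log_le_log (by positivity)
        gcongr
        have c0 : 2 * x ≤ x * x := mul_le_mul_of_nonneg_right hx2 hx0.le
        rw [pow_two]
        linarith
      have c2 : Real.log (x ^ A * (x ^ 2) ^ 2) = (A + 4) * Real.log x := by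
        rw [Real.log_mul (by positivity) (by positivity), Real.log_rpow hx0, ← pow_mul,
          Real.log_pow]
        push_cast; ring
      linarith
    have e1 := key (C0 * Real.log x) (by positivity) h3'
    refine le_trans ?_ e1
    apply mul_le_mul_of_nonneg_left _ (by positivity)
    have e2 : (((2 ^ k / el G n j + B * (2 ^ k / DD G n j) : ℕ) : ℝ)) ≤
        ((B : ℝ) + 1) * (2 ^ k / W) := by
      have : (((2 ^ k / el G n j + B * (2 ^ k / DD G n j) : ℕ) : ℝ)) =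
          ((2 ^ k / el G n j : ℕ) : ℝ) + B * ((2 ^ k / DD G n j : ℕ) : ℝ) := by
        push_cast
        ring
      rw [this]
      have h5 : (B : ℝ) * ((2 ^ k / DD G n j : ℕ) : ℝ) ≤ B * (2 ^ k / W) := by gcongr
      linarith
    have e3 : (((2 ^ k / el G n j + B * (2 ^ k / DD G n j) : ℕ) : ℝ)) *
        Real.log (⌊x ^ A⌋₊ * (2 ^ k + 1) ^ 2) ≤
        ((B : ℝ) + 1) * (2 ^ k / W) * ((A + 4) * Real.log x) := by
      apply mul_le_mul e2 hLL hL0
      positivity
    have e4 : Real.log (4 * F) ≤ 2 ^ k / W * (Real.log (4 * F) * Real.log x) := by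
      calc Real.log (4 * F) = 1 * (Real.log (4 * F) * 1) := by ring
        _ ≤ 2 ^ k / W * (Real.log (4 * F) * Real.log x) := by gcongr
    have e5 : 0 ≤ 2 ^ k / W * Real.log x := by positivity
    calc (((2 ^ k / el G n j + B * (2 ^ k / DD G n j) : ℕ) : ℝ)) *
          Real.log (⌊x ^ A⌋₊ * (2 ^ k + 1) ^ 2) + Real.log (4 * F)
        ≤ ((B : ℝ) + 1) * (2 ^ k / W) * ((A + 4) * Real.log x) +
          2 ^ k / W * (Real.log (4 * F) * Real.log x) := add_le_add e3 e4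
      _ ≤ ((B : ℝ) + 1) * (2 ^ k / W) * ((A + 4) * Real.log x) +
          2 ^ k / W * (Real.log (4 * F) * Real.log x) + 2 ^ k / W * Real.log x := by linarith
      _ = 2 ^ k / W * (C0 * Real.log x) := by
          rw [hC0]
          ring

end Pool.Agent.UCV
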