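import Pool.Agent.UCV.NumPat

/-!
# UCV NumLev: elementary parameters; list of growth estimates

PROOF (see `Pool/Agent/UCT/NumLevels.lean`, helper63). Write `g = gg G`, `κ = kap G = g ^ 2 / 2`,
`d = dd G = g ^ 2 / 32`, all positive. `n` large depending on `G`, `B`, `A`. Use
`⌈y⌉₊ ≤ 2 y` and `y / 2 ≤ ⌊y⌋₊` for `y ≥ 1`.
(1) `0 < bw` as `n ^ g ≥ 1`. (2) `bw ^ j ≤ n ^ (g j)`, `lm ^ 3 ≥ n ^ (g j + 3 d)`,
`n ^ (3 d) > 108`.
(3) `0 < Qv`. (4) `2 ≤ DD` and `UU β' (j - 1) < DD j` for `β' = !chi G j`: clear (`⌈⌉₊` is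
monotone). (5) if `chi G j = β` (own level) then `ue β j = ue β (j - 1) + g + κ` (`cnt_succ`), so
`bw VV (UU β (j - 1)) ≤ n ^ g (2 n ^ (κ / 8)) (2 n ^ ue β (j - 1)) ≤ n ^ ue β j` for
`n ^ (7 κ / 8) ≥ 4`. (6) if `β' = !chi G j` then `ue β' j = ue β' (j - 1) + κ`, so
`VV (B DD + 1) ≤ 2 n ^ (κ / 8) (3 B + 1) n ^ (ue β' (j - 1) + κ / 2) ≤ n ^ ue β' j ≤ el j`.
-/

set_option autoImplicit false

namespace Pool.Agent.UCV

open Filter

private theorem ceil_le_two {x : ℝ} (hx : 1 ≤ x) : (⌈x⌉₊ : ℝ) ≤ 2 * x := by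
  have h1 : (⌈x⌉₊ : ℝ) < x + 1 := Nat.ceil_lt_add_one (by linarith)
  linarith

private theorem ev_ge (e B : ℝ) (he : 0 < e) : ∀ᶠ n : ℕ in atTop, B < (n : ℝ) ^ e := by
  have h1 : Tendsto (fun n : ℕ => (n : ℝ) ^ e) atTop atTop :=
    (tendsto_rpow_atTop he).comp tendsto_natCast_atTop_atTop
  exact h1.eventually_gt_atTop B

/-- `B x ^ a ≤ x ^ b` if `B < x ^ e` and `a + e ≤ b` -/
private theorem pow_cmp {x a b e B : ℝ} (hx : 1 ≤ x) (hB : B < x ^ e) (h : a + e ≤ b) :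
    B * x ^ a ≤ x ^ b := by
  have hx0 : 0 < x := by linarith
  calc B * x ^ a ≤ x ^ e * x ^ a :=
        mul_le_mul_of_nonneg_right hB.le (Real.rpow_pos_of_pos hx0 a).le
    _ = x ^ (e + a) := (Real.rpow_add hx0 e a).symm
    _ ≤ x ^ b := Real.rpow_le_rpow_of_exponent_le hx (by linarith)

private theorem ue_succ (G : ℕ) (β : Bool) (j : ℕ) :
    ue G β (j + 1) = ue G β j + (if chi G (j + 1) = β then gg G else 0) + kap G := by
  unfold ue
  rw [cnt_succ]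
  split_ifs
  · push_cast
    ring
  · push_cast
    ring

theorem num_lev (G B : ℕ) (hG : 4 ≤ G) :
    ∀ᶠ n : ℕ in atTop, ∀ j, 1 ≤ j → j ≤ 72 * G - 80 →
      0 < bw G n ∧ 0 < VV G n ∧ 108 * bw G n ^ j < lm G n j ^ 3 ∧ 0 < Qv G n j ∧
      2 ≤ DD G n j ∧ UU G n (!chi G j) (j - 1) < DD G n j ∧
      (∀ β, chi G j = β → bw G n * VV G n * UU G n β (j - 1) ≤ UU G n β j) ∧
      VV G n * (B * DD G n j + 1) ≤ el G n j := by
  have hGr : (0 : ℝ) < G := by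
    have : 0 < G := by omega
    exact_mod_cast this
  have hg : 0 < gg G := by unfold gg; positivity
  have hk : 0 < kap G := by unfold kap; positivity
  have hd : 0 < dd G := by unfold dd; positivity
  have hue : ∀ (β : Bool) (i : ℕ), 0 ≤ ue G β i := by
    intro β i
    unfold ue
    positivity
  have e1 := ev_ge (3 * dd G) 108 (by linarith)
  have e2 := ev_ge (7 * kap G / 8) 4 (by linarith)
  have e3 := ev_ge (3 * kap G / 8) (2 * (3 * B + 1)) (by linarith)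
  filter_upwards [e1, e2, e3, eventually_ge_atTop 1] with n h1 h2 h3 hn
  intro j hj _
  obtain ⟨i, rfl⟩ : ∃ i, j = i + 1 := ⟨j - 1, by omega⟩
  rw [Nat.add_sub_cancel]
  have hn1 : (1 : ℝ) ≤ n := by exact_mod_cast hn
  have hn0 : (0 : ℝ) < n := by linarith
  have hge : ∀ a : ℝ, 0 ≤ a → (1 : ℝ) ≤ (n : ℝ) ^ a := fun a ha => Real.one_le_rpow hn1 ha
  have hrp : ∀ a : ℝ, 0 < (n : ℝ) ^ a := fun a => Real.rpow_pos_of_pos hn0 a
  have hb0 : 0 < bw G n := Nat.floor_pos.2 (hge _ hg.le)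
  have hbu : (bw G n : ℝ) ≤ (n : ℝ) ^ gg G := Nat.floor_le (hrp _).le
  have hV0 : 0 < VV G n := Nat.ceil_pos.2 (hrp _)
  have hVu : (VV G n : ℝ) ≤ 2 * (n : ℝ) ^ (kap G / 8) := ceil_le_two (hge _ (by linarith))
  have hUu : ∀ (β : Bool) (a : ℕ), (UU G n β a : ℝ) ≤ 2 * (n : ℝ) ^ ue G β a := fun β a =>
    ceil_le_two (hge _ (hue β a))
  have hUl : ∀ (β : Bool) (a : ℕ), (n : ℝ) ^ ue G β a ≤ (UU G n β a : ℝ) := fun β a =>
    Nat.le_ceil _
  have he0 : 0 ≤ ue G (!chi G (i + 1)) i + kap G / 2 := by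
    have := hue (!chi G (i + 1)) i
    linarith
  refine ⟨hb0, hV0, ?_, ?_, ?_, ?_, ?_, ?_⟩
  · have h7 : (bw G n : ℝ) ^ (i + 1) ≤ ((n : ℝ) ^ gg G) ^ (i + 1) :=
      pow_le_pow_left₀ (Nat.cast_nonneg _) hbu _
    have h8 : ((n : ℝ) ^ (gg G * ((i + 1 : ℕ) : ℝ) / 3 + dd G)) ^ 3 ≤
        (lm G n (i + 1) : ℝ) ^ 3 :=
      pow_le_pow_left₀ (hrp _).le (Nat.le_ceil _) 3
    have h9 : ((n : ℝ) ^ (gg G * ((i + 1 : ℕ) : ℝ) / 3 + dd G)) ^ 3 =
        (n : ℝ) ^ (3 * dd G) * ((n : ℝ) ^ gg G) ^ (i + 1) := by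
      rw [← Real.rpow_natCast, ← Real.rpow_natCast, ← Real.rpow_mul hn0.le,
        ← Real.rpow_mul hn0.le, ← Real.rpow_add hn0]
      congr 1
      push_cast
      ring
    have h10 : (0 : ℝ) < ((n : ℝ) ^ gg G) ^ (i + 1) := pow_pos (hrp _) _
    have h11 : 108 * ((n : ℝ) ^ gg G) ^ (i + 1) <
        (n : ℝ) ^ (3 * dd G) * ((n : ℝ) ^ gg G) ^ (i + 1) := mul_lt_mul_of_pos_right h1 h10
    have h12 : 108 * (bw G n : ℝ) ^ (i + 1) < (lm G n (i + 1) : ℝ) ^ 3 := by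
      rw [h9] at h8
      linarith
    exact_mod_cast h12
  · exact Nat.floor_pos.2 (hge _ (by positivity))
  · have h7 : 0 < ⌈(n : ℝ) ^ (ue G (!chi G (i + 1)) (i + 1 - 1) + kap G / 2)⌉₊ :=
      Nat.ceil_pos.2 (hrp _)
    unfold DD
    omega
  · have h7 : UU G n (!chi G (i + 1)) i ≤
        ⌈(n : ℝ) ^ (ue G (!chi G (i + 1)) (i + 1 - 1) + kap G / 2)⌉₊ := by
      unfold UU
      refine Nat.ceil_le_ceil (Real.rpow_le_rpow_of_exponent_le hn1 ?_)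
      rw [Nat.add_sub_cancel]
      linarith
    unfold DD
    omega
  · intro β hβ
    have h7 : ue G β (i + 1) = ue G β i + gg G + kap G := by
      rw [ue_succ, if_pos hβ]
    have h8 : 4 * (n : ℝ) ^ (gg G + kap G / 8 + ue G β i) ≤ (n : ℝ) ^ ue G β (i + 1) :=
      pow_cmp hn1 h2 (by rw [h7]; linarith)
    have h9 : (n : ℝ) ^ (gg G + kap G / 8 + ue G β i) =
        (n : ℝ) ^ gg G * (n : ℝ) ^ (kap G / 8) * (n : ℝ) ^ ue G β i := by
      rw [Real.rpow_add hn0, Real.rpow_add hn0]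
    have h10 : (bw G n : ℝ) * VV G n ≤ (n : ℝ) ^ gg G * (2 * (n : ℝ) ^ (kap G / 8)) :=
      mul_le_mul hbu hVu (Nat.cast_nonneg _) (hrp _).le
    have h11 : (bw G n : ℝ) * VV G n * UU G n β i ≤
        (n : ℝ) ^ gg G * (2 * (n : ℝ) ^ (kap G / 8)) * (2 * (n : ℝ) ^ ue G β i) :=
      mul_le_mul h10 (hUu β i) (Nat.cast_nonneg _)
        (mul_pos (hrp _) (mul_pos two_pos (hrp _))).le
    have h12 : (bw G n : ℝ) * VV G n * UU G n β i ≤ (UU G n β (i + 1) : ℝ) := by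
      refine le_trans h11 (le_trans (le_of_eq ?_) (le_trans h8 (hUl β (i + 1))))
      rw [h9]
      ring
    exact_mod_cast h12
  · have hne : ¬ chi G (i + 1) = !chi G (i + 1) := by
      cases chi G (i + 1) <;> simp
    have h7 : ue G (!chi G (i + 1)) (i + 1) = ue G (!chi G (i + 1)) i + kap G := by
      rw [ue_succ, if_neg hne]
      ring
    have h8 : 2 * (3 * (B : ℝ) + 1) * (n : ℝ) ^ (kap G / 8 + (ue G (!chi G (i + 1)) i +
        kap G / 2)) ≤ (n : ℝ) ^ ue G (!chi G (i + 1)) (i + 1) :=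
      pow_cmp hn1 h3 (by rw [h7]; linarith)
    rw [Real.rpow_add hn0 (kap G / 8)] at h8
    have hX := hge _ he0
    have h9 : (DD G n (i + 1) : ℝ) ≤
        3 * (n : ℝ) ^ (ue G (!chi G (i + 1)) i + kap G / 2) := by
      have h10 := ceil_le_two hX
      unfold DD
      rw [Nat.add_sub_cancel]
      push_cast
      linarith
    have hB0 : (0 : ℝ) ≤ B := Nat.cast_nonneg B
    have h10 : (B : ℝ) * DD G n (i + 1) + 1 ≤
        (3 * B + 1) * (n : ℝ) ^ (ue G (!chi G (i + 1)) i + kap G / 2) := by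
      have h11 := mul_le_mul_of_nonneg_left h9 hB0
      linarith
    have h12 : (VV G n : ℝ) * (B * DD G n (i + 1) + 1) ≤ 2 * (n : ℝ) ^ (kap G / 8) *
        ((3 * B + 1) * (n : ℝ) ^ (ue G (!chi G (i + 1)) i + kap G / 2)) :=
      mul_le_mul hVu h10 (by positivity) (mul_pos two_pos (hrp _)).le
    have h13 : (VV G n : ℝ) * (B * DD G n (i + 1) + 1) ≤
        (UU G n (!chi G (i + 1)) (i + 1) : ℝ) := by
      refine le_trans h12 (le_trans (le_of_eq ?_) (le_trans h8 (hUl _ _)))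
      ring
    have h14 : VV G n * (B * DD G n (i + 1) + 1) ≤ UU G n (!chi G (i + 1)) (i + 1) := by
      exact_mod_cast h13
    unfold el
    omega

end Pool.Agent.UCV
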