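import Mathlib

/-!
# UCV NumRed: the parameters `p` (prime), `t = 5 p` and `h`

PROOF. Adapt `Pool/Agent/UCT/NumRed.lean` (helper19). Take `K` with `A < K d`, `h = 5 p K` and `p`
a prime with `p ≥ 10 s K + 5` (`Nat.exists_infinite_primes`), so `s (2 h) = 10 s K p ≤ p ^ 2`. The
asymptotic inequality: left side `≤ C n ^ (A t) (n ^ (α + d)) ^ h`, right side
`≥ (n ^ (α + 2 d) / 2) ^ h`, and `A t < d h = d K t` for `t = 5 p`.
-/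

set_option autoImplicit false

namespace Pool.Agent.UCV

open Filter

private lemma floor_half (y : ℝ) (hy : 1 ≤ y) : y / 2 ≤ (⌊y⌋₊ : ℝ) := by
  have h1 : (1 : ℝ) ≤ ⌊y⌋₊ := by
    have : 1 ≤ ⌊y⌋₊ := Nat.le_floor (by exact_mod_cast hy)
    exact_mod_cast this
  have h2 := Nat.lt_floor_add_one y
  linarith

private lemma ceil_two (y : ℝ) (hy : 1 ≤ y) : (⌈y⌉₊ : ℝ) ≤ 2 * y := by
  have h2 := Nat.ceil_lt_add_one (le_trans zero_le_one hy)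
  linarith

private lemma num_key (t h T : ℕ) (A d α x : ℝ) (hα : 0 ≤ α) (hd : 0 < d) (hx : 1 ≤ x)
    (hC : 4 * 2 ^ t * 4 ^ T * 160 ^ h ≤ x ^ (d * h - A * t)) :
    (4 : ℝ) * (2 * (⌊x ^ A⌋₊ : ℝ)) ^ t * 4 ^ T * (40 * (⌈x ^ (α + d)⌉₊ : ℝ)) ^ h ≤
      (⌊x ^ (α + 2 * d)⌋₊ : ℝ) ^ h := by
  have hx0 : (0 : ℝ) < x := by linarith
  have hA : (⌊x ^ A⌋₊ : ℝ) ≤ x ^ A := Nat.floor_le (by positivity)
  have hB : (⌈x ^ (α + d)⌉₊ : ℝ) ≤ 2 * x ^ (α + d) :=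
    ceil_two _ (Real.one_le_rpow hx (by linarith))
  have hD : x ^ (α + 2 * d) / 2 ≤ (⌊x ^ (α + 2 * d)⌋₊ : ℝ) :=
    floor_half _ (Real.one_le_rpow hx (by linarith))
  have e1 : (x ^ A) ^ t = x ^ (A * t) := by
    rw [← Real.rpow_natCast, ← Real.rpow_mul hx0.le]
  have e2 : (x ^ (α + d)) ^ h = x ^ ((α + d) * h) := by
    rw [← Real.rpow_natCast, ← Real.rpow_mul hx0.le]
  have e3 : (x ^ (α + 2 * d)) ^ h = x ^ ((α + 2 * d) * h) := by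
    rw [← Real.rpow_natCast, ← Real.rpow_mul hx0.le]
  have e4 : x ^ (d * h - A * t) * x ^ (A * t) * x ^ ((α + d) * h) =
      x ^ ((α + 2 * d) * h) := by
    rw [← Real.rpow_add hx0, ← Real.rpow_add hx0]
    congr 1
    ring
  calc (4 : ℝ) * (2 * (⌊x ^ A⌋₊ : ℝ)) ^ t * 4 ^ T * (40 * (⌈x ^ (α + d)⌉₊ : ℝ)) ^ h
      ≤ 4 * (2 * x ^ A) ^ t * 4 ^ T * (40 * (2 * x ^ (α + d))) ^ h := by gcongr
    _ = (4 * 2 ^ t * 4 ^ T * 160 ^ h) * x ^ (A * t) * x ^ ((α + d) * h) / 2 ^ h := by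
        have e5 : (160 : ℝ) ^ h = 80 ^ h * 2 ^ h := by
          rw [← mul_pow]
          norm_num
        have e6 : (40 * (2 * x ^ (α + d))) ^ h = 80 ^ h * (x ^ (α + d)) ^ h := by
          rw [← mul_pow]
          ring
        rw [mul_pow 2 (x ^ A) t, e6, e1, e2, e5]
        field_simp
    _ ≤ x ^ (d * h - A * t) * x ^ (A * t) * x ^ ((α + d) * h) / 2 ^ h := by
        gcongr
    _ = (x ^ (α + 2 * d) / 2) ^ h := by
        rw [e4, div_pow, e3]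
    _ ≤ (⌊x ^ (α + 2 * d)⌋₊ : ℝ) ^ h := by
        gcongr

theorem num_red (s : ℕ) (A d : ℝ) (hA : 0 < A) (hd : 0 < d) :
    ∃ p h : ℕ, p.Prime ∧ 5 ≤ p ∧ 0 < h ∧ s * (2 * h) ≤ p ^ 2 ∧ ∀ α : ℝ, 0 ≤ α →
      ∀ᶠ n : ℕ in atTop, 4 * (2 * ⌊(n : ℝ) ^ A⌋₊) ^ (5 * p) * 4 ^ (5 * p * (5 * p - 1) / 2) *
        (40 * ⌈(n : ℝ) ^ (α + d)⌉₊) ^ h ≤ ⌊(n : ℝ) ^ (α + 2 * d)⌋₊ ^ h := by
  obtain ⟨K, hK⟩ := exists_nat_gt (A / d)
  have hK1 : A < K * d := (div_lt_iff₀ hd).mp hK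
  have hK0 : 0 < K := by
    have : (0 : ℝ) < K := lt_trans (by positivity) hK
    exact_mod_cast this
  obtain ⟨p, hp1, hp⟩ := Nat.exists_infinite_primes (10 * s * K + 5)
  have hp0 : 0 < 5 * p := by omega
  refine ⟨p, K * (5 * p), hp, by omega, Nat.mul_pos hK0 hp0, ?_, ?_⟩
  · have h1 : s * (2 * (K * (5 * p))) = (10 * s * K) * p := by ring
    rw [h1, pow_two]
    exact Nat.mul_le_mul_right _ (by omega)
  · intro α hα
    have htpos : (0 : ℝ) < ((5 * p : ℕ) : ℝ) := by exact_mod_cast hp0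
    have hexp : 0 < d * ((K * (5 * p) : ℕ) : ℝ) - A * ((5 * p : ℕ) : ℝ) := by
      have h2 : ((K * (5 * p) : ℕ) : ℝ) = (K : ℝ) * ((5 * p : ℕ) : ℝ) := by push_cast; ring
      rw [h2]
      nlinarith
    have hev : ∀ᶠ n : ℕ in atTop,
        (4 * 2 ^ (5 * p) * 4 ^ (5 * p * (5 * p - 1) / 2) * 160 ^ (K * (5 * p)) : ℝ) ≤
          (n : ℝ) ^ (d * ((K * (5 * p) : ℕ) : ℝ) - A * ((5 * p : ℕ) : ℝ)) :=
      ((tendsto_rpow_atTop hexp).comp tendsto_natCast_atTop_atTop).eventually_ge_atTop _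
    filter_upwards [hev, eventually_ge_atTop 1] with n hn hn1
    have hx1 : (1 : ℝ) ≤ n := by exact_mod_cast hn1
    have key := num_key (5 * p) (K * (5 * p)) (5 * p * (5 * p - 1) / 2) A d α n hα hd hx1 hn
    exact_mod_cast key

end Pool.Agent.UCV
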