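import Pool.Agent.UCV.NumPat

/-!
# UCV NumThin: choice of the level for a real `x`

PROOF (see `Pool/Agent/UCT/NumThin.lean`, helper52). Write `g = gg G = 1 / (48 G)`, `b = bw G n`,
`n ^ g / 2 ≤ b ≤ n ^ g` (`n` large), so `n ^ (g j) / 2 ^ j ≤ b ^ j`; `J = 72 G - 80`,
`g J = 3 / 2 - 80 g`, and `n ^ (3 / 2 - δ) ≤ n ^ (g J) / 2 ^ J ≤ b ^ J` as `δ ≥ 100 g`. Let `j` be
least with `x ≤ b ^ j`; `j ≤ J`. `UU G n false j ≤ 2 n ^ u`, `u = g (4 + c) + κ j ≤ g (5 + c)`,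
`c = cnt G false j` (`κ j ≤ 3 g / 4`). If `j = 0` then `x = 1`, `c = 0`, `rho ≥ x ^ (1/3) = 1`,
`δ > 5 g`. If `1 ≤ j ≤ 45 G` then `x > b ^ (j - 1)`, `x ^ (1/3) ≥ n ^ (g (j - 1) / 3) / 2 ^ J`,
`3 c ≤ j + 2`, so `u ≤ g (j - 1) / 3 + 6 g`. If `j > 45 G` then `c ≤ j - 30 G`, `c ≤ 24 G`,
`30 G g = 5 / 8`, `24 G g = 1 / 2`, so `u ≤ 5 g + min (g j - 5 / 8) (1 / 2)`, and
`x / n ^ (5 / 8) > n ^ (g (j - 1) - 5 / 8) / 2 ^ J`. In all cases `n ^ δ rho` is larger than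
`n ^ u` times `n ^ (δ - 7 g) / 2 ^ J ≥ 24 w`.
-/

set_option autoImplicit false

namespace Pool.Agent.UCV

open Filter

/-- the bound for the number of near edges -/
noncomputable def rho (n : ℕ) (x : ℝ) : ℝ :=
  max (x ^ (1 / 3 : ℝ)) (min (x / (n : ℝ) ^ (5 / 8 : ℝ)) ((n : ℝ) ^ (1 / 2 : ℝ)))

private theorem pow_lt (a b C : ℝ) (h : a < b) :
    ∀ᶠ n : ℕ in atTop, C * (n : ℝ) ^ a < (n : ℝ) ^ b := by
  have h1 : Tendsto (fun n : ℕ => (n : ℝ) ^ (b - a)) atTop atTop :=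
    (tendsto_rpow_atTop (sub_pos.2 h)).comp tendsto_natCast_atTop_atTop
  filter_upwards [h1.eventually_gt_atTop C, eventually_gt_atTop 0] with n hn hn0
  have hp : (0 : ℝ) < n := by exact_mod_cast hn0
  have h2 : (n : ℝ) ^ b = (n : ℝ) ^ (b - a) * (n : ℝ) ^ a := by
    rw [← Real.rpow_add hp]; congr 1; ring
  rw [h2]
  exact mul_lt_mul_of_pos_right hn (Real.rpow_pos_of_pos hp a)

private theorem UU_le (G n j : ℕ) (hG : 4 ≤ G) (hn : 1 ≤ n) (hj : j ≤ 72 * G - 80) :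
    ((UU G n false j : ℕ) : ℝ) + 1 ≤
      3 * (n : ℝ) ^ (gg G * (5 + (cnt G false j : ℕ))) := by
  have hn1 : (1 : ℝ) ≤ n := by exact_mod_cast hn
  have hGR : (0 : ℝ) < G := by exact_mod_cast (by omega : 0 < G)
  have hg : 0 < gg G := by
    unfold gg
    positivity
  have h48 : gg G * (48 * G) = 1 := by
    unfold gg
    field_simp
  have hkj : kap G * (j : ℝ) ≤ gg G := by
    have h1 : (j : ℝ) ≤ 72 * G := by
      have : j ≤ 72 * G := le_trans hj (Nat.sub_le _ _)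
      exact_mod_cast this
    have h2 : kap G * (j : ℝ) ≤ kap G * (72 * G) := by
      apply mul_le_mul_of_nonneg_left h1
      unfold kap
      positivity
    have h3 : kap G * (72 * G) = gg G * (gg G * (48 * G)) * (3 / 4) := by
      unfold kap
      ring
    rw [h48] at h3
    linarith
  have hue : ue G false j ≤ gg G * (5 + (cnt G false j : ℕ)) := by
    unfold ue
    linarith
  have h4 : (n : ℝ) ^ (ue G false j) ≤ (n : ℝ) ^ (gg G * (5 + (cnt G false j : ℕ))) :=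
    Real.rpow_le_rpow_of_exponent_le hn1 hue
  have h5 : ((UU G n false j : ℕ) : ℝ) < (n : ℝ) ^ (ue G false j) + 1 := by
    unfold UU
    exact Nat.ceil_lt_add_one (Real.rpow_nonneg (by linarith) _)
  have h6 : (1 : ℝ) ≤ (n : ℝ) ^ (gg G * (5 + (cnt G false j : ℕ))) :=
    Real.one_le_rpow hn1 (by positivity)
  linarith

theorem num_thin (δ : ℝ) (G w : ℕ) (hG : 4 ≤ G) (hδ : 100 * gg G ≤ δ) :
    ∀ᶠ n : ℕ in atTop, ∀ x : ℝ, 1 ≤ x → x ≤ (n : ℝ) ^ (3 / 2 - δ) →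
      ∃ j ≤ 72 * G - 80, x ≤ ((bw G n ^ j : ℕ) : ℝ) ∧
        6 * w * (UU G n false j + 1) ≤ ⌊(n : ℝ) ^ δ * rho n x⌋₊ := by
  have hGR : (0 : ℝ) < G := by exact_mod_cast (by omega : 0 < G)
  have hg : 0 < gg G := by
    unfold gg
    positivity
  have h48 : gg G * (48 * G) = 1 := by
    unfold gg
    field_simp
  have hJR : ((72 * G - 80 : ℕ) : ℝ) = 72 * G - 80 := by
    rw [Nat.cast_sub (by omega)]
    push_cast
    ring
  have hgJ : ((72 * G - 80 : ℕ) : ℝ) * gg G = 3 / 2 - 80 * gg G := by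
    rw [hJR]
    have : (72 * (G : ℝ) - 80) * gg G = 3 / 2 * (gg G * (48 * G)) - 80 * gg G := by ring
    rw [this, h48]
    ring
  have e1 := pow_lt (3 / 2 - δ) (3 / 2 - 80 * gg G) (2 ^ (72 * G - 80)) (by linarith)
  have e2 := pow_lt (6 * gg G) δ (18 * w * 2 ^ (72 * G - 80)) (by linarith)
  filter_upwards [e1, e2, eventually_ge_atTop 1] with n h1 h2 h3
  intro x hx1 hx2
  have hn1 : (1 : ℝ) ≤ n := by exact_mod_cast h3
  have hn0 : (0 : ℝ) < n := by linarith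
  have hx0 : (0 : ℝ) < x := by linarith
  have hb2 : (n : ℝ) ^ gg G ≤ 2 * (bw G n : ℝ) := by
    have hnd : (1 : ℝ) ≤ (n : ℝ) ^ gg G := Real.one_le_rpow hn1 hg.le
    have hb1 : 1 ≤ bw G n := Nat.le_floor (by simpa using hnd)
    have hb1r : (1 : ℝ) ≤ (bw G n : ℝ) := by exact_mod_cast hb1
    have h4 : (n : ℝ) ^ gg G < (bw G n : ℝ) + 1 := Nat.lt_floor_add_one ((n : ℝ) ^ gg G)
    linarith
  have hbj : ∀ j : ℕ, (n : ℝ) ^ ((j : ℝ) * gg G) ≤ 2 ^ j * ((bw G n ^ j : ℕ) : ℝ) := by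
    intro j
    have h4 : (n : ℝ) ^ ((j : ℝ) * gg G) = ((n : ℝ) ^ gg G) ^ j := by
      rw [mul_comm, Real.rpow_mul hn0.le, Real.rpow_natCast]
    rw [h4]
    push_cast
    rw [← mul_pow]
    exact pow_le_pow_left₀ (by positivity) hb2 j
  have hxK : x ≤ ((bw G n ^ (72 * G - 80) : ℕ) : ℝ) := by
    have h5 := hbj (72 * G - 80)
    rw [hgJ] at h5
    have h6 : (2 : ℝ) ^ (72 * G - 80) * (n : ℝ) ^ (3 / 2 - δ)
        ≤ 2 ^ (72 * G - 80) * ((bw G n ^ (72 * G - 80) : ℕ) : ℝ) := by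
      linarith
    have h7 := le_of_mul_le_mul_left h6 (by positivity)
    linarith
  classical
  have hex : ∃ j, x ≤ ((bw G n ^ j : ℕ) : ℝ) := ⟨72 * G - 80, hxK⟩
  obtain ⟨j, hj1, hjK, hjmin⟩ : ∃ j, x ≤ ((bw G n ^ j : ℕ) : ℝ) ∧ j ≤ 72 * G - 80 ∧
      ∀ i < j, ¬ x ≤ ((bw G n ^ i : ℕ) : ℝ) :=
    ⟨Nat.find hex, Nat.find_spec hex, Nat.find_min' hex hxK, fun i hi => Nat.find_min hex hi⟩
  have hX1 : (1 : ℝ) ≤ x ^ (1 / 3 : ℝ) := Real.one_le_rpow hx1 (by norm_num)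
  have h2K : (1 : ℝ) ≤ 2 ^ (72 * G - 80) := one_le_pow₀ (by norm_num)
  have hU := UU_le G n j hG h3 hjK
  obtain ⟨hc1, hc2⟩ := cnt_blue G hG j hjK
  have hw0 : (0 : ℝ) ≤ w := Nat.cast_nonneg w
  have key : 18 * (w : ℝ) * (n : ℝ) ^ (gg G * (5 + (cnt G false j : ℕ)))
      ≤ (n : ℝ) ^ δ * rho n x := by
    have hrho1 : x ^ (1 / 3 : ℝ) ≤ rho n x := le_max_left _ _
    have hrho2 : min (x / (n : ℝ) ^ (5 / 8 : ℝ)) ((n : ℝ) ^ (1 / 2 : ℝ)) ≤ rho n x :=
      le_max_right _ _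
    have hnδ : (0 : ℝ) < (n : ℝ) ^ δ := Real.rpow_pos_of_pos hn0 _
    rcases Nat.eq_zero_or_pos j with h0 | hpos
    · have hc : cnt G false j = 0 := by
        have := hc1 (by omega)
        omega
      rw [hc]
      have h4 : (n : ℝ) ^ (gg G * (5 + ((0 : ℕ) : ℝ))) ≤ (n : ℝ) ^ (6 * gg G) := by
        apply Real.rpow_le_rpow_of_exponent_le hn1
        push_cast
        linarith
      have h5 : 18 * (w : ℝ) * (n : ℝ) ^ (gg G * (5 + ((0 : ℕ) : ℝ)))
          ≤ 18 * w * 2 ^ (72 * G - 80) * (n : ℝ) ^ (6 * gg G) := by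
        have h6 : (0 : ℝ) ≤ (n : ℝ) ^ (6 * gg G) := by positivity
        calc 18 * (w : ℝ) * (n : ℝ) ^ (gg G * (5 + ((0 : ℕ) : ℝ)))
            ≤ 18 * (w : ℝ) * (n : ℝ) ^ (6 * gg G) := mul_le_mul_of_nonneg_left h4 (by positivity)
          _ = 18 * (w : ℝ) * 1 * (n : ℝ) ^ (6 * gg G) := by ring
          _ ≤ 18 * w * 2 ^ (72 * G - 80) * (n : ℝ) ^ (6 * gg G) := by
            apply mul_le_mul_of_nonneg_right _ h6
            exact mul_le_mul_of_nonneg_left h2K (by positivity)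
      have h7 : (n : ℝ) ^ δ ≤ (n : ℝ) ^ δ * rho n x :=
        le_mul_of_one_le_right hnδ.le (le_trans hX1 hrho1)
      linarith
    · obtain ⟨i, rfl⟩ : ∃ i, j = i + 1 := ⟨j - 1, by omega⟩
      have hlt : ((bw G n ^ i : ℕ) : ℝ) < x := not_le.mp (hjmin i (by omega))
      have h5 : (n : ℝ) ^ ((i : ℝ) * gg G) ≤ 2 ^ (72 * G - 80) * x := by
        have h6 : (2 : ℝ) ^ i ≤ 2 ^ (72 * G - 80) :=
          pow_le_pow_right₀ (by norm_num) (by omega)
        calc (n : ℝ) ^ ((i : ℝ) * gg G) ≤ 2 ^ i * ((bw G n ^ i : ℕ) : ℝ) := hbj i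
          _ ≤ 2 ^ (72 * G - 80) * x := by
            apply mul_le_mul h6 hlt.le (by positivity) (by positivity)
      rcases Nat.lt_or_ge (45 * G) (i + 1) with hbig | hsmall
      · obtain ⟨ha, hb⟩ := hc2 hbig
        have haR : ((cnt G false (i + 1) : ℕ) : ℝ) + 30 * G ≤ i + 1 := by exact_mod_cast ha
        have hbR : ((cnt G false (i + 1) : ℕ) : ℝ) ≤ 24 * G := by exact_mod_cast hb
        have h30 : gg G * (30 * G) = 5 / 8 := by
          have : gg G * (30 * G) = gg G * (48 * G) * (5 / 8) := by ring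
          rw [this, h48]
          ring
        have h24 : gg G * (24 * G) = 1 / 2 := by
          have : gg G * (24 * G) = gg G * (48 * G) * (1 / 2) := by ring
          rw [this, h48]
          ring
        refine le_trans ?_ (mul_le_mul_of_nonneg_left hrho2 hnδ.le)
        rcases le_total (x / (n : ℝ) ^ (5 / 8 : ℝ)) ((n : ℝ) ^ (1 / 2 : ℝ)) with hm | hm
        · rw [min_eq_left hm]
          have hexp : gg G * (5 + (cnt G false (i + 1) : ℕ))
              ≤ 6 * gg G + ((i : ℝ) * gg G + -(5 / 8)) := by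
            have := mul_le_mul_of_nonneg_left haR hg.le
            have h9 : gg G * (((cnt G false (i + 1) : ℕ) : ℝ) + 30 * G)
                = gg G * ((cnt G false (i + 1) : ℕ) : ℝ) + gg G * (30 * G) := by ring
            rw [h9, h30] at this
            linarith
          have h10 : (n : ℝ) ^ (gg G * (5 + (cnt G false (i + 1) : ℕ)))
              ≤ (n : ℝ) ^ (6 * gg G) * ((n : ℝ) ^ ((i : ℝ) * gg G) *
                ((n : ℝ) ^ (5 / 8 : ℝ))⁻¹) := by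
            rw [← Real.rpow_neg hn0.le, ← Real.rpow_add hn0, ← Real.rpow_add hn0]
            exact Real.rpow_le_rpow_of_exponent_le hn1 hexp
          calc 18 * (w : ℝ) * (n : ℝ) ^ (gg G * (5 + (cnt G false (i + 1) : ℕ)))
              ≤ 18 * (w : ℝ) * ((n : ℝ) ^ (6 * gg G) * ((n : ℝ) ^ ((i : ℝ) * gg G) *
                ((n : ℝ) ^ (5 / 8 : ℝ))⁻¹)) := mul_le_mul_of_nonneg_left h10 (by positivity)
            _ ≤ 18 * (w : ℝ) * ((n : ℝ) ^ (6 * gg G) * ((2 ^ (72 * G - 80) * x) *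
                ((n : ℝ) ^ (5 / 8 : ℝ))⁻¹)) := by
              apply mul_le_mul_of_nonneg_left _ (by positivity)
              apply mul_le_mul_of_nonneg_left _ (by positivity)
              exact mul_le_mul_of_nonneg_right h5 (by positivity)
            _ = (18 * (w : ℝ) * 2 ^ (72 * G - 80) * (n : ℝ) ^ (6 * gg G)) *
                (x / (n : ℝ) ^ (5 / 8 : ℝ)) := by
              rw [div_eq_mul_inv]
              ring
            _ ≤ (n : ℝ) ^ δ * (x / (n : ℝ) ^ (5 / 8 : ℝ)) :=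
              mul_le_mul_of_nonneg_right h2.le (by positivity)
        · rw [min_eq_right hm]
          have hexp : gg G * (5 + (cnt G false (i + 1) : ℕ)) ≤ 6 * gg G + 1 / 2 := by
            have := mul_le_mul_of_nonneg_left hbR hg.le
            rw [h24] at this
            linarith
          have h10 : (n : ℝ) ^ (gg G * (5 + (cnt G false (i + 1) : ℕ)))
              ≤ (n : ℝ) ^ (6 * gg G) * (n : ℝ) ^ (1 / 2 : ℝ) := by
            rw [← Real.rpow_add hn0]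
            exact Real.rpow_le_rpow_of_exponent_le hn1 hexp
          calc 18 * (w : ℝ) * (n : ℝ) ^ (gg G * (5 + (cnt G false (i + 1) : ℕ)))
              ≤ 18 * (w : ℝ) * ((n : ℝ) ^ (6 * gg G) * (n : ℝ) ^ (1 / 2 : ℝ)) :=
                mul_le_mul_of_nonneg_left h10 (by positivity)
            _ = 18 * (w : ℝ) * 1 * ((n : ℝ) ^ (6 * gg G) * (n : ℝ) ^ (1 / 2 : ℝ)) := by ring
            _ ≤ 18 * (w : ℝ) * 2 ^ (72 * G - 80) *
                ((n : ℝ) ^ (6 * gg G) * (n : ℝ) ^ (1 / 2 : ℝ)) := by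
              apply mul_le_mul_of_nonneg_right _ (by positivity)
              exact mul_le_mul_of_nonneg_left h2K (by positivity)
            _ = (18 * (w : ℝ) * 2 ^ (72 * G - 80) * (n : ℝ) ^ (6 * gg G)) *
                (n : ℝ) ^ (1 / 2 : ℝ) := by ring
            _ ≤ (n : ℝ) ^ δ * (n : ℝ) ^ (1 / 2 : ℝ) :=
              mul_le_mul_of_nonneg_right h2.le (by positivity)
      · have hcR : 3 * ((cnt G false (i + 1) : ℕ) : ℝ) ≤ i + 1 + 2 := by
          exact_mod_cast hc1 hsmall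
        refine le_trans ?_ (mul_le_mul_of_nonneg_left hrho1 hnδ.le)
        have h7 : ((n : ℝ) ^ ((i : ℝ) * gg G)) ^ (1 / 3 : ℝ)
            ≤ (2 ^ (72 * G - 80) * x) ^ (1 / 3 : ℝ) :=
          Real.rpow_le_rpow (by positivity) h5 (by norm_num)
        rw [← Real.rpow_mul hn0.le, Real.mul_rpow (by positivity) hx0.le] at h7
        have h8 : ((2 : ℝ) ^ (72 * G - 80)) ^ (1 / 3 : ℝ) ≤ 2 ^ (72 * G - 80) := by
          calc ((2 : ℝ) ^ (72 * G - 80)) ^ (1 / 3 : ℝ)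
              ≤ ((2 : ℝ) ^ (72 * G - 80)) ^ (1 : ℝ) :=
                Real.rpow_le_rpow_of_exponent_le h2K (by norm_num)
            _ = 2 ^ (72 * G - 80) := Real.rpow_one _
        have h9 : (n : ℝ) ^ ((i : ℝ) * gg G * (1 / 3))
            ≤ 2 ^ (72 * G - 80) * x ^ (1 / 3 : ℝ) :=
          le_trans h7 (mul_le_mul_of_nonneg_right h8 (by positivity))
        have hexp : gg G * (5 + (cnt G false (i + 1) : ℕ))
            ≤ 6 * gg G + (i : ℝ) * gg G * (1 / 3) := by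
          have := mul_le_mul_of_nonneg_left hcR hg.le
          linarith
        have h10 : (n : ℝ) ^ (gg G * (5 + (cnt G false (i + 1) : ℕ)))
            ≤ (n : ℝ) ^ (6 * gg G) * (n : ℝ) ^ ((i : ℝ) * gg G * (1 / 3)) := by
          rw [← Real.rpow_add hn0]
          exact Real.rpow_le_rpow_of_exponent_le hn1 hexp
        calc 18 * (w : ℝ) * (n : ℝ) ^ (gg G * (5 + (cnt G false (i + 1) : ℕ)))
            ≤ 18 * (w : ℝ) * ((n : ℝ) ^ (6 * gg G) * (n : ℝ) ^ ((i : ℝ) * gg G * (1 / 3))) :=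
              mul_le_mul_of_nonneg_left h10 (by positivity)
          _ ≤ 18 * (w : ℝ) * ((n : ℝ) ^ (6 * gg G) *
              (2 ^ (72 * G - 80) * x ^ (1 / 3 : ℝ))) := by
            apply mul_le_mul_of_nonneg_left _ (by positivity)
            exact mul_le_mul_of_nonneg_left h9 (by positivity)
          _ = (18 * (w : ℝ) * 2 ^ (72 * G - 80) * (n : ℝ) ^ (6 * gg G)) *
              x ^ (1 / 3 : ℝ) := by ring
          _ ≤ (n : ℝ) ^ δ * x ^ (1 / 3 : ℝ) :=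
            mul_le_mul_of_nonneg_right h2.le (by positivity)
  refine ⟨j, hjK, hj1, ?_⟩
  apply Nat.le_floor
  push_cast
  calc 6 * (w : ℝ) * (((UU G n false j : ℕ) : ℝ) + 1)
      ≤ 6 * (w : ℝ) * (3 * (n : ℝ) ^ (gg G * (5 + (cnt G false j : ℕ)))) :=
        mul_le_mul_of_nonneg_left hU (by positivity)
    _ = 18 * (w : ℝ) * (n : ℝ) ^ (gg G * (5 + (cnt G false j : ℕ))) := by ring
    _ ≤ _ := key

end Pool.Agent.UCV
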