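import Mathlib

/-!
# UCV Rot: the slot permutations
-/

set_option autoImplicit false

namespace Pool.Agent.UCV

theorem exists_rot (M : ℕ) (hM : 0 < M) :
    ∃ rot : ℕ → Equiv.Perm (Fin M), ∀ D p, (rot D p : ℕ) = ((p : ℕ) + D) % M := by
  have : NeZero M := ⟨Nat.pos_iff_ne_zero.mp hM⟩
  refine ⟨fun D => Equiv.addRight (⟨D % M, Nat.mod_lt _ hM⟩ : Fin M), fun D p => ?_⟩
  simp only [Equiv.coe_addRight, Fin.val_add, Nat.add_mod_mod]

theorem exists_pi (M J Fs B Dt : ℕ) (D : ℕ → ℕ) (hM : 0 < M) (c : Fin B → Bool)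
    (σ : Fin Fs → Equiv.Perm (Fin M)) :
    ∃ (π : Fin (J * Fs + 1) → Fin B → Equiv.Perm (Fin M)) (ty : ℕ → Fin Fs → Fin (J * Fs + 1))
      (top : Fin (J * Fs + 1)),
      (∀ (h : Fin B) p, (π top h p : ℕ) = ((p : ℕ) + (h : ℕ) * Dt) % M) ∧
      ∀ j, 1 ≤ j → j ≤ J → ∀ f (h : Fin B) p,
        (c h = true → (π (ty j f) h p : ℕ) = ((p : ℕ) + (h : ℕ) * D j) % M) ∧
        (c h = false → (π (ty j f) h p : ℕ) = ((σ f p : ℕ) + (h : ℕ) * D j) % M) := by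
  obtain ⟨rot, hrot⟩ := exists_rot M hM
  have hlt : ∀ j (f : Fin Fs), 1 ≤ j → j ≤ J → (j - 1) * Fs + (f : ℕ) < J * Fs := by
    intro j f h1 h2
    have h3 : (j - 1) * Fs + Fs ≤ J * Fs := by
      have : (j - 1) * Fs + Fs = (j - 1 + 1) * Fs := by ring
      rw [this]
      exact Nat.mul_le_mul_right _ (by omega)
    have := f.isLt
    omega
  refine ⟨fun g h => if hg : (g : ℕ) < J * Fs then
      (if c h = true then rot ((h : ℕ) * D ((g : ℕ) / Fs + 1))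
        else (σ ⟨(g : ℕ) % Fs, Nat.mod_lt _ (Nat.pos_of_ne_zero (by
          rintro rfl
          simp at hg))⟩).trans (rot ((h : ℕ) * D ((g : ℕ) / Fs + 1))))
      else rot ((h : ℕ) * Dt),
    fun j f => if hj : 1 ≤ j ∧ j ≤ J then ⟨(j - 1) * Fs + (f : ℕ),
      (hlt j f hj.1 hj.2).trans (Nat.lt_succ_self _)⟩ else ⟨J * Fs, Nat.lt_succ_self _⟩,
    ⟨J * Fs, Nat.lt_succ_self _⟩, ?_, ?_⟩
  · intro h p
    dsimp only
    rw [dif_neg (lt_irrefl _), hrot]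
  · intro j h1 h2 f h p
    have hf := f.isLt
    have hFs : 0 < Fs := by omega
    have e1 : ((j - 1) * Fs + (f : ℕ)) / Fs + 1 = j := by
      rw [mul_comm, Nat.mul_add_div hFs, Nat.div_eq_of_lt hf]
      omega
    have e2 : ((j - 1) * Fs + (f : ℕ)) % Fs = (f : ℕ) := by
      rw [mul_comm, Nat.mul_add_mod, Nat.mod_eq_of_lt hf]
    simp only [dif_pos (show 1 ≤ j ∧ j ≤ J from ⟨h1, h2⟩), dif_pos (hlt j f h1 h2), e1, e2]
    constructor
    · intro hc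
      rw [if_pos hc, hrot]
    · intro hc
      rw [if_neg (by rw [hc]; decide), Equiv.trans_apply, hrot]

end Pool.Agent.UCV
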