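import Pool.Agent.UCV.Copy
import Pool.Agent.UCV.Col
import Pool.Agent.UCV.Design
import Pool.Agent.UCV.Lines
import Pool.Agent.UCV.Rot
import Pool.Agent.UCV.NumRed
import Pool.Agent.UCV.NumLev
import Pool.Agent.UCV.NumBlue
import Pool.Agent.UCV.NumBase
import Pool.Agent.UCV.NumThin
import Pool.Agent.UCT.Plane
import Pool.Agent.UCT.Fat

/-!
# UCV Final: the main theorem
-/

set_option autoImplicit false

namespace Pool.Agent.UCV

open Pool.Agent.UCR Filter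

private theorem gg_pos (G : ℕ) (hG : 4 ≤ G) : 0 < gg G := by
  unfold gg
  have : (4 : ℝ) ≤ G := by exact_mod_cast hG
  positivity

private theorem exists_G (δ : ℝ) (hδ : 0 < δ) : ∃ G : ℕ, 4 ≤ G ∧ 100 * gg G ≤ δ := by
  refine ⟨max 4 ⌈100 / (48 * δ)⌉₊, le_max_left _ _, ?_⟩
  have h1 : (100 / (48 * δ) : ℝ) ≤ ((max 4 ⌈100 / (48 * δ)⌉₊ : ℕ) : ℝ) := by
    refine (Nat.le_ceil _).trans ?_
    exact_mod_cast le_max_right _ _
  have h2 : (0 : ℝ) < ((max 4 ⌈100 / (48 * δ)⌉₊ : ℕ) : ℝ) := by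
    have : 0 < max 4 ⌈100 / (48 * δ)⌉₊ := lt_of_lt_of_le (by norm_num) (le_max_left _ _)
    exact_mod_cast this
  unfold gg
  rw [div_le_iff₀ (by positivity)] at h1
  rw [mul_one_div, div_le_iff₀ (by positivity)]
  linarith

open Classical in
theorem main_pos (A δ η : ℝ) (hA : 0 < A) (hδ : 0 < δ) (hη : 0 < η) (hη1 : η ≤ 1) :
    ∃ Δ : ℕ, ∃ c : ℝ, 0 < c ∧ ∃ n₀ : ℕ, ∀ n : ℕ, n₀ ≤ n →
      ∃ (H : SimpleGraph (Fin n)) (g : Sym2 (Fin n) → ℕ), Set.InjOn g H.edgeSet ∧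
        (∀ x : Fin n, (H.neighborSet x).ncard ≤ Δ) ∧ c * n ≤ (H.edgeSet.ncard : ℝ) ∧
        ∀ (N : ℕ) (G : SimpleGraph (Fin N)) (f : Sym2 (Fin N) → ℕ), Function.Injective f →
          (G.edgeSet.ncard : ℝ) ≤ (n : ℝ) ^ A →
          ∃ col : Sym2 (Fin N) → Bool,
            (∀ φ : Fin n → Fin N, ¬ IsColCopy H g G f col true φ) ∧
            ∀ φ : Fin n → Fin N, IsColCopy H g G f col false φ →
            ∀ x : ℝ, 1 ≤ x → x ≤ (n : ℝ) ^ (3 / 2 - δ) →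
              ({e ∈ H.edgeSet | (n : ℝ) ^ δ * rho n x <
                (UCT.near H G f φ x e : ℝ)}.ncard : ℝ) ≤ η * H.edgeSet.ncard := by
  -- the parameters
  obtain ⟨G0, hG0, hgδ⟩ := exists_G δ hδ
  have hgg := gg_pos G0 hG0
  have hdd : 0 < dd G0 := by
    unfold dd
    positivity
  obtain ⟨J, hJ⟩ : ∃ J : ℕ, J = 72 * G0 - 80 := ⟨_, rfl⟩
  obtain ⟨q, h, hq, hq5, hh, hhs, hred⟩ := num_red (J + 1) A (dd G0) hA hdd
  obtain ⟨cls, Ln, hcls, hLn, hLn1, hLn2, hdis⟩ := exists_lines q hq hq5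
  obtain ⟨t, ht⟩ : ∃ t : ℕ, t = 5 * q := ⟨_, rfl⟩
  rw [← ht] at hred
  revert cls Ln
  rw [← ht]
  intro cls Ln hcls hLn hLn1 hLn2 hdis
  obtain ⟨ce, hce, hce1, hce2⟩ := UCS.exists_ce t
  obtain ⟨B, hB⟩ : ∃ B : ℕ, B = t * (t - 1) / 2 := ⟨_, rfl⟩
  rw [← hB] at hred
  have hqB : q ^ 2 ≤ B := by
    rw [hB, Nat.le_div_iff_mul_le (by norm_num), ht]
    have h1 : q ≤ 5 * q - 1 := by omega
    calc q ^ 2 * 2 = (2 * q) * q := by ring
      _ ≤ (5 * q) * (5 * q - 1) := Nat.mul_le_mul (by omega) h1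
  have hB0 : 0 < B := lt_of_lt_of_le (by positivity) hqB
  revert ce
  rw [← hB]
  intro ce hce hce1 hce2
  obtain ⟨η', hη'⟩ : ∃ η' : ℝ, η' = η / (4 * B) := ⟨_, rfl⟩
  have hBR : (1 : ℝ) ≤ B := by exact_mod_cast hB0
  have hη'0 : 0 < η' := by
    rw [hη']
    positivity
  have hη'η : η' ≤ η := by
    rw [hη', div_le_iff₀ (by positivity)]
    nlinarith
  have hη'B : 4 * (B : ℝ) * η' ≤ 1 := by
    rw [hη', mul_div_cancel₀ _ (by positivity)]
    exact hη1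
  obtain ⟨z, hzdef⟩ : ∃ z : ℕ, z =
      ⌈24 * ((72 * G0 - 80 : ℕ) : ℝ) * ((B : ℝ) + 2) ^ (72 * G0 - 80) / η'⌉₊ + 1 := ⟨_, rfl⟩
  have hz0 : 0 < z := by omega
  have hz : 24 * ((72 * G0 - 80 : ℕ) : ℝ) * ((B : ℝ) + 2) ^ (72 * G0 - 80) ≤ η' * (z + 1) := by
    have h1 : 24 * ((72 * G0 - 80 : ℕ) : ℝ) * ((B : ℝ) + 2) ^ (72 * G0 - 80) / η' ≤ z := by
      rw [hzdef]
      push_cast
      have := Nat.le_ceil (24 * ((72 * G0 - 80 : ℕ) : ℝ) * ((B : ℝ) + 2) ^ (72 * G0 - 80) / η')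
      linarith
    rw [div_le_iff₀ hη'0] at h1
    nlinarith
  obtain ⟨Fs, hFs⟩ : ∃ Fs : ℕ, Fs = (z + 1) * z := ⟨_, rfl⟩
  have hFs0 : 0 < Fs := by
    rw [hFs]
    positivity
  obtain ⟨F, hF⟩ : ∃ F : ℕ, F = J * Fs + 1 := ⟨_, rfl⟩
  have hF0 : 0 < F := by omega
  have ht0 : 25 ≤ t := by omega
  obtain ⟨w, hw⟩ : ∃ w : ℕ, w = F * B := ⟨_, rfl⟩
  obtain ⟨v, hv⟩ : ∃ v : ℕ, v = F * t := ⟨_, rfl⟩
  have hw0 : 0 < w := by rw [hw]; positivity
  have hv0 : 0 < v := by rw [hv]; positivity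
  have hredj : ∀ᶠ n : ℕ in atTop, ∀ j ∈ Finset.range (J + 1),
      4 * (2 * ⌊(n : ℝ) ^ A⌋₊) ^ t * 4 ^ B * (40 * lm G0 n j) ^ h ≤ Qv G0 n j ^ h := by
    rw [Finset.eventually_all]
    intro j _
    exact hred (gg G0 * j / 3) (by positivity)
  obtain ⟨n₀, hn₀⟩ := eventually_atTop.mp
    (hredj.and ((num_base A η' G0 z v B w hA hG0 hv0 hB0 hw0 hη'0 hz).and
      ((num_lev G0 B hG0).and ((num_blue A G0 B Fs v hG0 hA hFs0 hv0).and
        (num_thin δ G0 w hG0 hgδ)))))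
  refine ⟨t, 1 / (4 * (v : ℝ)), by positivity, n₀, fun n hn => ?_⟩
  obtain ⟨hr, ⟨hn1, hnv, hzk, hm0, hMB, hc1, hΘ, hUtop⟩, hlev, hblu, hthin⟩ := hn₀ n hn
  rw [← hJ] at hΘ hUtop hlev hblu hthin
  obtain ⟨σ, hσ1, hσ2⟩ : ∃ σ : Fin Fs → Equiv.Perm (Fin (2 ^ UCT.kk v n)),
      (∀ f, UCT.Mixing2 (UCT.kk v n) (σ f)) ∧
      ∀ S : Finset (Fin (2 ^ UCT.kk v n)), 2 * 2 ^ UCT.kk v n ≤ (z + 1) * S.card →
        ∃ f, 2 ^ UCT.kk v n ≤ Fs * (S.filter (fun p => σ f p ∈ S)).card := by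
    rw [hFs]
    exact UCT.exists_perms z (Nat.log 4 (n / v)) hzk
  obtain ⟨k, hk⟩ : ∃ k : ℕ, k = UCT.kk v n := ⟨_, rfl⟩
  rw [← hk] at hnv hMB hc1 hΘ hUtop hblu
  revert σ
  rw [← hk]
  intro σ hσ1 hσ2
  have hM0 : 0 < 2 ^ k := by positivity
  obtain ⟨π, ty, top, hπtop, hπ⟩ := exists_pi (2 ^ k) J Fs B (2 ^ k / (4 * B))
    (fun j => DD G0 n j) hM0 (fun h => cls (ce h).1 (ce h).2) σ
  revert π ty top
  rw [← hF]
  intro π ty top hπtop hπ
  obtain ⟨H, g, v', hds⟩ := exists_design (2 ^ k) t B F n (by omega)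
    (by rw [← hv]; exact hnv) π ce hce hce1 hce2
  have hEH := card_edges hds
  rw [← hw] at hEH
  refine ⟨H, g, hds.ginj, hds.deg, ?_, fun N G f hf hG => ?_⟩
  · rw [hEH]
    exact hc1
  have hcard : (edges G).card ≤ ⌊(n : ℝ) ^ A⌋₊ := by
    apply Nat.le_floor
    have := Set.ncard_eq_toFinset_card G.edgeSet
    unfold edges
    rw [← this]
    exact hG
  have hexp : ∀ S : Finset (Fin (2 ^ k)), UCT.TT2 z k ≤ S.card →
      ∃ f, 2 ^ k ≤ Fs * (S.filter (fun p => σ f p ∈ S)).card := by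
    intro S hS
    apply hσ2 S
    unfold UCT.TT2 at hS
    have h1 : 2 * 2 ^ k < (z + 1) * (2 * 2 ^ k / (z + 1) + 1) := Nat.lt_mul_div_succ _ (by omega)
    exact h1.le.trans (Nat.mul_le_mul_left _ hS)
  have hrk : ∀ e ∈ edges G, rank G f e < ⌊(n : ℝ) ^ A⌋₊ :=
    fun e he => lt_of_lt_of_le (rank_lt_card G f e he) hcard
  have hb0 : 0 < bw G0 n ∧ 0 < VV G0 n := by
    have := hlev 1 le_rfl (by omega)
    exact ⟨this.1, this.2.1⟩
  obtain ⟨col, hcol1, hcol2⟩ := multi (edges G) (rank G f) (rank_injOn G f hf)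
    ⌊(n : ℝ) ^ A⌋₊ hcard hm0 k t h Fs (q ^ 2) J (bw G0 n) (fun j => lm G0 n j)
    (fun j => Qv G0 n j) (fun j => 2 ^ k / el G0 n j + B * (2 ^ k / DD G0 n j))
    (fun j => wm G0 n k j) (fun j => ((2 ^ k / el G0 n j : ℕ) : ℝ) * wm G0 n k j)
    (2 ^ k / Fs) (chi G0) σ hFs0 cls Ln hcls hLn hLn1 hLn2 hdis (by omega) hb0.1 hh hhs
    (by rw [← hB]; exact hhs.trans hqB) (fun j h1 h2 => (hlev j h1 h2).2.2.1)
    (fun j h1 h2 => (hlev j h1 h2).2.2.2.1)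
    (fun j h1 h2 => by rw [← hB]; exact hr j (Finset.mem_range.mpr (by omega)))
    (fun j => by unfold wm; positivity) (fun j h1 h2 => (hblu j h1 h2).1)
    (fun j h1 h2 => (hblu j h1 h2).2)
  -- most positions have small fibres
  have hprof : ∀ (β : Bool) (φ : Fin n → Fin N) (R : ℕ → ℕ),
      IsCopy (edges G) (rank G f) (2 ^ k) t B F π ce (fun j p s => φ (v' j p s)) R →
      (∀ j p (a a' : Fin t), a ≠ a' → col s(φ (v' j p a), φ (v' j p a')) = β) →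
      ∀ j ≤ J, (Finset.univ.filter (fun p : Fin (2 ^ k) =>
        UU G0 n β j < (Finset.univ.filter (fun p' : Fin (2 ^ k) =>
          R (w * (p' : ℕ)) / bw G0 n ^ j = R (w * (p : ℕ)) / bw G0 n ^ j)).card)).card ≤
        UCT.TT1 η' k := by
    intro β φ R hR hcolβ j hj
    refine le_trans (profile_copy (2 ^ k) w (bw G0 n) B J (VV G0 n) (UCT.TT2 z k) hb0.1 hb0.2 R
      (by rw [hw]; exact hR.mono) hw0 (fun j => UU G0 n β j) (fun j => DD G0 n j) ?_ ?_ j hj) hΘ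
    · intro j
      unfold UU
      apply Nat.ceil_pos.mpr
      have : (0 : ℝ) < n := by exact_mod_cast hn1
      positivity
    · intro j hj'
      obtain ⟨_, _, _, _, l1, l2, l3, l4⟩ := hlev (j + 1) (by omega) (by omega)
      rw [Nat.add_sub_cancel] at l2 l3
      by_cases hβ : chi G0 (j + 1) = β
      · exact Or.inl (l3 β hβ)
      · have hβ' : (!chi G0 (j + 1)) = β := by
          revert hβ
          cases chi G0 (j + 1) <;> cases β <;> decide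
        refine Or.inr ?_
        unfold el at l4
        rw [hβ'] at l2 l4
        refine ⟨l2, l4, ?_⟩
        have hkill := kill (edges G) (rank G f) ⌊(n : ℝ) ^ A⌋₊ hm0 hrk k t B F Fs Fs (bw G0 n)
          (UCT.TT2 z k) (el G0 n (j + 1)) (mu G0 n (j + 1)) (DD G0 n (j + 1)) π σ hσ1 hexp ce
          hce1 hce2 cls hcls hF0 hB0 hFs0 (by unfold el; omega) l1 (ty (j + 1))
          (fun f' h' p => (hπ (j + 1) (by omega) (by omega) f' h' p).1)
          (fun f' h' p => (hπ (j + 1) (by omega) (by omega) f' h' p).2)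
          (fun j p s => φ (v' j p s)) R hR (j + 1) (by
            intro f' d h1 h2 h3 h4
            exact hcol2 (j + 1) (by omega) (by omega) f' (fun p s => φ (v' (ty (j + 1) f') p s)) d
              h1 h2 h3 h4 (fun p a a' haa => by
                rw [hcolβ _ p a a' haa, hβ']))
        rw [Nat.add_sub_cancel, ← hw] at hkill
        unfold el mu at hkill
        rw [Nat.add_sub_cancel, hβ'] at hkill
        exact hkill
  have hη'M : (UCT.TT1 η' k : ℝ) ≤ η' * 2 ^ k / 6 := Nat.floor_le (by positivity)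
  have hMR : (0 : ℝ) < 2 ^ k := by positivity
  refine ⟨col, fun φ hφ => ?_, fun φ hφ x hx1 hx2 => ?_⟩
  · obtain ⟨hφ1, hφ2, hφ3, hφ4⟩ := hφ
    obtain ⟨R, hR, _⟩ := transfer π ce hce1 H g v' hds G f hf φ hφ1 hφ2 hφ3
    have hcolt : ∀ j p (a a' : Fin t), a ≠ a' → col s(φ (v' j p a), φ (v' j p a')) = true :=
      fun j p a a' haa => hφ4 _ (hds.ve j p a a' haa)
    have hP := hprof true φ R hR hcolt J le_rfl
    have hD2 : 2 ≤ 2 ^ k / (4 * B) := by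
      have hU : 0 < UU G0 n true J := by
        unfold UU
        apply Nat.ceil_pos.mpr
        have : (0 : ℝ) < n := by exact_mod_cast hn1
        positivity
      omega
    have hle : (Finset.univ.filter (fun p : Fin (2 ^ k) =>
        2 ^ k / (4 * B) ≤ (Finset.univ.filter (fun p' : Fin (2 ^ k) =>
          R (w * (p' : ℕ)) / bw G0 n ^ J = R (w * (p : ℕ)) / bw G0 n ^ J)).card)).card ≤
        UCT.TT1 η' k := by
      refine le_trans (Finset.card_le_card ?_) hP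
      intro p hp
      rw [Finset.mem_filter] at hp ⊢
      exact ⟨hp.1, lt_of_lt_of_le hUtop hp.2⟩
    have hbound : B * UCT.TT1 η' k + B * (2 ^ k / (4 * B)) + 1 < 2 ^ k := by
      have h1 : (B : ℝ) * UCT.TT1 η' k ≤ 2 ^ k / 24 := by
        calc (B : ℝ) * UCT.TT1 η' k ≤ B * (η' * 2 ^ k / 6) :=
              mul_le_mul_of_nonneg_left hη'M (by positivity)
          _ = (4 * (B : ℝ) * η') * (2 ^ k / 24) := by ring
          _ ≤ 1 * (2 ^ k / 24) := mul_le_mul_of_nonneg_right hη'B (by positivity)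
          _ = 2 ^ k / 24 := one_mul _
      have h2 : B * (2 ^ k / (4 * B)) * 4 ≤ 2 ^ k := by
        calc B * (2 ^ k / (4 * B)) * 4 = (2 ^ k / (4 * B)) * (4 * B) := by ring
          _ ≤ 2 ^ k := Nat.div_mul_le_self _ _
      have h3 : ((B * (2 ^ k / (4 * B)) : ℕ) : ℝ) * 4 ≤ 2 ^ k := by exact_mod_cast h2
      have h4 : (16 : ℝ) ≤ 2 ^ k := by
        have : 16 ≤ 2 ^ k := by omega
        exact_mod_cast this
      have h5 : ((B * UCT.TT1 η' k + B * (2 ^ k / (4 * B)) + 1 : ℕ) : ℝ) < 2 ^ k := by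
        push_cast at h3 ⊢
        linarith
      exact_mod_cast h5
    obtain ⟨p, hp1, hp2⟩ := exists_good k (2 ^ k / (4 * B)) B hD2
      (fun s => R (w * s) / bw G0 n ^ J) (fun i j h1 h2 => by
        rw [hw]
        exact win_mono hR hF0 hB0 _ i j h1 h2)
      (lt_of_le_of_lt (Nat.add_le_add_right (Nat.add_le_add_right
        (Nat.mul_le_mul_left _ hle) _) _) hbound)
    have hp2' : ∀ a < B, R (F * B * ((p : ℕ) + a * (2 ^ k / (4 * B)) + 1)) / bw G0 n ^ J ≠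
        R (F * B * ((p : ℕ) + (a + 1) * (2 ^ k / (4 * B)))) / bw G0 n ^ J := by
      rw [← hw]
      exact hp2
    have hsep := sep_top (edges G) (rank G f) (2 ^ k) t B F π ce hce2
      (fun j p s => φ (v' j p s)) R hR top (2 ^ k / (4 * B)) (bw G0 n ^ J) (by omega) hπtop p
      hp1 hp2'
    exact hcol1 (fun s => φ (v' top p s)) (fun a a' haa => hR.YE top p a a' haa) hsep
      (fun a a' haa => hcolt top p a a' haa)
  · obtain ⟨hφ1, hφ2, hφ3, hφ4⟩ := hφ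
    obtain ⟨R, hR, hRn⟩ := transfer π ce hce1 H g v' hds G f hf φ hφ1 hφ2 hφ3
    have hcolf : ∀ j p (a a' : Fin t), a ≠ a' → col s(φ (v' j p a), φ (v' j p a')) = false :=
      fun j p a a' haa => hφ4 _ (hds.ve j p a a' haa)
    obtain ⟨j, hj, hxb, hY⟩ := hthin x hx1 hx2
    have hP := hprof false φ R hR hcolf j hj
    rw [← hw] at hRn
    have hRmono : ∀ i j : ℕ, i < j → j < w * 2 ^ k → R i < R j := by
      rw [hw]
      exact hR.mono
    have hf6 : 6 * w ≤ ⌊(n : ℝ) ^ δ * rho n x⌋₊ := by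
      refine le_trans ?_ hY
      exact Nat.le_mul_of_pos_right _ (by omega)
    have hfat := UCT.fat (2 ^ k) w (bw G0 n ^ j) ⌊(n : ℝ) ^ δ * rho n x⌋₊ x R hRmono hw0
      (pow_pos hb0.1 j) hxb hf6
    have hrho : 0 ≤ rho n x := le_trans (by positivity) (le_max_left _ _)
    have hx0 : 0 ≤ (n : ℝ) ^ δ * rho n x := mul_nonneg (by positivity) hrho
    rw [hRn x (fun y => (n : ℝ) ^ δ * rho n x < (y : ℝ)), hEH]
    have h2 : (Finset.univ.filter (fun s : Fin (2 ^ k) =>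
        ⌊(n : ℝ) ^ δ * rho n x⌋₊ ≤ 6 * w * (Finset.univ.filter (fun s' : Fin (2 ^ k) =>
          R (w * (s' : ℕ)) / bw G0 n ^ j = R (w * (s : ℕ)) / bw G0 n ^ j)).card)).card ≤
        UCT.TT1 η' k := by
      refine le_trans (Finset.card_le_card ?_) hP
      intro s hs
      rw [Finset.mem_filter] at hs ⊢
      refine ⟨hs.1, ?_⟩
      have h3 := hY.trans hs.2
      exact Nat.le_of_mul_le_mul_left h3 (by positivity)
    have h4 : ((Finset.range (w * 2 ^ k)).filter (fun i =>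
        (n : ℝ) ^ δ * rho n x < (((Finset.range (w * 2 ^ k)).filter (fun i' =>
            (((R i - R i') + (R i' - R i) : ℕ) : ℝ) ≤ x)).card : ℝ))).card ≤
        6 * w * UCT.TT1 η' k := by
      refine le_trans ?_ (hfat.trans (Nat.mul_le_mul_left _ h2))
      apply Finset.card_le_card
      intro i hi
      rw [Finset.mem_filter] at hi ⊢
      refine ⟨hi.1, ?_⟩
      rw [Nat.floor_lt hx0]
      exact hi.2
    have h5 : (6 * w * UCT.TT1 η' k : ℝ) ≤ η * ((w * 2 ^ k : ℕ) : ℝ) := by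
      push_cast
      have hwR : (0 : ℝ) ≤ w := Nat.cast_nonneg _
      calc (6 * w * UCT.TT1 η' k : ℝ) ≤ 6 * w * (η' * 2 ^ k / 6) :=
            mul_le_mul_of_nonneg_left hη'M (by positivity)
        _ = η' * (w * 2 ^ k) := by ring
        _ ≤ η * (w * 2 ^ k) := mul_le_mul_of_nonneg_right hη'η (by positivity)
    refine le_trans ?_ h5
    exact_mod_cast h4

theorem main (A δ η : ℝ) (hδ : 0 < δ) (hη : 0 < η) :
    ∃ Δ : ℕ, ∃ c : ℝ, 0 < c ∧ ∃ n₀ : ℕ, ∀ n : ℕ, n₀ ≤ n →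
      ∃ (H : SimpleGraph (Fin n)) (g : Sym2 (Fin n) → ℕ), Set.InjOn g H.edgeSet ∧
        (∀ x : Fin n, (H.neighborSet x).ncard ≤ Δ) ∧ c * n ≤ (H.edgeSet.ncard : ℝ) ∧
        ∀ (N : ℕ) (G : SimpleGraph (Fin N)) (f : Sym2 (Fin N) → ℕ), Function.Injective f →
          (G.edgeSet.ncard : ℝ) ≤ (n : ℝ) ^ A →
          ∃ col : Sym2 (Fin N) → Bool,
            (∀ φ : Fin n → Fin N, ¬ IsColCopy H g G f col true φ) ∧
            ∀ φ : Fin n → Fin N, IsColCopy H g G f col false φ →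
            ∀ x : ℝ, 1 ≤ x → x ≤ (n : ℝ) ^ (3 / 2 - δ) →
              ({e ∈ H.edgeSet | (n : ℝ) ^ δ * rho n x <
                (UCT.near H G f φ x e : ℝ)}.ncard : ℝ) ≤ η * H.edgeSet.ncard := by
  obtain ⟨Δ, c, hc, n₀, hn₀⟩ := main_pos (max A 1) δ (min η 1)
    (lt_of_lt_of_le one_pos (le_max_right _ _)) hδ (lt_min hη one_pos) (min_le_right _ _)
  refine ⟨Δ, c, hc, max n₀ 1, fun n hn => ?_⟩
  obtain ⟨H, g, hg, hdeg, hE, hH⟩ := hn₀ n (le_of_max_le_left hn)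
  have hnR : (1 : ℝ) ≤ n := by exact_mod_cast le_of_max_le_right hn
  refine ⟨H, g, hg, hdeg, hE, fun N G f hf hG => ?_⟩
  obtain ⟨col, hcol⟩ := hH N G f hf
    (hG.trans (Real.rpow_le_rpow_of_exponent_le hnR (le_max_left _ _)))
  refine ⟨col, hcol.1, fun φ hφ x hx1 hx2 => (hcol.2 φ hφ x hx1 hx2).trans ?_⟩
  exact mul_le_mul_of_nonneg_right (min_le_left _ _) (Nat.cast_nonneg _)

end Pool.Agent.UCV
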