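import Pool.Agent.UCR.Cover
import Pool.Agent.UCR.Rank
import Pool.Agent.UCS.RedUnion
import Pool.Agent.UCS.Small
import Pool.Agent.UCV.BlueUnion

/-!
# UCV Level: the set of edges chosen at one level
-/

set_option autoImplicit false

namespace Pool.Agent.UCV

open Pool.Agent.UCR

private theorem cls_line {t nl : ℕ} (cls : Fin t → Fin t → Bool) (Ln : Fin nl → ZMod 5 → Fin t)
    (hcls : ∀ a b, cls a b = cls b a)
    (hLn1 : ∀ l c, cls (Ln l c) (Ln l (c + 1)) = true)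
    (hLn2 : ∀ l c, cls (Ln l c) (Ln l (c + 2)) = false) (l : Fin nl) (a d : ZMod 5)
    (hd : d ≠ 0) : cls (Ln l a) (Ln l (a + d)) = if d = 1 ∨ d = 4 then true else false := by
  have hc : ∀ c : ZMod 5, c ≠ 0 → c = 1 ∨ c = 2 ∨ c = 3 ∨ c = 4 := by decide
  have e4 : ∀ a : ZMod 5, a + 4 + 1 = a := by decide
  have e3 : ∀ a : ZMod 5, a + 3 + 2 = a := by decide
  rcases hc d hd with rfl | rfl | rfl | rfl
  · rw [if_pos (by decide)]
    exact hLn1 l a
  · rw [if_neg (by decide)]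
    exact hLn2 l a
  · rw [if_neg (by decide), hcls]
    have := hLn2 l (a + 3)
    rwa [e3] at this
  · rw [if_pos (by decide), hcls]
    have := hLn1 l (a + 4)
    rwa [e4] at this

/-- the lines of a clique with labels are units -/
private theorem line_unit {V : Type} {t nl : ℕ} (E : Finset (Sym2 V)) (rk : Sym2 V → ℕ) (L : ℕ)
    (cls : Fin t → Fin t → Bool) (Ln : Fin nl → ZMod 5 → Fin t)
    (hcls : ∀ a b, cls a b = cls b a) (hLn : ∀ l, Function.Injective (Ln l))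
    (hLn1 : ∀ l c, cls (Ln l c) (Ln l (c + 1)) = true)
    (hLn2 : ∀ l c, cls (Ln l c) (Ln l (c + 2)) = false) (X : Fin t → V) (i j : ℕ)
    (hX : Function.Injective X) (hXE : ∀ a b, a ≠ b → s(X a, X b) ∈ E)
    (hW : ∀ a b, a ≠ b → rk s(X a, X b) / L = if cls a b = true then i else j) (l : Fin nl) :
    IsUnit5 E (fun e => rk e / L) (fun e => rk e / L) (fun c => X (Ln l c)) ∧
      lab (fun e => rk e / L) (fun c => X (Ln l c)) = (i, j) := by
  have hne : ∀ a d : ZMod 5, d ≠ 0 → Ln l a ≠ Ln l (a + d) := by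
    intro a d hd h
    have := hLn l h
    exact hd (by simpa using this.symm)
  have hw : ∀ a d : ZMod 5, d ≠ 0 → rk s(X (Ln l a), X (Ln l (a + d))) / L =
      if d = 1 ∨ d = 4 then i else j := by
    intro a d hd
    rw [hW _ _ (hne a d hd), cls_line cls Ln hcls hLn1 hLn2 l a d hd]
    by_cases h : d = 1 ∨ d = 4
    · simp only [if_pos h, if_true]
    · simp only [if_neg h]
      simp
  refine ⟨⟨hX.comp (hLn l), fun a b hab => hXE _ _ (fun h => hab (hLn l h)), ?_⟩, ?_⟩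
  · intro a b d hd
    simp only [hw a d hd, hw b d hd]
    exact ⟨trivial, by omega⟩
  · have h1 := hw 0 1 (by decide)
    have h2 := hw 0 2 (by decide)
    rw [if_pos (by decide), zero_add] at h1
    rw [if_neg (by decide), zero_add] at h2
    unfold lab
    simp only [h1, h2]

private theorem ex_of_filterc {α : Type} [Fintype α] (P : α → Prop) (inst : DecidablePred P)
    (c q n : ℕ)
    (h : 4 * (c : ℝ) * ((@Finset.filter α P inst Finset.univ).card : ℝ) ≤ (q : ℝ) ^ n) :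
    ∃ B : Finset α, (∀ f, f ∈ B ↔ P f) ∧ 4 * c * B.card ≤ q ^ n :=
  ⟨@Finset.filter α P inst Finset.univ,
    fun f => by rw [Finset.mem_filter]; exact and_iff_right (Finset.mem_univ _),
    by exact_mod_cast h⟩

open Classical in
theorem one_level {V : Type} [Fintype V] [DecidableEq V] (E : Finset (Sym2 V))
    (rk : Sym2 V → ℕ) (hinj : Set.InjOn rk (E : Set (Sym2 V))) (m : ℕ) (hm : E.card ≤ m)
    (hm0 : 0 < m) (k t h L lam Q x Fs nl : ℕ) (wmax b K0 : ℝ)
    (σ : Fin Fs → Equiv.Perm (Fin (2 ^ k))) (hFs : 0 < Fs)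
    (cls : Fin t → Fin t → Bool) (Ln : Fin nl → ZMod 5 → Fin t)
    (hcls : ∀ a b, cls a b = cls b a) (hLn : ∀ l, Function.Injective (Ln l))
    (hLn1 : ∀ l c, cls (Ln l c) (Ln l (c + 1)) = true)
    (hLn2 : ∀ l c, cls (Ln l c) (Ln l (c + 2)) = false)
    (hnl : 0 < nl) (ht : 2 ≤ t) (hL : 0 < L) (hlam : 108 * L < lam ^ 3) (hQ : 0 < Q)
    (hred : 4 * (2 * m) ^ t * 4 ^ (t * (t - 1) / 2) * (40 * lam) ^ h ≤ Q ^ h)
    (hw : 0 < wmax) (hb : 4 * (Q : ℝ) * b ≤ K0)
    (hnum : 4 * (Q : ℝ) * wmax *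
      (x * Real.log (m * (2 ^ k + 1) ^ 2) + Real.log (4 * Fs)) ≤ K0) :
    ∃ fs : Sym2 V → Prop,
      (∀ y : Fin t → V, (∀ a b : Fin t, a < b → s(y a, y b) ∈ E) →
        (∀ a b a' b' : Fin t, a < b → a' < b' →
          rk s(y a, y b) / L = rk s(y a', y b') / L → a = a' ∧ b = b') →
        (Finset.univ.filter (fun q : Fin t × Fin t => q.1 < q.2 ∧
          fs s(y q.1, y q.2))).card < 2 * h) ∧
      ∀ (f : Fin Fs) (X : Fin (2 ^ k) → Fin t → V)
          (d : Fin x → Fin m × Fin (2 ^ k + 1) × Fin (2 ^ k + 1)),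
          (∀ T, (wt d d (σ f) T : ℝ) ≤ wmax) →
          (∀ p i j, Cnt d d (σ f) p i j → Function.Injective (X p) ∧
            (∀ a b, a ≠ b → s(X p a, X p b) ∈ E) ∧
            ∀ a b, a ≠ b →
              rk s(X p a, X p b) / L = if cls a b = true then (i : ℕ) else (j : ℕ)) →
          K0 ≤ ((Finset.univ.filter (fun p => ∃ i j, Cnt d d (σ f) p i j)).card : ℝ) →
          ((Finset.univ.filter (fun p => ∃ i, Cnt d d (σ f) p i i)).card : ℝ) ≤ b →
          ∃ p i j, i ≠ j ∧ Cnt d d (σ f) p i j ∧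
            ∀ l, ∃ c c' : ZMod 5, c ≠ c' ∧ fs s(X p (Ln l c), X p (Ln l c')) := by
  set W : Sym2 V → ℕ := fun e => rk e / L with hWdef
  obtain ⟨Rd, hR1, hR2, hR3⟩ := cover E W W L lam
    (fun g => fine_card E rk hinj L hL g)
    (fun g => coarse_card E rk L L hL le_rfl g) hlam
    (Finset.univ.filter (fun X => IsUnit5 E W W X)) (fun X hX => (Finset.mem_filter.mp hX).2)
  have hFsR : (0 : ℝ) < Fs := by exact_mod_cast hFs
  have hblue := fun f : Fin Fs => blue_union k m Q x wmax b K0 (4 * Fs) (σ f) hm0 (by positivity) hQ hw hb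
    hnum
  have hredu := UCS.red_union E W W m Q (40 * lam) h t m ht hm hQ Rd hR2 hR3 hred
  have hex1 : ∀ f : Fin Fs, ∃ B1 : Finset (Fin m × Fin m → Fin Q), (∀ g, g ∈ B1 ↔
      ∃ d : Fin x → Fin m × Fin (2 ^ k + 1) × Fin (2 ^ k + 1),
        (∀ T, (wt d d (σ f) T : ℝ) ≤ wmax) ∧
        K0 ≤ ∑ T, (wt d d (σ f) T : ℝ) ∧
        (∑ T ∈ Finset.univ.filter (fun T => (g T : ℕ) = 0), (wt d d (σ f) T : ℝ)) ≤ b) ∧
      4 * Fs * B1.card ≤ Q ^ (m ^ 2) := by
    intro f
    exact ex_of_filterc _ _ Fs Q (m ^ 2) (hblue f)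
  choose B1 hB1 hB1c using hex1
  obtain ⟨B2, hB2, hB2c⟩ := UCS.ex_of_filter _ _ _ hredu
  have hsum1 : 4 * ((Finset.univ : Finset (Fin Fs)).biUnion B1).card ≤ Q ^ (m ^ 2) := by
    have h1 : ((Finset.univ : Finset (Fin Fs)).biUnion B1).card ≤
        ∑ f, (B1 f).card := Finset.card_biUnion_le
    have h2 : Fs * (4 * ∑ f, (B1 f).card) ≤ Fs * Q ^ (m ^ 2) := by
      calc Fs * (4 * ∑ f, (B1 f).card) = ∑ f, 4 * Fs * (B1 f).card := by
            rw [← Finset.mul_sum]
            ring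
        _ ≤ ∑ _f : Fin Fs, Q ^ (m ^ 2) := Finset.sum_le_sum (fun f _ => hB1c f)
        _ = Fs * Q ^ (m ^ 2) := by
            rw [Finset.sum_const, Finset.card_univ, Fintype.card_fin, smul_eq_mul]
    have h3 := Nat.le_of_mul_le_mul_left h2 hFs
    omega
  have hex : ∃ g : Fin m × Fin m → Fin Q, (∀ f, g ∉ B1 f) ∧ g ∉ B2 := by
    by_contra hcon
    push Not at hcon
    have hsub : (Finset.univ : Finset (Fin m × Fin m → Fin Q)) ⊆
        (Finset.univ : Finset (Fin Fs)).biUnion B1 ∪ B2 := by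
      intro g _
      rw [Finset.mem_union]
      by_cases hg : ∃ f, g ∈ B1 f
      · obtain ⟨f, hf⟩ := hg
        exact Or.inl (Finset.mem_biUnion.mpr ⟨f, Finset.mem_univ _, hf⟩)
      · push Not at hg
        exact Or.inr (hcon g hg)
    have hcard := (Finset.card_le_card hsub).trans (Finset.card_union_le _ _)
    rw [Finset.card_univ, Fintype.card_fun, Fintype.card_prod, Fintype.card_fin, Fintype.card_fin,
      ← pow_two] at hcard
    have hpos : 0 < Q ^ (m ^ 2) := pow_pos hQ _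
    omega
  obtain ⟨g, hg1, hg2⟩ := hex
  rw [hB2] at hg2
  refine ⟨fun e => ∃ T : Fin m × Fin m, (g T : ℕ) = 0 ∧ e ∈ Rd ((T.1 : ℕ), (T.2 : ℕ)),
    fun y hyE hyW => ?_, ?_⟩
  · by_contra hlt
    apply hg2
    refine ⟨y, hyE, hyW, hyW, ?_⟩
    convert Nat.le_of_not_lt hlt
  · intro f X d hwt hlab hK0 hdiag
    by_contra hcon
    push Not at hcon
    apply hg1 f
    rw [hB1]
    refine ⟨d, hwt, ?_, ?_⟩
    · refine hK0.trans ?_
      exact_mod_cast UCS.card_le_sum_wt (σ f) d d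
    · have hmpos : 0 < m := hm0
      obtain ⟨l0⟩ : Nonempty (Fin nl) := ⟨⟨0, hnl⟩⟩
      have hne1 : Ln l0 0 ≠ Ln l0 (0 + 1) := fun h => absurd (hLn l0 h) (by decide)
      have hne2 : Ln l0 0 ≠ Ln l0 (0 + 2) := fun h => absurd (hLn l0 h) (by decide)
      obtain ⟨A1, hA1⟩ : ∃ A1 : Fin (2 ^ k) → Fin m, ∀ p,
          (A1 p : ℕ) = (rk s(X p (Ln l0 0), X p (Ln l0 (0 + 1))) / L) % m :=
        ⟨fun p => ⟨_, Nat.mod_lt _ hmpos⟩, fun p => rfl⟩
      obtain ⟨A2, hA2⟩ : ∃ A2 : Fin (2 ^ k) → Fin m, ∀ p,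
          (A2 p : ℕ) = (rk s(X ((σ f).symm p) (Ln l0 0), X ((σ f).symm p) (Ln l0 (0 + 2))) / L) % m :=
        ⟨fun p => ⟨_, Nat.mod_lt _ hmpos⟩, fun p => rfl⟩
      have hA : ∀ p i j, Cnt d d (σ f) p i j → A1 p = i ∧ A2 (σ f p) = j := by
        intro p i j hcnt
        obtain ⟨_, _, e3⟩ := hlab p i j hcnt
        constructor
        · apply Fin.ext
          rw [hA1, e3 _ _ hne1, hLn1, if_pos rfl]
          exact Nat.mod_eq_of_lt i.isLt
        · apply Fin.ext
          rw [hA2, Equiv.symm_apply_apply, e3 _ _ hne2, hLn2, if_neg (by decide)]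
          exact Nat.mod_eq_of_lt j.isLt
      have hsum := UCS.sum_wt_le (σ f) d d A1 A2 hA
        (Finset.univ.filter (fun T => (g T : ℕ) = 0))
        (Finset.univ.filter (fun p => ∃ i, Cnt d d (σ f) p i i)) (by
          intro p T hT hcnt
          rw [Finset.mem_filter] at hT ⊢
          refine ⟨Finset.mem_univ _, T.1, ?_⟩
          have hTT : T.1 = T.2 := by
            by_contra hne
            obtain ⟨l, hl⟩ := hcon p T.1 T.2 hne hcnt
            obtain ⟨e1, e2, e3⟩ := hlab p T.1 T.2 hcnt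
            obtain ⟨hu, hlb⟩ := line_unit E rk L cls Ln hcls hLn hLn1 hLn2 (X p) T.1 T.2 e1 e2 e3 l
            obtain ⟨a, a', haa, hmem⟩ := hR1 (fun c => X p (Ln l c))
              (Finset.mem_filter.mpr ⟨Finset.mem_univ _, hu⟩)
            rw [hlb] at hmem
            exact hl a a' haa T hT.2 hmem
          rw [← hTT] at hcnt
          exact hcnt)
      refine le_trans ?_ hdiag
      exact_mod_cast hsum

end Pool.Agent.UCV
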