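import Pool.Agent.UCT.NumDefs

/-!
# UCV NumDefs: the parameters as functions of `n`

`G` is a large natural number. The windows of level `j` have size `bw G n ^ j`, about `n ^ (g j)`
with `g = 1 / (48 G)`, `0 ≤ j ≤ 72 G - 80`.
-/

set_option autoImplicit false

namespace Pool.Agent.UCV

/-- the colour of the level `j`, `true` = red, `false` = blue -/
def chi (G j : ℕ) : Bool :=
  if j ≤ 45 * G then decide (j % 3 ≠ 1) else if j ≤ 54 * G - 24 then false else true

/-- number of levels `i` with `1 ≤ i ≤ j` and colour `β` -/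
def cnt (G : ℕ) (β : Bool) (j : ℕ) : ℕ := ((Finset.Icc 1 j).filter (fun i => chi G i = β)).card

noncomputable def gg (G : ℕ) : ℝ := 1 / (48 * G)

noncomputable def kap (G : ℕ) : ℝ := gg G ^ 2 / 2

noncomputable def dd (G : ℕ) : ℝ := gg G ^ 2 / 32

/-- exponent of the size bound at level `j` for copies of colour `β` -/
noncomputable def ue (G : ℕ) (β : Bool) (j : ℕ) : ℝ := gg G * (4 + cnt G β j) + kap G * j

noncomputable def UU (G n : ℕ) (β : Bool) (j : ℕ) : ℕ := ⌈(n : ℝ) ^ (ue G β j)⌉₊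

noncomputable def DD (G n j : ℕ) : ℕ :=
  ⌈(n : ℝ) ^ (ue G (!chi G j) (j - 1) + kap G / 2)⌉₊ + 1

noncomputable def VV (G n : ℕ) : ℕ := ⌈(n : ℝ) ^ (kap G / 8)⌉₊

noncomputable def bw (G n : ℕ) : ℕ := ⌊(n : ℝ) ^ gg G⌋₊

noncomputable def lm (G n j : ℕ) : ℕ := ⌈(n : ℝ) ^ (gg G * j / 3 + dd G)⌉₊

noncomputable def Qv (G n j : ℕ) : ℕ := ⌊(n : ℝ) ^ (gg G * j / 3 + 2 * dd G)⌋₊

/-- lower bound of the fibre sizes at level `j` -/
noncomputable def el (G n j : ℕ) : ℕ := UU G n (!chi G j) j + 1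

/-- upper bound of the fibre sizes at level `j` -/
noncomputable def mu (G n j : ℕ) : ℕ := bw G n * VV G n * UU G n (!chi G j) (j - 1)

/-- bound for the number of positions of one label -/
noncomputable def wm (G n k j : ℕ) : ℝ := 2 * (mu G n j : ℝ) ^ 2 / 2 ^ k + 8

end Pool.Agent.UCV
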