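import Pool.Agent.UCV.NumDefs

/-!
# UCV NumPat: the pattern of the colours of the levels

Levels `1, .., 45 G`: blue, red, red, blue, red, red, ...; levels `45 G + 1, .., 54 G - 24`: blue;
levels `54 G - 23, .., 72 G - 80`: red.

PROOF. Closed formulas by induction with `cnt_succ`. For `j ≤ 45 G`: `cnt false j = (j + 2) / 3`,
`cnt true j = j - (j + 2) / 3`. For `45 G ≤ j ≤ 54 G - 24`: `cnt false j = j - 30 G`,
`cnt true j = 30 G`. For `54 G - 24 ≤ j`: `cnt false j = 24 G - 24`,
`cnt true j = j - 24 G + 24`.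
`cnt_facts`, cases: `j ≤ 45 G`, blue level, `j = 3 i + 1`, `cnt true (j - 1) = 2 i`;
red level `j = 3 i + 2` or `3 i + 3`, `cnt false (j - 1) = i + 1`; `45 G < j ≤ 54 G - 24`, blue
level, `cnt true (j - 1) = 30 G`; `54 G - 24 < j`, red level, `cnt false (j - 1) = 24 G - 24`.
-/

set_option autoImplicit false

namespace Pool.Agent.UCV

theorem cnt_succ (G : ℕ) (β : Bool) (j : ℕ) :
    cnt G β (j + 1) = cnt G β j + if chi G (j + 1) = β then 1 else 0 := by
  unfold cnt
  have h : Finset.Icc 1 (j + 1) = insert (j + 1) (Finset.Icc 1 j) := by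
    ext x
    simp only [Finset.mem_Icc, Finset.mem_insert]
    omega
  rw [h, Finset.filter_insert]
  split_ifs with hc
  · rw [Finset.card_insert_of_notMem]
    simp
  · simp

private theorem cnt_zero (G : ℕ) (β : Bool) : cnt G β 0 = 0 := by
  simp [cnt]

private theorem chi_lo {G j : ℕ} (h : j ≤ 45 * G) : chi G j = decide (j % 3 ≠ 1) := by
  unfold chi
  rw [if_pos h]

private theorem chi_mid {G j : ℕ} (h : 45 * G < j) (h' : j ≤ 54 * G - 24) :
    chi G j = false := by
  unfold chi
  rw [if_neg (by omega), if_pos h']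

private theorem chi_hi {G j : ℕ} (h : 45 * G < j) (h' : 54 * G - 24 < j) :
    chi G j = true := by
  unfold chi
  rw [if_neg (by omega), if_neg (by omega)]

private theorem cnt_sum (G j : ℕ) : cnt G false j + cnt G true j = j := by
  induction j with
  | zero => simp [cnt_zero]
  | succ j ih =>
    rw [cnt_succ, cnt_succ]
    cases chi G (j + 1) <;> simp <;> omega

private theorem cnt_lo (G j : ℕ) (h : j ≤ 45 * G) : cnt G false j = (j + 2) / 3 := by
  induction j with
  | zero => simp [cnt_zero]
  | succ j ih =>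
    rw [cnt_succ, ih (by omega), chi_lo h]
    by_cases h3 : (j + 1) % 3 = 1
    · simp only [h3, ne_eq, not_true_eq_false, decide_false, if_true]
      omega
    · simp only [ne_eq, h3, not_false_eq_true, decide_true, Bool.true_eq_false, if_false]
      omega

private theorem cnt_mid (G : ℕ) (hG : 4 ≤ G) (j : ℕ) (h : 45 * G ≤ j) (h' : j ≤ 54 * G - 24) :
    cnt G false j = j - 30 * G := by
  induction j, h using Nat.le_induction with
  | base =>
    rw [cnt_lo G _ le_rfl]
    omega
  | succ j hj ih =>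
    rw [cnt_succ, ih (by omega), chi_mid (by omega) h']
    simp only [if_true]
    omega

private theorem cnt_hi (G : ℕ) (hG : 4 ≤ G) (j : ℕ) (h : 54 * G - 24 ≤ j) :
    cnt G false j = 24 * G - 24 := by
  induction j, h using Nat.le_induction with
  | base =>
    rw [cnt_mid G hG _ (by omega) le_rfl]
    omega
  | succ j hj ih =>
    rw [cnt_succ, ih, chi_hi (by omega) (by omega)]
    simp

theorem cnt_facts (G : ℕ) (hG : 4 ≤ G) (j : ℕ) (hj : 1 ≤ j) (hJ : j ≤ 72 * G - 80) :
    j + 3 * cnt G (!chi G j) (j - 1) + 24 ≤ 144 * G ∧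
      j ≤ 3 * cnt G (!chi G j) (j - 1) + 9 := by
  have hs := cnt_sum G (j - 1)
  rcases Nat.lt_or_ge (45 * G) j with h | h
  · rcases Nat.lt_or_ge (54 * G - 24) j with h' | h'
    · rw [chi_hi h h', Bool.not_true, cnt_hi G hG (j - 1) (by omega)]
      omega
    · rw [chi_mid h h', Bool.not_false]
      have := cnt_mid G hG (j - 1) (by omega) (by omega)
      omega
  · rw [chi_lo h]
    have := cnt_lo G (j - 1) (by omega)
    by_cases h3 : j % 3 = 1
    · simp only [h3, ne_eq, not_true_eq_false, decide_false, Bool.not_false]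
      omega
    · simp only [ne_eq, h3, not_false_eq_true, decide_true, Bool.not_true]
      omega

theorem cnt_blue (G : ℕ) (hG : 4 ≤ G) (j : ℕ) (hJ : j ≤ 72 * G - 80) :
    (j ≤ 45 * G → 3 * cnt G false j ≤ j + 2) ∧
      (45 * G < j → cnt G false j + 30 * G ≤ j ∧ cnt G false j ≤ 24 * G) := by
  refine ⟨fun h => ?_, fun h => ?_⟩
  · rw [cnt_lo G j h]
    omega
  · rcases Nat.lt_or_ge (54 * G - 24) j with h' | h'
    · rw [cnt_hi G hG j (by omega)]
      omega
    · rw [cnt_mid G hG j (by omega) h']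
      omega

theorem cnt_top (G : ℕ) (hG : 4 ≤ G) : cnt G true (72 * G - 80) + 56 ≤ 48 * G := by
  have h1 := cnt_sum G (72 * G - 80)
  have h2 := cnt_hi G hG (72 * G - 80) (by omega)
  omega

end Pool.Agent.UCV
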