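import Pool.Agent.UCV.Final
import Pool.Agent.UCT.Size

/-!
# UCV Thin: all monochromatic copies are thin, and the size-Ramsey bound
-/

set_option autoImplicit false

namespace Pool.Agent.UCV

open Pool.Agent.UCR Filter

private theorem rho_le (n : ℕ) (hn : 1 ≤ n) (d : ℝ) (hd : 0 ≤ d) :
    rho n ((n : ℝ) ^ (3 / 2 - d)) ≤ (n : ℝ) ^ (1 / 2 : ℝ) := by
  have hnR : (1 : ℝ) ≤ n := by exact_mod_cast hn
  unfold rho
  refine max_le ?_ (min_le_right _ _)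
  rw [← Real.rpow_mul (by linarith)]
  exact Real.rpow_le_rpow_of_exponent_le hnR (by linarith)

/-- the asymptotic inequality -/
private theorem num_thin' (δ d c : ℝ) (hd : 0 < d) (hd1 : d ≤ 1 / 4) (hdδ : 4 * d ≤ δ)
    (hc : 0 < c) :
    ∀ᶠ n : ℕ in atTop,
      ∀ e : ℝ, e ≤ (n : ℝ) ^ (2 - δ) →
        (2 * e / (n : ℝ) ^ (3 / 2 - d) + 1) *
          ((n : ℝ) ^ d * rho n ((n : ℝ) ^ (3 / 2 - d))) < 1 / 2 * (c * n) := by
  have h1 : ∀ a : ℝ, 0 < a → ∀ B : ℝ, ∀ᶠ n : ℕ in atTop, B < (n : ℝ) ^ a := fun a ha B =>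
    ((tendsto_rpow_atTop ha).comp tendsto_natCast_atTop_atTop).eventually_gt_atTop B
  filter_upwards [eventually_ge_atTop 1, h1 (2 * d) (by positivity) (8 / c),
    h1 (1 / 4) (by norm_num) (8 / c)] with n hn hB hC
  have hnR : (1 : ℝ) ≤ n := by exact_mod_cast hn
  have hn0 : (0 : ℝ) < n := by linarith
  intro e he
  have e2 : (n : ℝ) ^ d * rho n ((n : ℝ) ^ (3 / 2 - d)) ≤ (n : ℝ) ^ (1 / 2 + d) := by
    have h2 : (n : ℝ) ^ (1 / 2 + d) = (n : ℝ) ^ d * (n : ℝ) ^ (1 / 2 : ℝ) := by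
      rw [← Real.rpow_add hn0]
      congr 1
      ring
    rw [h2]
    exact mul_le_mul_of_nonneg_left (rho_le n hn d hd.le) (by positivity)
  have e3 : 2 * e / (n : ℝ) ^ (3 / 2 - d) ≤ 2 * (n : ℝ) ^ (2 - δ - (3 / 2 - d)) := by
    rw [div_le_iff₀ (by positivity), mul_assoc, ← Real.rpow_add hn0,
      show 2 - δ - (3 / 2 - d) + (3 / 2 - d) = 2 - δ by ring]
    linarith
  have e4 : (2 * e / (n : ℝ) ^ (3 / 2 - d) + 1) *
      ((n : ℝ) ^ d * rho n ((n : ℝ) ^ (3 / 2 - d))) ≤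
      2 * (n : ℝ) ^ (1 - 2 * d) + (n : ℝ) ^ (1 - (1 / 4 : ℝ)) := by
    have hpos : 0 ≤ (n : ℝ) ^ d * rho n ((n : ℝ) ^ (3 / 2 - d)) :=
      mul_nonneg (by positivity) (le_trans (by positivity) (le_max_left _ _))
    have h3 : (2 * e / (n : ℝ) ^ (3 / 2 - d) + 1) *
        ((n : ℝ) ^ d * rho n ((n : ℝ) ^ (3 / 2 - d))) ≤
        (2 * (n : ℝ) ^ (2 - δ - (3 / 2 - d)) + 1) * (n : ℝ) ^ (1 / 2 + d) := by
      have h6 : 2 * e / (n : ℝ) ^ (3 / 2 - d) + 1 ≤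
          2 * (n : ℝ) ^ (2 - δ - (3 / 2 - d)) + 1 := by linarith
      exact (mul_le_mul_of_nonneg_right h6 hpos).trans
        (mul_le_mul_of_nonneg_left e2 (by positivity))
    refine h3.trans ?_
    have h4 : (n : ℝ) ^ (2 - δ - (3 / 2 - d)) * (n : ℝ) ^ (1 / 2 + d) ≤
        (n : ℝ) ^ (1 - 2 * d) := by
      rw [← Real.rpow_add hn0]
      exact Real.rpow_le_rpow_of_exponent_le hnR (by linarith)
    have h5 : (n : ℝ) ^ (1 / 2 + d) ≤ (n : ℝ) ^ (1 - (1 / 4 : ℝ)) :=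
      Real.rpow_le_rpow_of_exponent_le hnR (by linarith)
    nlinarith
  refine lt_of_le_of_lt e4 ?_
  have e5 : (n : ℝ) ^ (1 - 2 * d) < c * n / 8 := by
    rw [Real.rpow_sub hn0, Real.rpow_one, div_lt_iff₀ (by positivity)]
    rw [div_lt_iff₀ hc] at hB
    nlinarith
  have e6 : (n : ℝ) ^ (1 - (1 / 4 : ℝ)) < c * n / 8 := by
    rw [Real.rpow_sub hn0, Real.rpow_one, div_lt_iff₀ (by positivity)]
    rw [div_lt_iff₀ hc] at hC
    nlinarith
  have : 0 < c * n := by positivity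
  linarith

theorem thin (A δ η : ℝ) (hδ : 0 < δ) (hη : 0 < η) :
    ∃ Δ n₀ : ℕ, ∀ n : ℕ, n₀ ≤ n →
      ∃ (H : SimpleGraph (Fin n)) (g : Sym2 (Fin n) → ℕ), Set.InjOn g H.edgeSet ∧
        (∀ x : Fin n, (H.neighborSet x).ncard ≤ Δ) ∧
        ∀ (N : ℕ) (G : SimpleGraph (Fin N)) (f : Sym2 (Fin N) → ℕ), Function.Injective f →
          ((G.edgeSet.ncard : ℝ) ≤ (n : ℝ) ^ (2 - δ) →
            ∃ col : Sym2 (Fin N) → Bool, ∀ (b : Bool) (φ : Fin n → Fin N),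
              ¬ IsColCopy H g G f col b φ) ∧
          ((G.edgeSet.ncard : ℝ) ≤ (n : ℝ) ^ A →
            ∃ col : Sym2 (Fin N) → Bool,
              (∀ φ : Fin n → Fin N, ¬ IsColCopy H g G f col true φ) ∧
              ∀ φ : Fin n → Fin N, IsColCopy H g G f col false φ →
              ∀ x : ℝ, 1 ≤ x → x ≤ (n : ℝ) ^ (3 / 2 - δ) →
                ({e ∈ H.edgeSet | (n : ℝ) ^ δ * rho n x <
                  (UCT.near H G f φ x e : ℝ)}.ncard : ℝ) ≤ η * H.edgeSet.ncard) := by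
  obtain ⟨d, hd⟩ : ∃ d : ℝ, d = min δ 1 / 4 := ⟨_, rfl⟩
  have hmin : 0 < min δ 1 := lt_min hδ one_pos
  have hd0 : 0 < d := by rw [hd]; positivity
  have h4 : 4 * d = min δ 1 := by rw [hd]; ring
  have hd1 : d ≤ 1 / 4 := by
    have := min_le_right δ 1
    linarith
  have hdδ : 4 * d ≤ δ := by
    rw [h4]
    exact min_le_left _ _
  obtain ⟨Δ, c, hc, n₀, hn₀⟩ := main (max A 2) d (min η (1 / 2)) hd0 (lt_min hη (by norm_num))
  obtain ⟨n₁, hn₁⟩ := eventually_atTop.mp (num_thin' δ d c hd0 hd1 hdδ hc)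
  refine ⟨Δ, max (max n₀ n₁) 1, fun n hn => ?_⟩
  have hn0 : n₀ ≤ n := le_trans (le_trans (le_max_left _ _) (le_max_left _ _)) hn
  have hn1 : n₁ ≤ n := le_trans (le_trans (le_max_right _ _) (le_max_left _ _)) hn
  have hn1' : 1 ≤ n := le_of_max_le_right hn
  have hnR : (1 : ℝ) ≤ n := by exact_mod_cast hn1'
  obtain ⟨H, g, hg, hdeg, hE, hH⟩ := hn₀ n hn0
  have hN2 := hn₁ n hn1
  refine ⟨H, g, hg, hdeg, fun N G f hf => ⟨fun hG => ?_, fun hG => ?_⟩⟩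
  · obtain ⟨col, hcol1, hcol2⟩ :=
      hH N G f hf (hG.trans (Real.rpow_le_rpow_of_exponent_le hnR (by
      have := le_max_right A 2
      linarith)))
    refine ⟨col, fun b φ hφ => ?_⟩
    cases b with
    | true => exact hcol1 φ hφ
    | false =>
    have hx1 : (1 : ℝ) ≤ (n : ℝ) ^ (3 / 2 - d) := Real.one_le_rpow hnR (by linarith)
    have h1 := hcol2 φ hφ _ hx1 le_rfl
    have hrho : 0 ≤ (n : ℝ) ^ d * rho n ((n : ℝ) ^ (3 / 2 - d)) :=
      mul_nonneg (by positivity) (le_trans (by positivity) (le_max_left _ _))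
    have h2 := UCT.few_thin H G f hf φ hφ.2.1 _
      ((n : ℝ) ^ d * rho n ((n : ℝ) ^ (3 / 2 - d))) hx1 hrho
    have h3 := hN2 _ hG
    have h5 : (H.edgeSet.ncard : ℝ) ≤
        ({e ∈ H.edgeSet | (n : ℝ) ^ d * rho n ((n : ℝ) ^ (3 / 2 - d)) <
            (UCT.near H G f φ ((n : ℝ) ^ (3 / 2 - d)) e : ℝ)}.ncard : ℝ) +
        ({e ∈ H.edgeSet | (UCT.near H G f φ ((n : ℝ) ^ (3 / 2 - d)) e : ℝ) ≤
          (n : ℝ) ^ d * rho n ((n : ℝ) ^ (3 / 2 - d))}.ncard : ℝ) := by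
      norm_cast
      refine le_trans (Set.ncard_le_ncard ?_ (Set.toFinite _)) (Set.ncard_union_le _ _)
      intro e he
      rcases lt_or_ge ((n : ℝ) ^ d * rho n ((n : ℝ) ^ (3 / 2 - d)))
        (UCT.near H G f φ ((n : ℝ) ^ (3 / 2 - d)) e : ℝ) with h6 | h6
      · exact Or.inl ⟨he, h6⟩
      · exact Or.inr ⟨he, h6⟩
    have h6 : min η (1 / 2) * (H.edgeSet.ncard : ℝ) ≤ 1 / 2 * H.edgeSet.ncard :=
      mul_le_mul_of_nonneg_right (min_le_right _ _) (Nat.cast_nonneg _)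
    linarith
  · obtain ⟨col, hcol1, hcol2⟩ := hH N G f hf
      (hG.trans (Real.rpow_le_rpow_of_exponent_le hnR (le_max_left _ _)))
    refine ⟨col, hcol1, fun φ hφ x hx1 hx2 => ?_⟩
    have h1 := hcol2 φ hφ x hx1
      (hx2.trans (Real.rpow_le_rpow_of_exponent_le hnR (by linarith)))
    have h2 : min η (1 / 2) * (H.edgeSet.ncard : ℝ) ≤ η * H.edgeSet.ncard :=
      mul_le_mul_of_nonneg_right (min_le_left _ _) (Nat.cast_nonneg _)
    refine le_trans ?_ (h1.trans h2)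
    norm_cast
    refine Set.ncard_le_ncard ?_ (Set.toFinite _)
    rintro e ⟨he, h3⟩
    refine ⟨he, lt_of_le_of_lt ?_ h3⟩
    have h5 : (n : ℝ) ^ d ≤ (n : ℝ) ^ δ := Real.rpow_le_rpow_of_exponent_le hnR (by linarith)
    exact mul_le_mul_of_nonneg_right h5 (le_trans (by positivity) (le_max_left _ _))

end Pool.Agent.UCV
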